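import Pool.Agent.Run7.h714.DU.Col

set_option autoImplicit false
set_option linter.unusedSectionVars false

/-!
# Averages over the colours
-/

namespace Pool.Agent.Run7.h714.DU

open Pool.Agent.W907.SG Pool.Agent.W907.SM Module
open Pool.Agent.TH652.Above (HSph lv_sub lv_set)
open Pool.Agent.N13.EU (chiL t_BR)
open Pool.Agent.R580.CD (Sph fp Phi IsGam lnk gam gam_spec)
open Pool.Agent.R703.CW (hsph_link card_le_of_hsph)

section

variable {V : Type} [Fintype V] [LinearOrder V] {G : SimpleGraph V}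

/-- the number of the triples of colours which avoid an edge -/
theorem count_avoid (C : Finset ℕ) (S : Finset ℕ) (hS : S ⊆ C) :
    ((C.powersetCard 3).filter (fun P => Disjoint P S)).card = (C.card - S.card).choose 3 := by
  have h1 : (C.powersetCard 3).filter (fun P => Disjoint P S) = (C \ S).powersetCard 3 := by
    ext P
    rw [Finset.mem_filter, Finset.mem_powersetCard, Finset.mem_powersetCard, Finset.subset_sdiff]
    tauto
  rw [h1, Finset.card_powersetCard, Finset.card_sdiff_of_subset hS]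

/-- **coloured flag homology 5-spheres** -/
theorem chi_avg (hS : HSph 6 G) (h2 : Sph (ZMod 2) 6 G) (c : V → ℕ) (C : Finset ℕ) (hcC : ∀ v, c v ∈ C)
    (hc : ∀ u w, G.Adj u w → c u ≠ c w) :
    (4 * (C.card.choose 3 : ℚ)) * chiW G ≤ ((C.card - 2).choose 3 : ℚ) * ∑ e ∈ cls G Finset.univ 2, chiL G e := by
  classical
  have h1 : ∀ P ∈ C.powersetCard 3, 4 * chiW G ≤
      ∑ e ∈ cls G Finset.univ 2, if Disjoint P (e.image c) then chiL G e else 0 := by
    intro P hP
    rw [Finset.mem_powersetCard] at hP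
    obtain ⟨φ⟩ : Nonempty (↥P ≃ Fin 3) := ⟨P.equivFinOfCardEq hP.2⟩
    have h3 := chi_three hS h2 {v : V | c v ∈ P} (fun v => if h : c v ∈ P then φ ⟨c v, h⟩ else 0) (by
      intro u hu w hw huw
      have hu' : c u ∈ P := hu
      have hw' : c w ∈ P := hw
      rw [dif_pos hu', dif_pos hw']
      intro h4
      exact hc u w huw (congrArg Subtype.val (φ.injective h4))) (Finset.univ.filter fun v => c v ∉ P) (fun v => by
      rw [Finset.mem_filter]
      exact ⟨fun h => h.2, fun h => ⟨Finset.mem_univ _, h⟩⟩)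
    refine h3.trans (le_of_eq ?_)
    unfold cT
    rw [← Finset.sum_filter]
    refine Finset.sum_congr ?_ fun _ _ => rfl
    ext e
    rw [mem_cls, Finset.mem_filter, mem_cls, Finset.disjoint_right]
    constructor
    · rintro ⟨⟨h4, h5⟩, h6⟩
      refine ⟨⟨⟨Finset.subset_univ _, h5⟩, h6⟩, fun x hx => ?_⟩
      obtain ⟨v, hv, rfl⟩ := Finset.mem_image.1 hx
      exact (Finset.mem_filter.1 (h4 hv)).2
    · rintro ⟨⟨⟨_, h5⟩, h6⟩, h4⟩
      refine ⟨⟨fun v hv => Finset.mem_filter.2 ⟨Finset.mem_univ _, ?_⟩, h5⟩, h6⟩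
      exact h4 (Finset.mem_image_of_mem _ hv)
  have h3 := Finset.sum_le_sum h1
  rw [Finset.sum_const, Finset.card_powersetCard, nsmul_eq_mul, Finset.sum_comm] at h3
  have h4 : ∀ e ∈ cls G Finset.univ 2, (∑ P ∈ C.powersetCard 3, if Disjoint P (e.image c) then chiL G e else 0) =
      ((C.card - 2).choose 3 : ℚ) * chiL G e := by
    intro e he
    rw [mem_cls] at he
    rw [← Finset.sum_filter, Finset.sum_const, nsmul_eq_mul, count_avoid C (e.image c) (by
      intro x hx
      obtain ⟨v, _, rfl⟩ := Finset.mem_image.1 hx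
      exact hcC v)]
    have h5 : (e.image c).card = 2 := by
      rw [Finset.card_image_of_injOn, he.1.2]
      intro x hx y hy hxy
      by_contra hne
      exact hc x y (he.2 hx hy hne) hxy
    rw [h5]
  rw [Finset.sum_congr rfl h4, ← Finset.mul_sum] at h3
  calc (4 * (C.card.choose 3 : ℚ)) * chiW G = (C.card.choose 3 : ℚ) * (4 * chiW G) := by ring
    _ ≤ _ := h3

open Classical in
/-- the sums over the faces -/
theorem sumL_of {n : ℕ} (hn : 6 ≤ n) (p q : ℚ)
    (h : ∀ T : Finset V, G.IsClique (T : Set V) → T.card = n - 6 →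
      p * chiL G T ≤ q * ∑ S : Finset V, if T ⊆ S ∧ G.IsClique (S : Set V) ∧ S.card = T.card + 2 then chiL G S else 0) :
    p * sumL G (n - 6) ≤ q * ((n - 4).choose 2 * sumL G (n - 4)) := by
  classical
  have h1 : ∀ T : Finset V, p * (if G.IsClique (T : Set V) ∧ T.card = n - 6 then chiL G T else 0) ≤
      q * ∑ S : Finset V, (if G.IsClique (S : Set V) ∧ S.card = n - 4 then
        (if T ∈ S.powersetCard (n - 6) then chiL G S else 0) else 0) := by
    intro T
    by_cases hT : G.IsClique (T : Set V) ∧ T.card = n - 6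
    · rw [if_pos hT]
      refine (h T hT.1 hT.2).trans (le_of_eq ?_)
      congr 1
      refine Finset.sum_congr rfl fun S _ => ?_
      have e : S.card = T.card + 2 ↔ S.card = n - 4 := by omega
      by_cases h5 : G.IsClique (S : Set V) ∧ S.card = n - 4
      · by_cases h6 : T ⊆ S
        · rw [if_pos ⟨h6, h5.1, e.2 h5.2⟩, if_pos h5, if_pos (Finset.mem_powersetCard.2 ⟨h6, hT.2⟩)]
        · rw [if_neg (fun h => h6 h.1), if_pos h5, if_neg (fun h => h6 (Finset.mem_powersetCard.1 h).1)]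
      · rw [if_neg (fun h => h5 ⟨h.2.1, e.1 h.2.2⟩), if_neg h5]
    · rw [if_neg hT, mul_zero]
      refine le_of_eq ?_
      rw [Finset.sum_eq_zero fun S _ => ?_, mul_zero]
      split_ifs with h5 h6
      · exfalso
        rw [Finset.mem_powersetCard] at h6
        exact hT ⟨h5.1.subset (by exact_mod_cast h6.1), h6.2⟩
      · rfl
      · rfl
  have h2 := Finset.sum_le_sum fun T (_ : T ∈ (Finset.univ : Finset (Finset V))) => h1 T
  rw [← Finset.mul_sum, ← Finset.mul_sum, Finset.sum_comm] at h2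
  refine h2.trans (le_of_eq ?_)
  congr 1
  unfold sumL
  rw [Finset.mul_sum]
  refine Finset.sum_congr rfl fun S _ => ?_
  by_cases h5 : G.IsClique (S : Set V) ∧ S.card = n - 4
  · simp only [if_pos h5]
    rw [Finset.sum_ite_mem, Finset.univ_inter, Finset.sum_const, Finset.card_powersetCard, nsmul_eq_mul, h5.2,
      ← Nat.choose_symm (by omega : n - 6 ≤ n - 4), show n - 4 - (n - 6) = 2 by omega]
  · simp only [if_neg h5]
    rw [Finset.sum_const_zero, mul_zero]

/-- **coloured flag homology spheres** -/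
theorem sumL_col {n : ℕ} (hn : 6 ≤ n) (hS : HSph n G) (h2 : Sph (ZMod 2) n G) (c : V → ℕ) (C : Finset ℕ)
    (hcC : ∀ v, c v ∈ C) (hc : ∀ u w, G.Adj u w → c u ≠ c w) :
    (4 * ((C.card + 6 - n).choose 3 : ℚ)) * sumL G (n - 6) ≤
      ((C.card + 4 - n).choose 3 : ℚ) * ((n - 4).choose 2 * sumL G (n - 4)) := by
  classical
  refine sumL_of hn _ _ fun T hT hTc => ?_
  have h3 : HSph 6 (G.induce (lk G T)) := by
    have := hsph_link hS T hT
    rwa [show n - T.card = 6 by omega] at this
  have h4 : Sph (ZMod 2) 6 (G.induce (lk G T)) := by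
    have := (Pool.Agent.N613.RP.link_sphOn h2 hT).induce
    rw [show n - T.card = 6 by omega] at this
    exact this
  have hinj : Set.InjOn c (T : Set V) := by
    intro x hx y hy hxy
    by_contra hne
    exact hc x y (hT hx hy hne) hxy
  have h5 := chi_avg h3 h4 (fun x => c x.1) (C \ T.image c) (fun v => by
      rw [Finset.mem_sdiff]
      refine ⟨hcC v.1, fun h => ?_⟩
      obtain ⟨u, hu, huv⟩ := Finset.mem_image.1 h
      exact hc u v.1 (v.2 u hu).symm huv) (fun u w huw => hc u.1 w.1 huw)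
  have h6 : (C \ T.image c).card = C.card + 6 - n := by
    have h7 : T.image c ⊆ C := by
      intro x hx
      obtain ⟨v, _, rfl⟩ := Finset.mem_image.1 hx
      exact hcC v
    have h8 := Finset.card_le_card h7
    rw [Finset.card_sdiff_of_subset h7]
    rw [Finset.card_image_of_injOn hinj] at h8 ⊢
    omega
  rw [h6, show C.card + 6 - n - 2 = C.card + 4 - n by omega] at h5
  rw [t_BR V G T hT]
  refine h5.trans (le_of_eq ?_)
  congr 1
  have h9 := sum_up hT 2 (chiL G)
  refine Eq.trans ?_ (h9.trans ?_)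
  · rw [← Finset.sum_filter]
    refine Finset.sum_congr ?_ fun R _ => chiL_up hT R
    ext R
    rw [mem_cls, Finset.mem_filter, Finset.mem_powersetCard]
  · refine Finset.sum_congr rfl fun S _ => ?_
    split_ifs <;> rfl

/-- **the inequality for the `γ`-vector** -/
theorem tau_col {n : ℕ} (hn : 6 ≤ n) (hS : HSph n G) (h2 : Sph (ZMod 2) n G) (c : V → ℕ) (C : Finset ℕ)
    (hcC : ∀ v, c v ∈ C) (hc : ∀ u w, G.Adj u w → c u ≠ c w) {γ : ℕ → ℤ} (hγ : fp G Set.univ = Phi n γ) :
    0 ≤ ((C.card + 6 - n).choose 3 : ℚ) * ∑ i ∈ Finset.range (n / 2 + 1), (i.choose 3 : ℚ) * γ i / 4 ^ i +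
      ((C.card + 4 - n).choose 3 : ℚ) * (n - 4).choose 2 *
        ∑ i ∈ Finset.range (n / 2 + 1), (i.choose 2 : ℚ) * γ i / 4 ^ i := by
  have h1 := sumL_col hn hS h2 c C hcC hc
  have h3 := sumL_phi hγ (l := 3) (by omega)
  have h4 := sumL_phi hγ (l := 2) (by omega)
  rw [show n - 6 = n - 2 * 3 by omega, h3, show n - 4 = n - 2 * 2 by omega, h4] at h1
  rw [show n - 4 = n - 2 * 2 by omega]
  have h5 : (0 : ℚ) < 2 ^ n := by positivity
  set x := ∑ i ∈ Finset.range (n / 2 + 1), (i.choose 3 : ℚ) * γ i / 4 ^ i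
  set y := ∑ i ∈ Finset.range (n / 2 + 1), (i.choose 2 : ℚ) * γ i / 4 ^ i
  set b : ℚ := (((n - 2 * 2).choose 2 : ℕ) : ℚ)
  set p : ℚ := (((C.card + 6 - n).choose 3 : ℕ) : ℚ)
  set q : ℚ := (((C.card + 4 - n).choose 3 : ℕ) : ℚ)
  have h6 : 0 ≤ 2 ^ n * (p * x + q * b * y) := by
    have h7 : (4 * p) * ((-1) ^ 3 * (2 ^ n / 4 ^ 3) * x) = - (2 ^ n * (p * x) / 16) := by ring
    have h8 : q * (b * ((-1) ^ 2 * (2 ^ n / 4 ^ 2) * y)) = 2 ^ n * (q * b * y) / 16 := by ring
    rw [h7, h8] at h1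
    have h9 : 2 ^ n * (p * x + q * b * y) = 2 ^ n * (p * x) + 2 ^ n * (q * b * y) := by ring
    rw [h9]
    linarith
  exact nonneg_of_mul_nonneg_right h6 h5

end

end Pool.Agent.Run7.h714.DU
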