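import Pool.Agent.Run7.h714.DU.Gam
import Pool.Agent.N613.RP.Main

set_option autoImplicit false
set_option linter.unusedSectionVars false

/-!
# The `γ`-vector, in terms of the face polynomial
-/

namespace Pool.Agent.Run7.h714.DU

open Polynomial
open Pool.Agent.W907.SG Pool.Agent.W907.SM
open Pool.Agent.TH652.Above (HSph)
open Pool.Agent.N13.EU (chiL fpoly)
open Pool.Agent.R580.CD (Sph fp Phi IsGam lnk gam gam_spec betti Zy By CC)

section

variable {V : Type} [Fintype V] [LinearOrder V] {G : SimpleGraph V}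

/-- homology spheres over the reals -/
theorem hsph_iff {n : ℕ} : Sph ℝ n G ↔ HSph n G := by
  have h1 : ∀ (A : Set V) (i : ℕ), KK G (fun _ => (- LinearMap.id : ℝ →ₗ[ℝ] ℝ)) A ∅ i = CC ℝ G A i := by
    intro A i
    ext c
    constructor
    · intro h
      exact (mem_KK.1 h).1
    · intro h
      exact mem_KK.2 ⟨h, fun T t _ => rfl⟩
  have h2 : ∀ (A : Set V) (i : ℕ), betti ℝ G A i = beta G (fun _ => (- LinearMap.id : ℝ →ₗ[ℝ] ℝ)) A ∅ i := by
    intro A i
    unfold betti beta Zy By ZZ BB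
    rw [h1, h1]
  unfold Sph HSph
  refine forall_congr' fun T => forall_congr' fun hT => forall_congr' fun i => ?_
  rw [h2]
  exact Iff.rfl

theorem fpoly_eq (G : SimpleGraph V) : fpoly G = (fp G Set.univ).map (Int.castRingHom ℚ) := by
  unfold fpoly fp
  rw [Polynomial.map_sum]
  refine Finset.sum_congr rfl fun T _ => ?_
  by_cases h : G.IsClique (T : Set V)
  · rw [if_pos h, if_pos ⟨h, Set.subset_univ _⟩, Polynomial.map_pow, Polynomial.map_X]
  · rw [if_neg h, if_neg fun h' => h h'.1, Polynomial.map_zero]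

theorem sumL_coeff (G : SimpleGraph V) (j : ℕ) :
    sumL G j = ((fpoly G).comp (X + C (-1 / 2 : ℚ))).coeff j := by
  classical
  rw [← taylor_apply, taylor_coeff, Pool.Agent.N13.EU.Tay.hasse_fpoly]
  refine Eq.trans ?_ ((Pool.Agent.N13.EU.Tay.sum_eq G j).trans ?_)
  · unfold sumL
    exact Finset.sum_congr rfl fun T _ => by split_ifs <;> rfl
  · rfl

theorem sumL_phi {n : ℕ} {γ : ℕ → ℤ} (h : fp G Set.univ = Phi n γ) {l : ℕ} (hl : 2 * l ≤ n) :
    sumL G (n - 2 * l) = (-1) ^ l * (2 ^ n / 4 ^ l) *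
      ∑ i ∈ Finset.range (n / 2 + 1), (i.choose l : ℚ) * γ i / 4 ^ i := by
  rw [sumL_coeff, fpoly_eq, h]
  unfold Phi
  simp only [Polynomial.map_sum, Polynomial.map_mul, Polynomial.map_pow, Polynomial.map_add, Polynomial.map_C,
    Polynomial.map_X, Polynomial.map_one, Polynomial.map_ofNat, Polynomial.sum_comp, Polynomial.finsetSum_coeff,
    Polynomial.mul_comp, Polynomial.pow_comp, Polynomial.C_comp, Polynomial.X_comp, Polynomial.add_comp,
    Polynomial.one_comp, Polynomial.ofNat_comp]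
  rw [Finset.mul_sum]
  refine Finset.sum_congr rfl fun i hi => ?_
  have hi' := Finset.mem_range.mp hi
  have e1 : (X + C (-1 / 2 : ℚ)) + (X + C (-1 / 2 : ℚ)) ^ 2 = X ^ 2 + C (-1 / 4 : ℚ) := by
    have : (C (-1 / 4 : ℚ) : ℚ[X]) = C (-1 / 2 : ℚ) * (1 + C (-1 / 2 : ℚ)) := by
      rw [← C_1, ← C_add, ← C_mul]; norm_num
    have h2 : (C (-1 / 2 : ℚ) : ℚ[X]) + C (-1 / 2 : ℚ) = -1 := by
      rw [← C_add, show (-1 / 2 : ℚ) + -1 / 2 = -1 by norm_num, C_neg, C_1]
    rw [this]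
    linear_combination X * h2
  have e2 : (1 + 2 * (X + C (-1 / 2 : ℚ)) : ℚ[X]) = C 2 * X := by
    have h2 : (C (-1 / 2 : ℚ) : ℚ[X]) + C (-1 / 2 : ℚ) = -1 := by
      rw [← C_add, show (-1 / 2 : ℚ) + -1 / 2 = -1 by norm_num, C_neg, C_1]
    have h3 : (C 2 : ℚ[X]) = 2 := rfl
    rw [h3]
    linear_combination h2
  have e3 : ((2 : ℕ) : ℚ[X]) = 2 := by norm_num
  simp only [e3]
  rw [e1, e2, mul_assoc, coeff_C_mul, Pool.Agent.R782.Bal.coeff_aux n i l (by omega) hl]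
  simp only [eq_intCast]
  ring

/-- the Taylor coefficients of the `γ`-polynomial at `1/4` -/
theorem tau_ge {n : ℕ} (hn : 6 ≤ n) (hS : HSph n G) {γ : ℕ → ℤ} (hγ : fp G Set.univ = Phi n γ) :
    0 ≤ ∑ i ∈ Finset.range (n / 2 + 1), (i.choose 3 : ℚ) * γ i / 4 ^ i +
      (n - 4).choose 2 * ∑ i ∈ Finset.range (n / 2 + 1), (i.choose 2 : ℚ) * γ i / 4 ^ i := by
  have h1 := sumL_le hn hS
  have h2 := sumL_phi hγ (l := 3) (by omega)
  have h3 := sumL_phi hγ (l := 2) (by omega)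
  rw [show n - 6 = n - 2 * 3 by omega, h2, show n - 4 = n - 2 * 2 by omega, h3] at h1
  rw [show n - 4 = n - 2 * 2 by omega]
  have h4 : (0 : ℚ) < 2 ^ n := by positivity
  set x := ∑ i ∈ Finset.range (n / 2 + 1), (i.choose 3 : ℚ) * γ i / 4 ^ i
  set y := ∑ i ∈ Finset.range (n / 2 + 1), (i.choose 2 : ℚ) * γ i / 4 ^ i
  set b : ℚ := (((n - 2 * 2).choose 2 : ℕ) : ℚ)
  have h5 : 0 ≤ 2 ^ n * (x + b * y) := by
    have h6 : (4 : ℚ) * ((-1) ^ 3 * (2 ^ n / 4 ^ 3) * x) = - (2 ^ n * x / 16) := by ring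
    have h7 : b * ((-1) ^ 2 * (2 ^ n / 4 ^ 2) * y) = 2 ^ n * (b * y) / 16 := by ring
    rw [h6, h7] at h1
    have h8 : 2 ^ n * (x + b * y) = 2 ^ n * x + 2 ^ n * (b * y) := by ring
    rw [h8]
    linarith
  exact nonneg_of_mul_nonneg_right h5 h4

/-- dimension 5 -/
theorem gamma_six (hS : Sph ℝ 6 G) : 0 ≤ gam 6 G 2 + gam 6 G 3 := by
  have h1 := tau_ge le_rfl (hsph_iff.1 hS) (gam_spec hS).1
  have e : 6 / 2 + 1 = 4 := rfl
  rw [e, Finset.sum_range_succ, Finset.sum_range_succ, Finset.sum_range_succ, Finset.sum_range_one,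
    Finset.sum_range_succ, Finset.sum_range_succ, Finset.sum_range_succ, Finset.sum_range_one] at h1
  norm_num [Nat.choose] at h1
  have h2 : (0 : ℚ) ≤ ((gam 6 G 2 + gam 6 G 3 : ℤ) : ℚ) := by
    push_cast
    linarith
  exact_mod_cast h2

end

end Pool.Agent.Run7.h714.DU
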