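import Pool.Agent.Run7.h714.DU.Rel6
import Pool.Agent.Run7.h714.DU.Gam2
import Pool.Agent.N504.RS.Brid
import Pool.Agent.R782.Bal.Tay

set_option autoImplicit false
set_option linter.unusedSectionVars false

/-!
# Subcomplexes which are coloured by three colours
-/

namespace Pool.Agent.Run7.h714.DU

open Pool.Agent.W907.SG Pool.Agent.W907.SM Module
open Pool.Agent.TH652.Above (HSph lv_sub lv_set)
open Pool.Agent.N504.RS.Two (HSph2 clq hsph_clq mem_clq)
open Pool.Agent.R782.Bal (tr2 mem_KK_tr Emb l2_emb emb_link')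
open Pool.Agent.R580.CD (Sph betti Zy By CC lnk)

/-- vanishing by dimension -/
theorem lv_dim {V : Type} {G : SimpleGraph V} {i : ℕ} (h : ∀ T : Finset V, G.IsClique (T : Set V) → T.card ≠ i) :
    LV G i := by
  intro _ _ c hc
  funext w T
  exact hc.supp w T fun h' => h T h'.1 h'.2

theorem lv_dim_sub {V : Type} {G : SimpleGraph V} {A : Set V} {i : ℕ}
    (h : ∀ T : Finset V, G.IsClique (T : Set V) → (T : Set V) ⊆ A → T.card ≠ i) : LV (G.induce A) i := by
  refine lv_dim fun T hT => ?_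
  rw [← Finset.card_map (Function.Embedding.subtype _)]
  refine h _ ?_ ?_
  · intro x hx y hy hxy
    rw [Finset.mem_coe, Finset.mem_map] at hx hy
    obtain ⟨a, ha, rfl⟩ := hx
    obtain ⟨b, hb, rfl⟩ := hy
    exact hT ha hb fun e => hxy (by rw [e])
  · intro x hx
    rw [Finset.mem_coe, Finset.mem_map] at hx
    obtain ⟨a, _, rfl⟩ := hx
    exact a.2

section

variable {V : Type} [Fintype V] [LinearOrder V] {G : SimpleGraph V}

theorem betti_two (A : Set V) (i : ℕ) : betti (ZMod 2) G A i = beta G tr2 A ∅ i := by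
  have h1 : ∀ i : ℕ, KK G tr2 A ∅ i = CC (ZMod 2) G A i := by
    intro i
    ext c
    rw [mem_KK_tr]
    rfl
  unfold betti beta Zy By ZZ BB
  rw [h1, h1]

/-- homology spheres mod two, transported to a standard set -/
theorem hsph2_fin {d : ℕ} (h : Sph (ZMod 2) d G) (e : V ≃o Fin (Fintype.card V)) :
    HSph2 d (G.comap e.symm) := by
  classical
  intro S hS i
  have hS' : G.IsClique ((S.map e.symm.toEquiv.toEmbedding : Finset V) : Set V) := by
    intro x hx y hy hxy
    rw [Finset.mem_coe, Finset.mem_map] at hx hy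
    obtain ⟨a, ha, rfl⟩ := hx
    obtain ⟨b, hb, rfl⟩ := hy
    exact hS ha hb fun e' => hxy (by rw [e'])
  have h1 := h _ hS' i
  rw [betti_two, Finset.card_map] at h1
  rw [← h1]
  have hfin : Fintype ↥(lk (G.comap e.symm) S) := Fintype.ofFinite _
  have e1 := tr ↥(lk (G.comap e.symm) S) (Fin (Fintype.card V)) (ZMod 2) (ZMod 2) (G.comap e.symm)
    ((G.comap e.symm).induce (lk (G.comap e.symm) S)) (fun _ => LinearMap.id) Subtype.val
    (fun _ _ h => h) (fun _ _ => Iff.rfl) i
  have e2 := tr ↥(lk (G.comap e.symm) S) V (ZMod 2) (ZMod 2) G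
    ((G.comap e.symm).induce (lk (G.comap e.symm) S)) (fun _ => LinearMap.id)
    (fun x => e.symm x.1) (fun _ _ h => e.symm.strictMono h) (fun _ _ => Iff.rfl) i
  rw [Subtype.range_coe] at e1
  have hr : Set.range (fun x : ↥(lk (G.comap e.symm) S) => (e.symm x.1 : V)) =
      lnk G (S.map e.symm.toEquiv.toEmbedding) := by
    ext v
    constructor
    · rintro ⟨x, rfl⟩ u hu
      obtain ⟨a, ha, rfl⟩ := Finset.mem_map.1 hu
      exact x.2 a ha
    · intro hv
      refine ⟨⟨e v, fun a ha => ?_⟩, e.symm_apply_apply v⟩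
      have h2 := hv (e.symm a) (Finset.mem_map_of_mem _ ha)
      show G.Adj (e.symm (e v)) (e.symm a)
      rw [e.symm_apply_apply]
      exact h2
  rw [hr] at e2
  exact e1.trans e2.symm

/-- the links of codimension five -/
theorem emb_lk {d : ℕ} (h : Sph (ZMod 2) d G) (T : Finset V) (hT : G.IsClique (T : Set V)) (hd : d ≤ T.card + 5) :
    Emb 2 (G.induce (lk G T)) := by
  classical
  obtain ⟨e⟩ : Nonempty (V ≃o Fin (Fintype.card V)) := ⟨(Fintype.orderIsoFinOfCardEq V rfl).symm⟩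
  refine emb_link' G T hT (n := T.card + 4) (l := 2) (by norm_num) (clq (G.comap e.symm)) e.toEquiv.toEmbedding
    (n' := d) (by omega) (hsph_clq (hsph2_fin h e)) fun S hS => ?_
  rw [mem_clq]
  intro x hx y hy hxy
  rw [Finset.mem_coe, Finset.mem_map] at hx hy
  obtain ⟨a, ha, rfl⟩ := hx
  obtain ⟨b, hb, rfl⟩ := hy
  show G.Adj (e.symm (e a)) (e.symm (e b))
  rw [e.symm_apply_apply, e.symm_apply_apply]
  exact hS ha hb fun e' => hxy (by rw [e'])

/-- three colours -/
theorem lv_three {d : ℕ} (h : Sph (ZMod 2) d G) (T : Finset V) (hT : G.IsClique (T : Set V)) (hd : d ≤ T.card + 5)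
    (A : Set V) (hA : A ⊆ lk G T) (c : V → Fin 3) (hc : ∀ u ∈ A, ∀ w ∈ A, G.Adj u w → c u ≠ c w) (i : ℕ)
    (hi : 3 ≤ i) : LV (G.induce A) i := by
  classical
  have h1 := (emb_lk h T hT hd).induce (Subtype.val ⁻¹' A)
  have h2 : LV ((G.induce (lk G T)).induce (Subtype.val ⁻¹' A)) i := by
    intro _ _
    exact l2_emb h1 (fun x => c x.1.1) (fun u w huw => hc u.1.1 u.2 w.1.1 w.2 huw) i (by omega)
  rw [lv_sub] at h2
  refine lv_set ?_ h2
  ext x
  constructor
  · intro hx
    exact ⟨⟨x, hA hx⟩, hx, rfl⟩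
  · rintro ⟨y, hy, rfl⟩
    exact hy

/-- a colouring bounds the size of the cliques -/
theorem card_le_col {k : ℕ} {A : Set V} (c : V → Fin k) (hc : ∀ u ∈ A, ∀ w ∈ A, G.Adj u w → c u ≠ c w)
    (T : Finset V) (hT : G.IsClique (T : Set V)) (hTA : (T : Set V) ⊆ A) : T.card ≤ k := by
  classical
  have h1 : Set.InjOn c (T : Set V) := by
    intro x hx y hy hxy
    by_contra hne
    exact hc x (hTA hx) y (hTA hy) (hT hx hy hne) hxy
  have h2 := Finset.card_image_of_injOn h1
  rw [← h2]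
  exact (Finset.card_le_univ _).trans (by simp)

open Classical in
/-- **the edges outside a subcomplex without triangles** -/
theorem chi_triangle (hS : HSph 6 G) (A₀ : Set V) (h0 : ∀ T : Finset V, G.IsClique (T : Set V) → (T : Set V) ⊆ A₀ →
    T.card ≠ 3) (B : Finset V) (hB : ∀ v, v ∈ B ↔ v ∉ A₀) : 4 * chiW G ≤ cT G B 2 := by
  have hB' : B = Finset.univ.filter (fun v => v ∉ A₀) := by
    ext v
    rw [Finset.mem_filter, hB]
    exact ⟨fun h => ⟨Finset.mem_univ _, h⟩, fun h => h.2⟩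
  rw [hB']
  have h1 : ∀ T : Finset V, G.IsClique (T : Set V) → (T : Set V) ⊆ A₀ → T.card < 3 := by
    intro T hT hTA
    by_contra h3
    obtain ⟨U, hU1, hU2⟩ := Finset.exists_subset_card_eq (show 3 ≤ T.card by omega)
    exact h0 U (hT.subset (by exact_mod_cast hU1)) ((Finset.coe_subset.2 hU1).trans hTA) hU2
  refine chi_rel hS A₀ (lv_dim_sub fun T hT hTA => ?_) fun v _ => lv_dim_sub fun T hT hTA => ?_
  · have := h1 T hT hTA
    omega
  · have := h1 T hT (hTA.trans Set.inter_subset_left)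
    omega

open Classical in
/-- **the edges outside a subcomplex with three colours** -/
theorem chi_three (hS : HSph 6 G) (h2 : Sph (ZMod 2) 6 G) (A₀ : Set V) (c : V → Fin 3)
    (hc : ∀ u ∈ A₀, ∀ w ∈ A₀, G.Adj u w → c u ≠ c w) (B : Finset V) (hB : ∀ v, v ∈ B ↔ v ∉ A₀) :
    4 * chiW G ≤ cT G B 2 := by
  have hB' : B = Finset.univ.filter (fun v => v ∉ A₀) := by
    ext v
    rw [Finset.mem_filter, hB]
    exact ⟨fun h => ⟨Finset.mem_univ _, h⟩, fun h => h.2⟩
  rw [hB']
  refine chi_rel hS A₀ (lv_dim_sub fun T hT hTA => ?_) fun v _ => ?_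
  · have := card_le_col c hc T hT hTA
    omega
  · have hT : G.IsClique ((({v} : Finset V)) : Set V) := by simp
    refine lv_three h2 {v} hT (by simp) _ ?_ c (fun u hu w hw => hc u hu.1 w hw.1) 3 le_rfl
    rw [Pool.Agent.N13.PL.nb_lk]
    exact Set.inter_subset_right

end

end Pool.Agent.Run7.h714.DU
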