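import Pool.Agent.Run7.h714.DU.Top
import Pool.Agent.Run7.h714.DU.Gam2
import Pool.Agent.R703.CW.Main

set_option autoImplicit false
set_option linter.unusedSectionVars false

/-!
# Coxeter weights on flag homology 5-spheres
-/

namespace Pool.Agent.Run7.h714.DU

open Pool.Agent.W907.SG Pool.Agent.W907.SM
open Pool.Agent.TH652.Above (HSph)
open Pool.Agent.N13.EU (chiL fpoly t_BR)
open Pool.Agent.R580.CD (Sph fp Phi IsGam lnk gam gam_spec)
open Pool.Agent.R703.CW (hsph_link Orders omegaN omegaN_eq chiW_link chiW_eq mem_cl_univ card_le_of_hsph Heavy cd_of_cls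
  flagEul_of_hsph)
open Pool.Agent.W497.FS (cl lam lkF mem_cl mem_lkF)
open Y365.FS (bN weighted_eq)

section

variable {V : Type} [Fintype V] [LinearOrder V] {G : SimpleGraph V}

open Classical in
/-- the sum over the edges at a vertex -/
theorem sum_at (v : V) :
    ∑ e ∈ (cls G Finset.univ 2).filter (fun e => v ∈ e), chiL G e = sumL (G.induce (lk G {v})) 1 := by
  have hT : G.IsClique ((({v} : Finset V)) : Set V) := by simp
  have h1 := sum_up hT 1 (chiL G)
  have h2 : sumL (G.induce (lk G {v})) 1 = ∑ R ∈ (Finset.univ : Finset ↥(lk G {v})).powersetCard 1,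
      (if (G.induce (lk G {v})).IsClique (R : Set ↥(lk G {v})) then
        chiL G (R.map (Function.Embedding.subtype _) ∪ {v}) else 0) := by
    rw [← cT_univ]
    unfold cT
    rw [← Finset.sum_filter]
    refine Finset.sum_congr ?_ fun R _ => chiL_up hT R
    ext R
    rw [mem_cls, Finset.mem_filter, Finset.mem_powersetCard]
  rw [h2]
  refine Eq.trans ?_ (Eq.trans h1.symm ?_)
  · rw [← Finset.sum_filter]
    refine Finset.sum_congr ?_ fun _ _ => rfl
    ext S
    rw [Finset.mem_filter, Finset.mem_filter, mem_cls, Finset.singleton_subset_iff, Finset.card_singleton]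
    constructor
    · rintro ⟨⟨⟨_, h1⟩, h2⟩, h3⟩
      exact ⟨Finset.mem_univ _, h3, h2, h1⟩
    · rintro ⟨_, h3, h2, h1⟩
      exact ⟨⟨⟨Finset.subset_univ _, h1⟩, h2⟩, h3⟩
  · refine Finset.sum_congr rfl fun R _ => ?_
    split_ifs <;> rfl

/-- the reflection correction -/
theorem pair_gamma (hG : Sph ℝ 6 G) {v w : V} (hwv : w ≠ v) (hvw : ¬ G.Adj v w) :
    (Pool.Agent.N613.RP.gv 5 (fp G (lnk G {v})) 2 : ℚ) + Pool.Agent.N613.RP.gv 5 (fp G (lnk G {w})) 2 ≤
      2 * (gam 6 G 2 + gam 6 G 3) := by
  classical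
  have hval : ∀ (a : ℕ → ℚ) (m d : ℕ) (V : Type) [Fintype V] [LinearOrder V] (G : SimpleGraph V),
      Pool.Agent.N613.RP.val a m d (fp G Set.univ) = ∑ i ∈ Finset.range m, a i * (gam d G i : ℚ) := by
    intro a m d V _ _ G
    rfl
  have h1 := Pool.Agent.N613.RP.main (F := ℝ) (d := 6) (P := fun _ _ => True)
    (a := fun i => if i = 2 ∨ i = 3 then 1 else 0) (m := 4) (fun _ _ _ _ _ _ _ => trivial) (fun W _ _ H hH _ => by
      rw [hval, Finset.sum_range_succ, Finset.sum_range_succ, Finset.sum_range_succ, Finset.sum_range_one]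
      norm_num
      exact_mod_cast gamma_six hH) hG trivial {v, w} (by
      intro a ha b hb c hc hba hca _ _
      simp only [Finset.mem_insert, Finset.mem_singleton] at ha hb hc
      rcases ha with rfl | rfl <;> rcases hb with rfl | rfl <;> rcases hc with rfl | rfl <;>
        first | rfl | exact absurd rfl hba | exact absurd rfl hca)
  have h2 : ∀ R : Finset V, Pool.Agent.N613.RP.val (fun i => if i = 2 ∨ i = 3 then 1 else 0) 4 (6 - R.card)
      (fp G (lnk G R)) = (Pool.Agent.N613.RP.gv (6 - R.card) (fp G (lnk G R)) 2 : ℚ) +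
        Pool.Agent.N613.RP.gv (6 - R.card) (fp G (lnk G R)) 3 := by
    intro R
    show ∑ i ∈ Finset.range 4, (if i = 2 ∨ i = 3 then (1 : ℚ) else 0) *
      (Pool.Agent.N613.RP.gv (6 - R.card) (fp G (lnk G R)) i : ℚ) = _
    rw [Finset.sum_range_succ, Finset.sum_range_succ, Finset.sum_range_succ, Finset.sum_range_one]
    norm_num
  simp only [h2] at h1
  have h4 : ∀ g : Finset V → ℚ, Pool.Agent.N613.RP.EE G {v, w} g = g ∅ - 1 / 2 * g {v} - 1 / 2 * g {w} := by
    intro g
    have h5 := Pool.Agent.N613.RP.EE_pair (K := G) (I := ∅) (v := v) (w := w) (by simp) (by simp)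
      hwv.symm hvw (by simp) (by simp) g
    have h6 : ∀ g' : Finset V → ℚ, Pool.Agent.N613.RP.EE G ∅ g' = g' ∅ := by
      intro g'
      unfold Pool.Agent.N613.RP.EE
      simp
    rw [h6, h6, h6] at h5
    exact h5
  have h7 : ∀ g : Finset V → ℚ, 0 ≤ Pool.Agent.N613.RP.EE G {v, w} g → 0 ≤ g ∅ - 1 / 2 * g {v} - 1 / 2 * g {w} := by
    intro g hg
    rwa [h4] at hg
  have h8 := h7 _ h1
  have h5 : ∀ u : V, Pool.Agent.N613.RP.gv 5 (fp G (lnk G {u})) 3 = 0 := by
    intro u
    have hu : G.IsClique (({u} : Finset V) : Set V) := by simp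
    exact (Pool.Agent.N613.RP.link_gam hG hu).2 3 (by rw [Finset.card_singleton]; norm_num)
  simp only [Finset.card_empty, Nat.sub_zero, Finset.card_singleton, Nat.reduceSub, h5, Int.cast_zero, add_zero,
    Pool.Agent.N613.RP.lnk_empty] at h8
  have h9 : (Pool.Agent.N613.RP.gv 6 (fp G Set.univ)) = gam 6 G := rfl
  rw [h9] at h8
  linarith

theorem chiW_sumL (G : SimpleGraph V) : chiW G = sumL G 0 := by
  classical
  rw [← cT_univ]
  unfold cT
  have h6 : cls G Finset.univ 0 = {∅} := by
    ext T
    rw [mem_cls, Finset.mem_singleton, Finset.card_eq_zero]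
    constructor
    · exact fun h => h.1.2
    · rintro rfl
      exact ⟨⟨Finset.empty_subset _, rfl⟩, by simp⟩
  rw [h6, Finset.sum_singleton]
  unfold chiW chiL
  refine Finset.sum_congr rfl fun T _ => ?_
  simp

theorem chi_six' (hG : HSph 6 G) : 4 * chiW G ≤ ∑ e ∈ cls G Finset.univ 2, chiL G e := by
  have h1 := sumL_le le_rfl hG
  norm_num [Nat.choose] at h1
  rw [chiW_sumL]
  exact h1.trans (le_of_eq (cT_univ 2).symm)

/-- the inequality without the edges at two vertices -/
theorem pair_six (hG : HSph 6 G) {v w : V} (hwv : w ≠ v) (hvw : ¬ G.Adj v w) :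
    4 * chiW G + (∑ e ∈ (cls G Finset.univ 2).filter (fun e => v ∈ e), chiL G e +
      ∑ e ∈ (cls G Finset.univ 2).filter (fun e => w ∈ e), chiL G e) ≤ ∑ e ∈ cls G Finset.univ 2, chiL G e := by
  classical
  have hS := hsph_iff.2 hG
  have h1 := pair_gamma hS hwv hvw
  have h2 : sumL G (6 - 2 * 3) = _ := sumL_phi (gam_spec hS).1 (l := 3) (by norm_num)
  have h3 : sumL G (6 - 2 * 2) = _ := sumL_phi (gam_spec hS).1 (l := 2) (by norm_num)
  have h4 : ∀ u : V, ∑ e ∈ (cls G Finset.univ 2).filter (fun e => u ∈ e), chiL G e =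
      (Pool.Agent.N613.RP.gv 5 (fp G (lnk G {u})) 2 : ℚ) / 8 := by
    intro u
    have hu : G.IsClique ((({u} : Finset V)) : Set V) := by simp
    have h5 : HSph 5 (G.induce (lk G {u})) := by
      have := hsph_link hG {u} hu
      rwa [Finset.card_singleton] at this
    have h6 := Pool.Agent.N613.RP.link_gam hS hu
    rw [Finset.card_singleton, show 6 - 1 = 5 from rfl] at h6
    have h7 : fp (G.induce (lk G {u})) Set.univ = fp G (lnk G {u}) :=
      Pool.Agent.R580.CD.fp_univ_induce G (lk G {u})
    have h8 : sumL (G.induce (lk G {u})) (5 - 2 * 2) = _ := sumL_phi (h7.trans h6.1) (l := 2) (by norm_num)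
    rw [sum_at u]
    refine h8.trans ?_
    have e : 5 / 2 + 1 = 3 := rfl
    rw [e, Finset.sum_range_succ, Finset.sum_range_succ, Finset.sum_range_one]
    norm_num [Nat.choose]
    ring
  have h5 : chiW G = sumL G 0 := by
    rw [← cT_univ]
    unfold cT
    have h6 : cls G Finset.univ 0 = {∅} := by
      ext T
      rw [mem_cls, Finset.mem_singleton, Finset.card_eq_zero]
      constructor
      · exact fun h => h.1.2
      · rintro rfl
        exact ⟨⟨Finset.empty_subset _, rfl⟩, by simp⟩
    rw [h6, Finset.sum_singleton]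
    unfold chiW chiL
    refine Finset.sum_congr rfl fun T _ => ?_
    simp
  have h6 : sumL G 2 = ∑ e ∈ cls G Finset.univ 2, chiL G e := (cT_univ 2).symm
  have e : 6 / 2 + 1 = 4 := rfl
  rw [e, Finset.sum_range_succ, Finset.sum_range_succ, Finset.sum_range_succ, Finset.sum_range_one] at h2 h3
  norm_num [Nat.choose] at h2 h3
  have e4 := h4 v
  have e5 := h4 w
  rw [← h6, h5, h2, h3]
  have e6 : ∑ e ∈ (cls G Finset.univ 2).filter (fun e => v ∈ e), chiL G e =
      (Pool.Agent.N613.RP.gv 5 (fp G (lnk G {v})) 2 : ℚ) / 8 := by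
    rw [← e4]
  have e7 : ∑ e ∈ (cls G Finset.univ 2).filter (fun e => w ∈ e), chiL G e =
      (Pool.Agent.N613.RP.gv 5 (fp G (lnk G {w})) 2 : ℚ) / 8 := by
    rw [← e5]
  rw [e6, e7]
  linarith

/-- the weights -/
theorem omega_le (hG : HSph 6 G) {w : Finset V → ℕ} {M : Finset V → ℚ} (hM : Orders G w M) :
    omegaN G M ≤ chiW G + ∑ e ∈ cls G Finset.univ 2, (1 / M e - 1 / 4) * chiL G e := by
  classical
  have hF : ∀ T ∈ cl G Finset.univ, ∀ U ⊆ T, U ∈ cl G Finset.univ :=
    fun T hT U hU => Pool.Agent.W497.FS.cl_of_subset hT hU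
  have hpair : ∀ e ∈ cl G Finset.univ, e.card = 2 → 2 ≤ w e ∧ M e = 2 * w e := by
    intro e he he2
    obtain ⟨u, v, huv, rfl⟩ := Finset.card_eq_two.1 he2
    exact hM.edge u v ((mem_cl_univ _).1 he (by simp) (by simp) huv)
  have hgo := Y365.FS.goodOrders_of hF w (fun e he he2 => (hpair e he he2).1) M hM.empty (fun v _ => hM.vertex v)
    (fun e he he2 => (hpair e he he2).2)
    (fun A B hAB hAB2 h => hM.mul A B hAB ((mem_cl_univ _).1 hAB2) h)
    (fun T hT h3 hc => hM.sign T ((mem_cl_univ _).1 hT) h3 hc)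
  have hlam : ∀ T : Finset V, G.IsClique (T : Set V) → lam G (lkF G Finset.univ T) = chiL G T := by
    intro T hT
    have hfin : Fintype ↥(lk G T) := Fintype.ofFinite _
    rw [← chiW_link T, t_BR V G T hT]
  have hcd : ∀ T : Finset V, G.IsClique (T : Set V) → ∀ j l, T.card = 2 * j → j + l = 3 → l < 2 →
      0 ≤ (-1) ^ l * chiL G T := by
    intro T hT j l hj hl hl2
    have hfin : Fintype ↥(lk G T) := Fintype.ofFinite _
    have h1 := hsph_link hG T hT
    have h3 : 6 - T.card = 2 * l := by omega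
    rw [h3] at h1
    rw [t_BR V G T hT, chiW_eq]
    exact cd_of_cls (Pool.Agent.TH709.GG.Cls.small (by omega) (flagEul_of_hsph h1))
  rw [omegaN_eq, weighted_eq]
  have key : ∀ T ∈ cl G Finset.univ, (-1) ^ T.card * bN M T * lam G (lkF G Finset.univ T) ≤
      (if T = ∅ then chiW G else 0) + (if T.card = 2 then (1 / M T - 1 / 4) * chiL G T else 0) := by
    intro T hT
    have hT' := (mem_cl_univ T).1 hT
    have hc := card_le_of_hsph hG T hT'
    rw [hlam T hT']
    rcases Nat.even_or_odd T.card with ⟨j, hj⟩ | ho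
    · have h1 : (-1 : ℚ) ^ T.card = 1 := by rw [hj]; exact Even.neg_one_pow ⟨j, rfl⟩
      have h2 := (hgo T hT).2 j (by omega)
      rw [h1, one_mul]
      have hj' : j = 0 ∨ j = 1 ∨ j = 2 ∨ j = 3 := by omega
      rcases hj' with rfl | rfl | rfl | rfl
      · have h3 : T = ∅ := by rw [← Finset.card_eq_zero]; omega
        subst h3
        rw [if_pos rfl, if_neg (by simp)]
        have h4 : bN M (∅ : Finset V) = 1 := by simp [bN, hM.empty]
        rw [h4, one_mul, add_zero]
        refine le_of_eq ?_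
        unfold chiW chiL
        refine Finset.sum_congr rfl fun T _ => ?_
        simp
      · obtain ⟨u, v, huv, rfl⟩ := Finset.card_eq_two.1 (show T.card = 2 by omega)
        rw [if_neg (by simp), if_pos (by omega), zero_add]
        refine le_of_eq ?_
        congr 1
        have hu' : u ∉ ({v} : Finset V) := by simpa using huv
        have e1 : ({v} : Finset V) = insert v ∅ := rfl
        rw [bN, Finset.sum_powerset_insert hu', e1,
          Finset.sum_powerset_insert (Finset.notMem_empty v),
          Finset.sum_powerset_insert (Finset.notMem_empty v)]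
        have e2 : insert v (∅ : Finset V) = {v} := rfl
        have e3 : insert u (∅ : Finset V) = {u} := rfl
        simp only [Finset.powerset_empty, Finset.sum_singleton, e2, e3,
          Finset.card_singleton, Finset.card_empty, hM.empty, hM.vertex]
        rw [show ({u, v} : Finset V).card = 2 by omega]
        norm_num
        ring
      · rw [if_neg (by rintro rfl; simp at hj), if_neg (by omega), zero_add]
        have h3 := hcd T hT' 2 1 (by omega) (by norm_num) (by norm_num)
        norm_num at h2 h3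
        nlinarith
      · rw [if_neg (by rintro rfl; simp at hj), if_neg (by omega), zero_add]
        have h3 := hcd T hT' 3 0 (by omega) (by norm_num) (by norm_num)
        norm_num at h2 h3
        nlinarith
    · rw [(hgo T hT).1 ho, mul_zero, zero_mul, if_neg (by rintro rfl; simp at ho),
        if_neg (by intro h; rw [h] at ho; exact absurd ho (by decide)), add_zero]
  refine (Finset.sum_le_sum key).trans (le_of_eq ?_)
  rw [Finset.sum_add_distrib]
  congr 1
  · rw [Finset.sum_ite_eq', if_pos ((mem_cl_univ _).2 (by simp))]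
  · rw [← Finset.sum_filter]
    refine Finset.sum_congr ?_ fun _ _ => rfl
    ext T
    rw [Finset.mem_filter, mem_cls, mem_cl_univ]
    constructor
    · exact fun h => ⟨⟨Finset.subset_univ _, h.2⟩, h.1⟩
    · exact fun h => ⟨h.2, h.1.2⟩

end

end Pool.Agent.Run7.h714.DU
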