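import Pool.Agent.Run7.h714.DU.PL
import Pool.Agent.N13.EU.Last

set_option autoImplicit false
set_option linter.unusedSectionVars false

/-!
# Betti numbers of the full subcomplexes of flag homology 4-spheres
-/

namespace Pool.Agent.Run7.h714.DU

open Pool.Agent.W907.SG Pool.Agent.W907.SM Module
open Pool.Agent.TH652.Dual (Sph)
open Pool.Agent.TH652.Above (HSph)
open Pool.Agent.N13.EU (chiL)

section

variable {V X : Type} [Fintype V] [LinearOrder V] [Fintype X]

/-- a finite set with an action of the right-angled Coxeter group and with signs -/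
structure Act (G : SimpleGraph V) (a : V → X → X) (sgn : V → X → Bool) : Prop where
  inv : ∀ v x, a v (a v x) = x
  comm : ∀ u v, G.Adj u v → ∀ x, a u (a v x) = a v (a u x)
  self : ∀ v x, sgn v (a v x) = !(sgn v x)
  other : ∀ u v, u ≠ v → ∀ x, sgn u (a v x) = sgn u x

variable {G : SimpleGraph V} {a : V → X → X} {sgn : V → X → Bool}

theorem Act.pinv (h : Act G a sgn) (v : V) (m : X → ℝ) : pull ℝ a v (pull ℝ a v m) = m := by
  funext x
  rw [pull_apply, pull_apply, h.inv]

theorem Act.pcomm (h : Act G a sgn) {u v : V} (huv : G.Adj u v) (m : X → ℝ) :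
    pull ℝ a u (pull ℝ a v m) = pull ℝ a v (pull ℝ a u m) := by
  funext x
  rw [pull_apply, pull_apply, pull_apply, pull_apply, h.comm u v huv]

/-- restriction to a full subcomplex -/
theorem Act.restrict (h : Act G a sgn) (A : Set V) :
    Act (G.induce A) (fun v : ↥A => a v.1) (fun v : ↥A => sgn v.1) where
  inv v x := h.inv v.1 x
  comm u v huv x := h.comm u.1 v.1 huv x
  self v x := h.self v.1 x
  other u v huv x := h.other u.1 v.1 (fun e => huv (Subtype.ext e)) x

/-- Betti numbers of subsets -/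
theorem beta_sub (A : Set V) [Fintype ↥A] (B : Set ↥A) (i : ℕ) :
    beta (G.induce A) (pull ℝ (fun v : ↥A => a v.1)) B ∅ i = beta G (pull ℝ a) (Subtype.val '' B) ∅ i := by
  classical
  have h1 := tr ↥B ↥A ℝ (X → ℝ) (G.induce A) ((G.induce A).induce B) (pull ℝ (fun v : ↥A => a v.1))
    (fun u => (u : ↥A)) (Subtype.strictMono_coe _) (fun u u' => Iff.rfl) i
  have h2 := tr ↥B V ℝ (X → ℝ) G ((G.induce A).induce B) (pull ℝ a)
    (fun u => ((u : ↥A) : V)) (fun x y h => h) (fun u u' => Iff.rfl) i
  rw [Subtype.range_coe] at h1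
  have e : Set.range (fun u : ↥B => ((u : ↥A) : V)) = Subtype.val '' B := by
    ext x
    simp
  rw [e] at h2
  rw [h1, h2]
  rfl

/-- the Euler characteristic of a full subcomplex -/
theorem euler_set (h : Act G a sgn) (A : Set V) [Fintype ↥A] :
    ∑ i ∈ Finset.range (Fintype.card V + 1), (-1 : ℚ) ^ i * (beta G (pull ℝ a) A ∅ i : ℚ) =
      Fintype.card X * chiW (G.induce A) := by
  classical
  have h0 := h.restrict A
  have h1 := Pool.Agent.W723.SM.beta_sum (two_ne_zero : (2 : ℝ) ≠ 0) (G.induce A) (fun v : ↥A => a v.1)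
    (fun v : ↥A => sgn v.1) h0.inv h0.comm h0.self h0.other
  rw [← h1]
  push_cast
  have h2 : ∀ i, beta (G.induce A) (pull ℝ (fun v : ↥A => a v.1)) Set.univ ∅ i = beta G (pull ℝ a) A ∅ i := by
    intro i
    rw [beta_sub, Subtype.coe_image_univ]
  simp only [h2]
  symm
  refine Finset.sum_subset ?_ fun i _ hi => ?_
  · intro i hi
    rw [Finset.mem_range] at hi ⊢
    have := Fintype.card_subtype_le (fun x => x ∈ A)
    have e : Fintype.card ↥A = Fintype.card {x // x ∈ A} := rfl
    omega
  · rw [Finset.mem_range, not_lt] at hi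
    rw [← h2, Pool.Agent.W397.SG.beta_big _ _ _ _ (by omega)]
    simp

/-- the Euler characteristic of the complement of a vertex -/
theorem chi_compl (G : SimpleGraph V) (w : V) [Fintype ↥({w}ᶜ : Set V)] :
    chiW (G.induce ({w}ᶜ : Set V)) = chiW G + 1 / 2 * chiL G {w} := by
  classical
  rw [Pool.Agent.R703.CW.chi_filter, Pool.Agent.R703.CW.chi_filter, Pool.Agent.N13.EU.chiL_filter]
  have h1 : ∑ S ∈ Finset.univ.filter (fun S : Finset ↥({w}ᶜ : Set V) =>
      (G.induce ({w}ᶜ : Set V)).IsClique (S : Set _)), (-1 / 2 : ℚ) ^ S.card =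
      ∑ T ∈ (Finset.univ.filter (fun T : Finset V => G.IsClique (T : Set V))).filter (fun T => ¬ w ∈ T),
        (-1 / 2 : ℚ) ^ T.card := by
    refine Finset.sum_bij (fun S _ => S.map (Function.Embedding.subtype _)) ?_ ?_ ?_ ?_
    · intro S hS
      have hS' := (Finset.mem_filter.1 hS).2
      refine Finset.mem_filter.2 ⟨Finset.mem_filter.2 ⟨Finset.mem_univ _, ?_⟩, ?_⟩
      · intro x hx y hy hxy
        obtain ⟨b, hb, rfl⟩ := Finset.mem_map.1 hx
        obtain ⟨c, hc, rfl⟩ := Finset.mem_map.1 hy
        exact hS' hb hc fun h => hxy (congrArg Subtype.val h)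
      · intro hw
        obtain ⟨b, hb, hbw⟩ := Finset.mem_map.1 hw
        exact b.2 hbw
    · intro S _ S' _ h
      exact Finset.map_injective _ h
    · intro T hT
      obtain ⟨hT1, hT2⟩ := Finset.mem_filter.1 hT
      have hT1 := (Finset.mem_filter.1 hT1).2
      have h3 : ∀ x ∈ T, x ∈ ({w}ᶜ : Set V) := fun x hx hxw => hT2 (by
        rw [Set.mem_singleton_iff] at hxw
        exact hxw ▸ hx)
      refine ⟨T.subtype (fun x => x ∈ ({w}ᶜ : Set V)), Finset.mem_filter.2 ⟨Finset.mem_univ _, ?_⟩, ?_⟩
      · intro b hb c hc hbc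
        rw [Finset.mem_coe, Finset.mem_subtype] at hb hc
        exact hT1 hb hc fun h => hbc (Subtype.ext h)
      · rw [Finset.subtype_map]
        exact Finset.filter_true_of_mem h3
    · intro S _
      rw [Finset.card_map]
  have h2 : ∑ T ∈ (Finset.univ.filter (fun T : Finset V => G.IsClique (T : Set V))).filter (fun T => w ∈ T),
      (-1 / 2 : ℚ) ^ T.card = ∑ S ∈ Finset.univ.filter
        (fun S : Finset V => Disjoint S {w} ∧ G.IsClique ((S ∪ {w} : Finset V) : Set V)),
        (-1 / 2) * (-1 / 2 : ℚ) ^ S.card := by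
    refine Finset.sum_bij' (fun T _ => T.erase w) (fun S _ => insert w S) ?_ ?_ ?_ ?_ ?_
    · intro T hT
      obtain ⟨hT1, hT2⟩ := Finset.mem_filter.1 hT
      have hT1 := (Finset.mem_filter.1 hT1).2
      refine Finset.mem_filter.2 ⟨Finset.mem_univ _, by simp, ?_⟩
      have e : T.erase w ∪ {w} = T := by
        rw [Finset.union_comm, ← Finset.insert_eq, Finset.insert_erase hT2]
      rw [e]
      exact hT1
    · intro S hS
      obtain ⟨-, hS1, hS2⟩ := Finset.mem_filter.1 hS
      refine Finset.mem_filter.2 ⟨Finset.mem_filter.2 ⟨Finset.mem_univ _, ?_⟩, Finset.mem_insert_self _ _⟩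
      rw [Finset.insert_eq, Finset.union_comm]
      exact hS2
    · intro T hT
      exact Finset.insert_erase (Finset.mem_filter.1 hT).2
    · intro S hS
      obtain ⟨-, hS1, hS2⟩ := Finset.mem_filter.1 hS
      exact Finset.erase_insert (by simpa using hS1)
    · intro T hT
      have hT2 := (Finset.mem_filter.1 hT).2
      rw [← Finset.card_erase_add_one hT2, pow_succ, mul_comm]
  have h3 := Finset.sum_filter_add_sum_filter_not (Finset.univ.filter (fun T : Finset V => G.IsClique (T : Set V)))
    (fun T => w ∈ T) (fun T => (-1 / 2 : ℚ) ^ T.card)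
  rw [h1, ← h3, h2, ← Finset.mul_sum]
  ring

/-- the restriction to the `-1` eigenspace does not increase the Betti numbers -/
theorem eig' (h : Act G a sgn) {u : V} {B : Set V} (hB : B ⊆ G.neighborSet u) (i : ℕ) :
    beta G (pull ℝ a) B (insert u ∅) i ≤ beta G (pull ℝ a) B ∅ i :=
  eig V ℝ (X → ℝ) G (pull ℝ a) B ∅ u (by norm_num) (h.pinv u) (fun v hv m => by
    rcases hv with hv | hv
    · exact h.pcomm ((G.mem_neighborSet u v).1 (hB hv)).symm m
    · exact absurd hv (Set.notMem_empty _)) i

/-- high degrees -/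
theorem high_small (h : Act G a sgn) {η r : ℕ}
    (s1 : ∀ (w : V) (B : Set V), B ⊆ G.neighborSet w → ∀ i, r ≤ i → beta G (pull ℝ a) B ∅ i ≤ η)
    (A : Finset V) (i : ℕ) (hi : r + 1 ≤ i) : beta G (pull ℝ a) A ∅ i ≤ A.card * η := by
  classical
  obtain ⟨j, rfl⟩ : ∃ j, i = j + 1 := ⟨i - 1, by omega⟩
  induction A using Finset.induction_on with
  | empty =>
    rw [Finset.coe_empty, Finset.card_empty, Nat.zero_mul]
    have h1 : KK G (pull ℝ a) ∅ ∅ (j + 1) = ⊥ := by
      rw [eq_bot_iff]
      intro c hc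
      rw [Submodule.mem_bot]
      rw [mem_KK] at hc
      funext T
      refine hc.1 T ?_
      rintro ⟨_, h2, h3⟩
      have h4 : T = ∅ := by
        rw [← Finset.coe_eq_empty]
        exact Set.subset_empty_iff.1 h2
      rw [h4, Finset.card_empty] at h3
      omega
    unfold beta ZZ
    rw [h1, bot_inf_eq, finrank_bot]
    omega
  | insert w A hw ih =>
    rw [Finset.coe_insert, Finset.card_insert_of_notMem hw, Nat.add_mul, Nat.one_mul]
    have h1 := (vert V ℝ (X → ℝ) G (pull ℝ a) (A : Set V) ∅ w (by simpa using hw) (Set.notMem_empty _)).2 j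
    have h2 := eig' h (Set.inter_subset_right : (A : Set V) ∩ G.neighborSet w ⊆ _) j
    have h3 := s1 w ((A : Set V) ∩ G.neighborSet w) Set.inter_subset_right j (by omega)
    omega

/-- the kernel of the restriction from a subcomplex of a link -/
theorem kap_small (h : Act G a sgn) {η : ℕ} (w : V) {i : ℕ}
    (s2 : ∀ u, G.Adj w u → ∀ B : Set V, B ⊆ G.neighborSet w ∩ G.neighborSet u → beta G (pull ℝ a) B ∅ i ≤ η)
    (A : Set V) : kap G (pull ℝ a) (A ∩ G.neighborSet w) (G.neighborSet w) ∅ i ≤ Fintype.card V * η := by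
  classical
  have e : G.neighborSet w = (A ∩ G.neighborSet w) ∪ ((Finset.univ.filter (fun u => G.Adj w u) : Finset V) : Set V) := by
    ext u
    simp
  have h1 := kap_fin (G := G) (ρ := pull ℝ a) (B := A ∩ G.neighborSet w) (S := ∅) (i := i) (η := η)
    (Finset.univ.filter (fun u => G.Adj w u)) (fun B' u hB hB' hu hn => by
      have hu' : G.Adj w u := (Finset.mem_filter.1 hu).2
      refine (kap_del hn i).trans ((eig' h Set.inter_subset_right i).trans ?_)
      refine s2 u hu' _ ?_
      rw [← e] at hB'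
      exact Set.inter_subset_inter_left _ hB')
  rw [← e] at h1
  exact h1.trans (Nat.mul_le_mul_right _ (Finset.card_le_univ _))

/-- **Betti numbers of the full subcomplexes of flag homology 4-spheres.** -/
theorem five (hS : HSph 5 G) (h : Act G a sgn) {η : ℕ}
    (s1 : ∀ (w : V) (B : Set V), B ⊆ G.neighborSet w → ∀ i, 3 ≤ i → beta G (pull ℝ a) B ∅ i ≤ η)
    (s2 : ∀ w u, G.Adj w u → ∀ B : Set V, B ⊆ G.neighborSet w ∩ G.neighborSet u → ∀ i, 2 ≤ i →
      beta G (pull ℝ a) B ∅ i ≤ η) (A : Finset V) :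
    4 * (beta G (pull ℝ a) A ∅ 3 : ℚ) ≤ (∑ w ∈ A, chiL G {w}) * Fintype.card X +
      A.card * (2 * (Fintype.card V + 2) ^ 2 * η) := by
  classical
  set c := Fintype.card V with hc
  have hhigh : ∀ (A : Set V) (i : ℕ), 4 ≤ i → (beta G (pull ℝ a) A ∅ i : ℚ) ≤ c * η := by
    intro A i hi
    have h1 := high_small h s1 A.toFinset i hi
    rw [Set.coe_toFinset] at h1
    have h2 := h1.trans (Nat.mul_le_mul_right η (Finset.card_le_univ A.toFinset))
    exact_mod_cast h2
  -- the kernel for the link of a vertex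
  have hker : ∀ w : V, (kap G (pull ℝ a) (G.neighborSet w) {w}ᶜ ∅ 2 : ℚ) ≤
      1 / 2 * chiL G {w} * Fintype.card X + ((c + 1) * (c + 1) + 1) * η := by
    intro w
    have h1 := pl_kap hS h.inv h.comm h.self h.other w (i := 2) (j := 2) (by norm_num)
    have h2 := s1 w (G.neighborSet w) le_rfl 3 le_rfl
    have h3 := pl_low hS h.inv h.comm h.self h.other w (i := 1) (j := 3) (by norm_num)
    simp only [Nat.reduceAdd] at h1 h3
    have h4 := euler_set h ({w}ᶜ : Set V)
    rw [chi_compl, Pool.Agent.N13.EU.chi_odd hS (by norm_num), zero_add] at h4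
    obtain ⟨b, hb⟩ : ∃ b : ℕ → ℚ, ∀ i, b i = (beta G (pull ℝ a) {w}ᶜ ∅ i : ℚ) := ⟨_, fun _ => rfl⟩
    have hb0 : ∀ i, 0 ≤ b i := fun i => by rw [hb]; exact Nat.cast_nonneg _
    have h1' : (kap G (pull ℝ a) (G.neighborSet w) {w}ᶜ ∅ 2 : ℚ) + b 3 ≤ b 2 + η := by
      rw [hb, hb]
      have : kap G (pull ℝ a) (G.neighborSet w) {w}ᶜ ∅ 2 + beta G (pull ℝ a) {w}ᶜ ∅ 3 ≤
        beta G (pull ℝ a) {w}ᶜ ∅ 2 + η := by omega
      exact_mod_cast this
    have h3' : b 1 ≤ (c + 1) * η := by
      have h5 := hhigh {w}ᶜ 4 le_rfl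
      have h6 : (beta G (pull ℝ a) {w}ᶜ ∅ 1 : ℚ) ≤ beta G (pull ℝ a) {w}ᶜ ∅ 4 + η := by
        have : beta G (pull ℝ a) {w}ᶜ ∅ 1 ≤ beta G (pull ℝ a) {w}ᶜ ∅ 4 + η := by omega
        exact_mod_cast this
      rw [hb]
      linarith
    have hbig : ∀ i, 4 ≤ i → b i ≤ (c + 1) * η := by
      intro i hi
      have h5 := hhigh {w}ᶜ i hi
      rw [hb]
      have : (0 : ℚ) ≤ η := Nat.cast_nonneg _
      linarith
    have h5 : b 2 - b 3 ≤ Fintype.card X * (1 / 2 * chiL G {w}) + (c + 1) * ((c + 1) * η) := by
      rw [← h4]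
      have h6 : ∑ i ∈ Finset.range (c + 1), (-1 : ℚ) ^ i * b i =
          ∑ i ∈ Finset.range (c + 1), (if i = 2 then b 2 else if i = 3 then - b 3 else (-1 : ℚ) ^ i * b i) := by
        refine Finset.sum_congr rfl fun i _ => ?_
        split_ifs with h7 h8
        · rw [h7]; norm_num
        · rw [h8]; norm_num
        · rfl
      have h7 : ∀ i ∈ Finset.range (c + 1), (if i = 2 then b 2 else 0) + (if i = 3 then - b 3 else 0) -
          (c + 1) * η ≤ (if i = 2 then b 2 else if i = 3 then - b 3 else (-1 : ℚ) ^ i * b i) := by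
        intro i _
        have hη : (0 : ℚ) ≤ (c + 1) * η := by positivity
        by_cases e2 : i = 2
        · subst e2
          norm_num
          linarith
        · by_cases e3 : i = 3
          · subst e3
            norm_num
            linarith
          · rw [if_neg e2, if_neg e3, if_neg e2, if_neg e3]
            rcases Nat.even_or_odd i with he | ho
            · rw [he.neg_one_pow]
              have := hb0 i
              linarith
            · rw [ho.neg_one_pow]
              have : b i ≤ (c + 1) * η := by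
                by_cases e1 : i = 1
                · rw [e1]; exact h3'
                · refine hbig i ?_
                  rcases ho with ⟨k, hk⟩
                  omega
              linarith
      have h8 := Finset.sum_le_sum h7
      rw [Finset.sum_sub_distrib, Finset.sum_add_distrib, Finset.sum_ite_eq', Finset.sum_ite_eq',
        Finset.sum_const, Finset.card_range, nsmul_eq_mul] at h8
      have h9 : ∀ i, c < i → b i = 0 := fun i hi => by
        rw [hb, Pool.Agent.W397.SG.beta_big _ _ _ _ hi, Nat.cast_zero]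
      have h10 : (if 2 ∈ Finset.range (c + 1) then b 2 else 0) = b 2 := by
        split_ifs with h11
        · rfl
        · rw [h9 2 (by rw [Finset.mem_range] at h11; omega)]
      have h11 : (if 3 ∈ Finset.range (c + 1) then - b 3 else 0) = - b 3 := by
        split_ifs with h11
        · rfl
        · rw [h9 3 (by rw [Finset.mem_range] at h11; omega), neg_zero]
      rw [h10, h11] at h8
      simp only [← hb]
      rw [h6]
      push_cast at h8
      linarith
    linarith
  -- adding the vertices
  induction A using Finset.induction_on with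
  | empty =>
    have h1 : KK G (pull ℝ a) ∅ ∅ 3 = ⊥ := by
      rw [eq_bot_iff]
      intro c hc
      rw [Submodule.mem_bot]
      rw [mem_KK] at hc
      funext T
      refine hc.1 T ?_
      rintro ⟨_, h2, h3⟩
      have h4 : T = ∅ := by
        rw [← Finset.coe_eq_empty]
        exact Set.subset_empty_iff.1 h2
      rw [h4, Finset.card_empty] at h3
      omega
    rw [Finset.coe_empty, Finset.sum_empty, Finset.card_empty]
    unfold beta ZZ
    rw [h1, bot_inf_eq, finrank_bot]
    simp
  | insert w A hw ih =>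
    rw [Finset.coe_insert, Finset.sum_insert hw, Finset.card_insert_of_notMem hw]
    have hwA : w ∉ (A : Set V) := by simpa using hw
    have h1 := beta_add (G := G) (by norm_num) (sgn_sw h.self h.other w) (h.pinv w) hwA
      (fun u huw m => h.pcomm huw m) 2
    have hAD : (A : Set V) ⊆ {w}ᶜ := by
      intro x hx
      rw [Set.mem_compl_iff, Set.mem_singleton_iff]
      rintro rfl
      exact hwA hx
    have h2 := kap_mono (G := G) (ρ := pull ℝ a) (B := (A : Set V) ∩ G.neighborSet w) (S := ∅) hAD 2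
    have h3 := kap_trans (G := G) (ρ := pull ℝ a) (S := ∅) (B := (A : Set V) ∩ G.neighborSet w)
      (C := G.neighborSet w) (D := {w}ᶜ) Set.inter_subset_right
      (by rw [← nb_inter G w]; exact Set.inter_subset_left) 2
    have h4 := kap_small h (η := η) w (i := 2) (fun u hu B hB => s2 w u hu B hB 2 le_rfl) A
    have h5 : 2 * (beta G (pull ℝ a) (insert w (A : Set V)) ∅ 3 : ℚ) ≤
        2 * (beta G (pull ℝ a) A ∅ 3 : ℚ) + (c * η + kap G (pull ℝ a) (G.neighborSet w) {w}ᶜ ∅ 2) := by
      have : 2 * beta G (pull ℝ a) (insert w (A : Set V)) ∅ 3 ≤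
        2 * beta G (pull ℝ a) A ∅ 3 + (c * η + kap G (pull ℝ a) (G.neighborSet w) {w}ᶜ ∅ 2) := by
        simp only [Nat.reduceAdd] at h1
        rw [← hc] at h4
        omega
      exact_mod_cast this
    have h6 := hker w
    have hη : (0 : ℚ) ≤ η := Nat.cast_nonneg _
    have hc0 : (0 : ℚ) ≤ c := Nat.cast_nonneg _
    push_cast
    nlinarith
end

end Pool.Agent.Run7.h714.DU
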