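import Pool.Agent.N13.PL.All
import Pool.Agent.Run7.h714.DU.Five

set_option autoImplicit false
set_option linter.unusedSectionVars false

/-!
# Finite sets with small Betti numbers for all full subcomplexes
-/

namespace Pool.Agent.Run7.h714.DU

open Pool.Agent.W907.SG Pool.Agent.W907.SM Module
open Pool.Agent.TH652.Above (HSph lv_sub lv_set)
open Pool.Agent.N13.EU (Abv Hered abv_of_hered)
open Pool.Agent.N13.PL (hered_four three lk_em)
open Pool.Agent.R703.CW (hsph_link)

section

variable {V : Type} [Fintype V] [LinearOrder V]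

/-- uniform smallness for all full subcomplexes -/
theorem big_small (G : SimpleGraph V) (N : ℕ) :
    ∃ E : Finset (W G), (1 : W G) ∉ E ∧ ∀ (X : Type) [Fintype X] (a : V → X → X) (ev : X → W G → X),
      (∀ v x, a v (a v x) = x) → (∀ u v, G.Adj u v → ∀ x, a u (a v x) = a v (a u x)) →
      (∀ x, ev x 1 = x) → (∀ x g h, ev x (g * h) = ev (ev x g) h) →
      (∀ x v, ev x ((cox G).simple v) = a v x) → (∀ g ∈ E, ∀ x, ev x g ≠ x) →
      ∀ (A : Set V) (i : ℕ), LV (G.induce A) i → N * beta G (pull ℝ a) A ∅ i ≤ Fintype.card X := by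
  classical
  have h1 : ∀ (A : Finset V) (i : ℕ), ∃ E : Finset (W G), (1 : W G) ∉ E ∧ (LV (G.induce (A : Set V)) i →
      ∀ (X : Type) [Fintype X] (a : V → X → X) (ev : X → W G → X),
      (∀ v x, a v (a v x) = x) → (∀ u v, G.Adj u v → ∀ x, a u (a v x) = a v (a u x)) →
      (∀ x, ev x 1 = x) → (∀ x g h, ev x (g * h) = ev (ev x g) h) →
      (∀ x v, ev x ((cox G).simple v) = a v x) → (∀ g ∈ E, ∀ x, ev x g ≠ x) →
      N * beta G (pull ℝ a) A ∅ i ≤ Fintype.card X) := by
    intro A i
    by_cases hL : LV (G.induce (A : Set V)) i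
    · obtain ⟨E, h2, h3⟩ := Pool.Agent.W338.SG.small_restrict small tr G (A : Set V) i (hL _ _) N
      exact ⟨E, h2, fun _ => h3⟩
    · exact ⟨∅, Finset.notMem_empty _, fun h => absurd h hL⟩
  choose E hE1 hE2 using h1
  refine ⟨Finset.univ.biUnion fun A => (Finset.range (Fintype.card V + 1)).biUnion fun i => E A i, ?_, ?_⟩
  · rw [Finset.mem_biUnion]
    rintro ⟨A, _, h⟩
    rw [Finset.mem_biUnion] at h
    obtain ⟨i, _, h⟩ := h
    exact hE1 A i h
  · intro X _ a ev k1 k2 k3 k4 k5 k6 A i hL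
    by_cases hi : Fintype.card V < i
    · rw [Pool.Agent.W397.SG.beta_big _ _ _ _ hi, Nat.mul_zero]
      exact Nat.zero_le _
    · have h3 := hE2 A.toFinset i (by rw [Set.coe_toFinset]; exact hL) X a ev k1 k2 k3 k4 k5 (fun g hg => k6 g
        (Finset.mem_biUnion.2 ⟨A.toFinset, Finset.mem_univ _, Finset.mem_biUnion.2 ⟨i,
          Finset.mem_range.2 (by omega), hg⟩⟩))
      rwa [Set.coe_toFinset] at h3

/-- the links of dimension at most three -/
theorem link_abv {G : SimpleGraph V} {n : ℕ} (hS : HSph n G) (T : Finset V) (hT : G.IsClique (T : Set V))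
    (hn : n ≤ T.card + 4) : Abv G (lk G T) (n - T.card) := by
  classical
  have h1 := hsph_link hS T hT
  have h4 := abv_of_hered h1 (hered_four three (by omega) h1) ∅ (by simp)
  intro A hA i hi
  have h5 := h4 (Subtype.val ⁻¹' A) (by intro v _ u hu; exact absurd hu (Finset.notMem_empty u)) i
    (by simpa using hi)
  rw [lv_sub] at h5
  refine lv_set ?_ h5
  ext v
  constructor
  · intro hv
    exact ⟨⟨v, hA hv⟩, hv, rfl⟩
  · rintro ⟨v', hv', rfl⟩
    exact hv'

end

end Pool.Agent.Run7.h714.DU
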