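import Pool.Agent.TH652.Dual7

set_option autoImplicit false

/-!
# The double complex of a flag complex and its retraction

The files `G1`, `G2`, `G3` generalise `TH652/Dual1`, `Dual2`, `Dual4`, `Dual5` from the permutation action of a
right-angled Coxeter group on the functions on a finite set to arbitrary commuting symmetric involutions.
-/

namespace Pool.Agent.Run7.h714.DU

open Pool.Agent.W907.SG Module

section Abs

variable {V X : Type} [Fintype V] [LinearOrder V]

/-- the projection onto the invariants of `a v` -/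
noncomputable def pp (a : V → (X → ℝ) →ₗ[ℝ] (X → ℝ)) (v : V) : (X → ℝ) →ₗ[ℝ] (X → ℝ) :=
  (1 / 2 : ℝ) • (LinearMap.id + a v)

/-- the projection onto the anti-invariants of `a v` -/
noncomputable def pm (a : V → (X → ℝ) →ₗ[ℝ] (X → ℝ)) (v : V) : (X → ℝ) →ₗ[ℝ] (X → ℝ) :=
  (1 / 2 : ℝ) • (LinearMap.id - a v)

omit [Fintype V] [LinearOrder V] in
theorem pp_apply (a : V → (X → ℝ) →ₗ[ℝ] (X → ℝ)) (v : V) (f : X → ℝ) : pp a v f = (1 / 2 : ℝ) • (f + a v f) := rfl

omit [Fintype V] [LinearOrder V] in
theorem pm_apply (a : V → (X → ℝ) →ₗ[ℝ] (X → ℝ)) (v : V) (f : X → ℝ) : pm a v f = (1 / 2 : ℝ) • (f - a v f) := rfl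

omit [Fintype V] [LinearOrder V] in
theorem pm_eq (a : V → (X → ℝ) →ₗ[ℝ] (X → ℝ)) (v : V) (f : X → ℝ) : pm a v f = f - pp a v f := by
  rw [pm_apply, pp_apply]
  module

/-- the horizontal differential -/
noncomputable def D1 (w : Finset V → Finset V → X → ℝ) : Finset V → Finset V → X → ℝ := fun S => bd ℝ (w S)

/-- the vertical differential -/
noncomputable def D2 (a : V → (X → ℝ) →ₗ[ℝ] (X → ℝ)) (w : Finset V → Finset V → X → ℝ) : Finset V → Finset V → X → ℝ :=
  fun S R => ∑ s ∈ S \ R, sg s R • pp a s (w (S.erase s) (insert s R))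

omit [Fintype V] in
theorem D2_apply (a : V → (X → ℝ) →ₗ[ℝ] (X → ℝ)) (w : Finset V → Finset V → X → ℝ) (S R : Finset V) :
    D2 a w S R = ∑ s ∈ S \ R, sg s R • pp a s (w (S.erase s) (insert s R)) := rfl

theorem D1_apply (w : Finset V → Finset V → X → ℝ) (S R : Finset V) :
    D1 w S R = ∑ v ∈ Rᶜ, sg v R • w S (insert v R) := rfl

theorem D1_D1 (w : Finset V → Finset V → X → ℝ) : D1 (D1 w) = 0 := by
  funext S
  exact bd_bd (w S)

theorem D1_D2 (a : V → (X → ℝ) →ₗ[ℝ] (X → ℝ)) (w : Finset V → Finset V → X → ℝ) : D1 (D2 a w) = - D2 a (D1 w) := by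
  funext S R
  rw [D1_apply, Pi.neg_apply, Pi.neg_apply, D2_apply]
  have h1 : ∀ v ∈ Rᶜ, sg v R • D2 a w S (insert v R) = ∑ s ∈ S \ insert v R,
      (sg v R * sg s (insert v R)) • pp a s (w (S.erase s) (insert s (insert v R))) := by
    intro v _
    rw [D2_apply, Finset.smul_sum]
    exact Finset.sum_congr rfl fun s _ => smul_smul _ _ _
  have h2 : ∀ s ∈ S \ R, sg s R • pp a s (D1 w (S.erase s) (insert s R)) = ∑ v ∈ (insert s R)ᶜ,
      (sg s R * sg v (insert s R)) • pp a s (w (S.erase s) (insert v (insert s R))) := by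
    intro s _
    rw [D1_apply, map_sum, Finset.smul_sum]
    refine Finset.sum_congr rfl fun v _ => ?_
    rw [map_zsmul, smul_smul]
  rw [Finset.sum_congr rfl h1, Finset.sum_congr rfl h2, ← Finset.sum_neg_distrib]
  rw [Finset.sum_comm' (t' := S \ R) (s' := fun s => (insert s R)ᶜ)]
  · refine Finset.sum_congr rfl fun s hs => ?_
    rw [← Finset.sum_neg_distrib]
    refine Finset.sum_congr rfl fun v hv => ?_
    rw [Finset.mem_sdiff] at hs
    rw [Finset.mem_compl, Finset.mem_insert, not_or] at hv
    rw [Finset.insert_comm s v R, ← neg_smul]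
    congr 1
    have h := sg_swap v s R hv.1 hv.2 hs.2
    linear_combination h
  · intro v s
    simp only [Finset.mem_compl, Finset.mem_sdiff, Finset.mem_insert, not_or]
    constructor
    · rintro ⟨h1, h2, h3, h4⟩
      exact ⟨⟨fun h => h3 h.symm, h1⟩, h2, h4⟩
    · rintro ⟨⟨h1, h2⟩, h3, h4⟩
      exact ⟨h2, h3, fun h => h1 h.symm, h4⟩

/-- the support condition -/
def Good (G : SimpleGraph V) (w : Finset V → Finset V → X → ℝ) : Prop :=
  ∀ S R, ¬ (Disjoint S R ∧ G.IsClique ((S ∪ R : Finset V) : Set V)) → w S R = 0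

omit [Fintype V] [LinearOrder V] in
theorem pp_comm {G : SimpleGraph V} {a : V → (X → ℝ) →ₗ[ℝ] (X → ℝ)} (hc : ∀ u v, G.Adj u v → ∀ x, a u (a v x) = a v (a u x))
    {u v : V} (h : G.Adj u v) (f : X → ℝ) : pp a u (pp a v f) = pp a v (pp a u f) := by
  simp only [pp_apply, map_smul, map_add]
  rw [hc u v h]
  module

omit [Fintype V] in
theorem D2_D2 {G : SimpleGraph V} {a : V → (X → ℝ) →ₗ[ℝ] (X → ℝ)} (hc : ∀ u v, G.Adj u v → ∀ x, a u (a v x) = a v (a u x))
    {w : Finset V → Finset V → X → ℝ} (hw : Good G w) : D2 a (D2 a w) = 0 := by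
  funext S R
  rw [D2_apply]
  have h1 : ∀ s ∈ S \ R, sg s R • pp a s (D2 a w (S.erase s) (insert s R)) =
      ∑ t ∈ (S.erase s) \ (insert s R), (sg s R * sg t (insert s R)) •
        pp a s (pp a t (w ((S.erase s).erase t) (insert t (insert s R)))) := by
    intro s _
    rw [D2_apply, map_sum, Finset.smul_sum]
    refine Finset.sum_congr rfl fun t _ => ?_
    rw [map_zsmul, smul_smul]
  rw [Finset.sum_congr rfl h1, Finset.sum_sigma']
  refine Finset.sum_involution (fun (x : Σ _ : V, V) _ => ⟨x.2, x.1⟩) ?_ ?_ ?_ ?_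
  · rintro ⟨s, t⟩ h
    simp only [Finset.mem_sigma, Finset.mem_sdiff, Finset.mem_erase, Finset.mem_insert, not_or] at h
    obtain ⟨⟨hs, hsR⟩, ⟨hts, htS⟩, _, htR⟩ := h
    simp only
    by_cases h0 : w ((S.erase s).erase t) (insert t (insert s R)) = 0
    · have h0' : w ((S.erase t).erase s) (insert s (insert t R)) = 0 := by
        rw [Finset.insert_comm s t R, Finset.erase_right_comm]
        exact h0
      rw [h0, h0']
      simp
    · have hcl : G.IsClique (((S.erase s).erase t ∪ insert t (insert s R) : Finset V) : Set V) := by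
        by_contra hn
        exact h0 (hw _ _ (fun hh => hn hh.2))
      have hadj : G.Adj s t := hcl (by simp) (by simp) (fun e => hts e.symm)
      rw [Finset.insert_comm s t R, Finset.erase_right_comm, pp_comm hc hadj, ← add_smul]
      have h := sg_swap t s R hts htR hsR
      have h0 : sg s R * sg t (insert s R) + sg t R * sg s (insert t R) = 0 := by
        linear_combination h
      rw [h0, zero_smul]
  · rintro ⟨s, t⟩ h _ h3
    simp only [Finset.mem_sigma, Finset.mem_sdiff, Finset.mem_erase, Finset.mem_insert, not_or] at h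
    simp only [Sigma.mk.injEq, heq_eq_eq] at h3
    exact h.2.1.1 h3.1
  · rintro ⟨s, t⟩ h
    simp only [Finset.mem_sigma, Finset.mem_sdiff, Finset.mem_erase, Finset.mem_insert, not_or] at h ⊢
    exact ⟨⟨h.2.1.2, h.2.2.2⟩, ⟨fun e => h.2.1.1 e.symm, h.1.1⟩, fun e => h.2.1.1 e.symm, h.1.2⟩
  · rintro ⟨s, t⟩ _
    rfl

/-! ### the projections onto the anti-invariants of cliques -/

omit [Fintype V] [LinearOrder V] in
theorem pm_comm {G : SimpleGraph V} {a : V → (X → ℝ) →ₗ[ℝ] (X → ℝ)} (hc : ∀ u v, G.Adj u v → ∀ x, a u (a v x) = a v (a u x))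
    {u v : V} (h : G.Adj u v) : Commute (pm a u : Module.End ℝ (X → ℝ)) (pm a v) := by
  refine LinearMap.ext fun f => ?_
  show pm a u (pm a v f) = pm a v (pm a u f)
  simp only [pm_apply, map_smul, map_sub]
  rw [hc u v h]
  module

omit [Fintype V] [LinearOrder V] in
theorem pm_pairwise {G : SimpleGraph V} {a : V → (X → ℝ) →ₗ[ℝ] (X → ℝ)} (hc : ∀ u v, G.Adj u v → ∀ x, a u (a v x) = a v (a u x))
    {R : Finset V} (h : G.IsClique (R : Set V)) :
    (R : Set V).Pairwise (Function.onFun Commute fun v => (pm a v : Module.End ℝ (X → ℝ))) :=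
  fun u hu v hv huv => pm_comm hc (h hu hv huv)

open Classical in
/-- the projection onto the anti-invariants of a clique -/
noncomputable def PR (G : SimpleGraph V) (a : V → (X → ℝ) →ₗ[ℝ] (X → ℝ))
    (hc : ∀ u v, G.Adj u v → ∀ x, a u (a v x) = a v (a u x)) (R : Finset V) : Module.End ℝ (X → ℝ) :=
  if h : G.IsClique (R : Set V) then
    R.noncommProd (fun v => (pm a v : Module.End ℝ (X → ℝ))) (pm_pairwise hc h) else 0

variable {G : SimpleGraph V} {a : V → (X → ℝ) →ₗ[ℝ] (X → ℝ)} (hc : ∀ u v, G.Adj u v → ∀ x, a u (a v x) = a v (a u x))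

omit [Fintype V] in
theorem PR_not {R : Finset V} (h : ¬ G.IsClique (R : Set V)) : PR G a hc R = 0 := dif_neg h

omit [Fintype V] in
theorem PR_insert {R : Finset V} {v : V} (hv : v ∉ R) (h : G.IsClique ((insert v R : Finset V) : Set V))
    (f : X → ℝ) : PR G a hc (insert v R) f = PR G a hc R (pm a v f) := by
  have hR : G.IsClique (R : Set V) := h.subset (by simp)
  unfold PR
  rw [dif_pos h, dif_pos hR, Finset.noncommProd_insert_of_notMem' _ _ _ _ hv]
  rfl

omit [Fintype V] in
theorem PR_insert' {R : Finset V} {v : V} (hv : v ∉ R) (h : G.IsClique ((insert v R : Finset V) : Set V))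
    (f : X → ℝ) : PR G a hc (insert v R) f = pm a v (PR G a hc R f) := by
  have hR : G.IsClique (R : Set V) := h.subset (by simp)
  unfold PR
  rw [dif_pos h, dif_pos hR, Finset.noncommProd_insert_of_notMem _ _ _ _ hv]
  rfl

omit [Fintype V] in
theorem PR_anti (hi : ∀ v x, a v (a v x) = x) {R : Finset V} {v : V} (hv : v ∈ R) (f : X → ℝ) :
    a v (PR G a hc R f) = - PR G a hc R f := by
  by_cases h : G.IsClique (R : Set V)
  · have e : R = insert v (R.erase v) := (Finset.insert_erase hv).symm
    rw [e] at h ⊢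
    rw [PR_insert' hc (Finset.notMem_erase v R) h, pm_apply, map_smul, map_sub, hi]
    module
  · rw [PR_not hc h]
    simp

omit [Fintype V] in
theorem PR_of_anti {R : Finset V} (h : G.IsClique (R : Set V)) (f : X → ℝ)
    (hf : ∀ v ∈ R, a v f = - f) : PR G a hc R f = f := by
  induction R using Finset.induction_on with
  | empty =>
    unfold PR
    rw [dif_pos h, Finset.noncommProd_empty]
    rfl
  | insert v R hv ih =>
    rw [PR_insert hc hv h]
    have e : pm a v f = f := by
      rw [pm_apply, hf v (Finset.mem_insert_self _ _)]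
      module
    rw [e]
    exact ih (h.subset (by simp)) fun u hu => hf u (Finset.mem_insert_of_mem hu)

/-! ### the retraction -/

/-- the retraction of the total complex -/
noncomputable def rr (w : Finset V → Finset V → X → ℝ) : Finset V → X → ℝ :=
  fun R => PR G a hc R (∑ S : Finset V, ((-1 : ℤ) ^ S.card) • w S R)

theorem rr_apply (w : Finset V → Finset V → X → ℝ) (R : Finset V) :
    rr hc w R = PR G a hc R (∑ S : Finset V, ((-1 : ℤ) ^ S.card) • w S R) := rfl

theorem rr_add (w w' : Finset V → Finset V → X → ℝ) : rr hc (w + w') = rr hc w + rr hc w' := by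
  funext R
  rw [Pi.add_apply, rr_apply, rr_apply, rr_apply, ← map_add, ← Finset.sum_add_distrib]
  congr 1
  refine Finset.sum_congr rfl fun S _ => ?_
  rw [Pi.add_apply, Pi.add_apply, smul_add]

omit [LinearOrder V] in
/-- sums over the sets containing `v` -/
theorem sum_mem [DecidableEq V] {M : Type} [AddCommGroup M] (v : V) (f : Finset V → M) :
    ∑ S : Finset V, (if v ∈ S then f (S.erase v) else 0) = ∑ S : Finset V, (if v ∈ S then 0 else f S) := by
  refine Finset.sum_bij_ne_zero (fun S _ _ => S.erase v) (fun S _ _ => Finset.mem_univ _) ?_ ?_ ?_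
  · intro S _ hS S' _ hS' h
    have h1 : v ∈ S := by by_contra hn; exact hS (if_neg hn)
    have h2 : v ∈ S' := by by_contra hn; exact hS' (if_neg hn)
    rw [← Finset.insert_erase h1, h, Finset.insert_erase h2]
  · intro S _ hS
    have h1 : v ∉ S := by by_contra hn; exact hS (if_pos hn)
    refine ⟨insert v S, Finset.mem_univ _, ?_, Finset.erase_insert h1⟩
    rw [if_pos (Finset.mem_insert_self _ _), Finset.erase_insert h1]
    rwa [if_neg h1] at hS
  · intro S _ hS
    have h1 : v ∈ S := by by_contra hn; exact hS (if_neg hn)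
    rw [if_pos h1, if_neg (Finset.notMem_erase v S)]

theorem rr_chain {w : Finset V → Finset V → X → ℝ} (hw : Good G w) :
    rr hc (D1 w + D2 a w) = bd ℝ (rr hc w) := by
  classical
  funext R
  by_cases hR : G.IsClique (R : Set V)
  swap
  · rw [rr_apply, PR_not hc hR, bd_apply]
    rw [LinearMap.zero_apply]
    symm
    refine Finset.sum_eq_zero fun v _ => ?_
    rw [rr_apply, PR_not hc, LinearMap.zero_apply, smul_zero]
    intro h
    exact hR (h.subset (by simp))
  · have h1 : ∀ v ∈ Rᶜ, sg v R • rr hc w (insert v R) =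
        PR G a hc R (sg v R • ∑ S : Finset V, ((-1 : ℤ) ^ S.card) • pm a v (w S (insert v R))) := by
      intro v hv
      have hv' : v ∉ R := by simpa using hv
      rw [map_zsmul]
      congr 1
      by_cases h : G.IsClique ((insert v R : Finset V) : Set V)
      · rw [rr_apply, PR_insert hc hv' h, map_sum]
        congr 1
        refine Finset.sum_congr rfl fun S _ => ?_
        rw [map_zsmul]
      · rw [rr_apply, PR_not hc h, LinearMap.zero_apply]
        symm
        have h2 : ∑ S : Finset V, ((-1 : ℤ) ^ S.card) • pm a v (w S (insert v R)) = 0 := by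
          refine Finset.sum_eq_zero fun S _ => ?_
          rw [hw S (insert v R), map_zero, smul_zero]
          rintro ⟨_, h3⟩
          exact h (h3.subset (Finset.coe_subset.2 Finset.subset_union_right))
        rw [h2, map_zero]
    rw [bd_apply, Finset.sum_congr rfl h1, ← map_sum, rr_apply]
    congr 1
    have h3 : ∀ S : Finset V, ((-1 : ℤ) ^ S.card) • (D1 w + D2 a w) S R =
        ((-1 : ℤ) ^ S.card) • D1 w S R + ((-1 : ℤ) ^ S.card) • D2 a w S R := by
      intro S
      rw [Pi.add_apply, Pi.add_apply, smul_add]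
    rw [Finset.sum_congr rfl fun S _ => h3 S, Finset.sum_add_distrib]
    have h4 : ∑ S : Finset V, ((-1 : ℤ) ^ S.card) • D1 w S R =
        ∑ v ∈ Rᶜ, ∑ S : Finset V, (sg v R * (-1 : ℤ) ^ S.card) • w S (insert v R) := by
      rw [Finset.sum_comm]
      refine Finset.sum_congr rfl fun S _ => ?_
      rw [D1_apply, Finset.smul_sum]
      refine Finset.sum_congr rfl fun v _ => ?_
      rw [smul_smul, mul_comm]
    have h5 : ∑ S : Finset V, ((-1 : ℤ) ^ S.card) • D2 a w S R =
        ∑ v ∈ Rᶜ, ∑ S : Finset V, (if v ∈ S then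
          (sg v R * (-1 : ℤ) ^ ((S.erase v).card + 1)) • pp a v (w (S.erase v) (insert v R)) else 0) := by
      rw [Finset.sum_comm]
      refine Finset.sum_congr rfl fun S _ => ?_
      rw [D2_apply, Finset.smul_sum, ← Finset.sum_filter]
      refine Finset.sum_congr ?_ ?_
      · ext v
        simp only [Finset.mem_sdiff, Finset.mem_filter, Finset.mem_compl]
        tauto
      · intro v hv
        rw [Finset.mem_filter] at hv
        rw [smul_smul, mul_comm]
        have : (S.erase v).card + 1 = S.card := Finset.card_erase_add_one hv.2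
        rw [this]
    rw [h4, h5, ← Finset.sum_add_distrib]
    refine Finset.sum_congr rfl fun v hv => ?_
    rw [sum_mem v fun S => (sg v R * (-1 : ℤ) ^ (S.card + 1)) • pp a v (w S (insert v R)),
      ← Finset.sum_add_distrib, Finset.smul_sum]
    refine Finset.sum_congr rfl fun S _ => ?_
    by_cases hS : v ∈ S
    · have h6 : w S (insert v R) = 0 := by
        refine hw S _ ?_
        rintro ⟨h7, _⟩
        exact Finset.disjoint_left.1 h7 hS (Finset.mem_insert_self _ _)
      rw [if_pos hS, h6, map_zero, smul_zero, smul_zero, smul_zero, add_zero]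
    · rw [if_neg hS, pm_eq, smul_sub, smul_sub, smul_smul, smul_smul, pow_succ, sub_eq_add_neg, ← neg_smul]
      congr 2
      ring

end Abs

end Pool.Agent.Run7.h714.DU
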