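import Pool.Agent.Run7.h714.DU.G2

set_option autoImplicit false
set_option linter.unusedSectionVars false

/-!
# Duality for commuting symmetric involutions
-/

namespace Pool.Agent.Run7.h714.DU

open Pool.Agent.W907.SG Pool.Agent.W907.SM Module
open Pool.Agent.TH652.Dual (lk_iff triv mem_KK_triv exact_of_beta Sph oS ep oS_step oS_spec oS_supp exists_o
  no_big top_span)
open Pool.Agent.W397.SG (rank_null)

section Abs

variable {V X : Type} [Fintype V] [LinearOrder V] [Fintype X] {G : SimpleGraph V}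
  {a : V → (X → ℝ) →ₗ[ℝ] (X → ℝ)}

/-- the operators are symmetric -/
def Symm (a : V → (X → ℝ) →ₗ[ℝ] (X → ℝ)) : Prop :=
  ∀ v f g, ∑ x : X, a v f x * g x = ∑ x : X, f x * a v g x

/-! ### the families attached to cochains -/


/-- the family `m S ⊗ o_S` -/
noncomputable def wm (o : Finset V → ℝ) (m : Finset V → X → ℝ) : Finset V → Finset V → X → ℝ := fun S R => oS o S R • m S

open Classical in
/-- the coboundary -/
noncomputable def dd (G : SimpleGraph V) (a : V → (X → ℝ) →ₗ[ℝ] (X → ℝ)) : (Finset V → X → ℝ) →ₗ[ℝ] (Finset V → X → ℝ) where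
  toFun m S := if G.IsClique (S : Set V) then ∑ s ∈ S, sg s (S.erase s) • pp a s (m (S.erase s)) else 0
  map_add' m m' := by
    funext S
    rw [Pi.add_apply]
    split_ifs with h
    · rw [← Finset.sum_add_distrib]
      refine Finset.sum_congr rfl fun s _ => ?_
      rw [Pi.add_apply, map_add, smul_add]
    · rw [add_zero]
  map_smul' r m := by
    funext S
    rw [Pi.smul_apply, RingHom.id_apply]
    split_ifs with h
    · rw [Finset.smul_sum]
      refine Finset.sum_congr rfl fun s _ => ?_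
      rw [Pi.smul_apply, map_smul, smul_comm]
    · rw [smul_zero]

theorem dd_pos {m : Finset V → X → ℝ} {S : Finset V} (h : G.IsClique (S : Set V)) :
    dd G a m S = ∑ s ∈ S, sg s (S.erase s) • pp a s (m (S.erase s)) := if_pos h

theorem dd_neg {m : Finset V → X → ℝ} {S : Finset V} (h : ¬ G.IsClique (S : Set V)) :
    dd G a m S = 0 := if_neg h

/-- the invariant cochains -/
noncomputable abbrev KP (G : SimpleGraph V) (a : V → (X → ℝ) →ₗ[ℝ] (X → ℝ)) (j : ℕ) : Submodule ℝ (Finset V → X → ℝ) :=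
  KK G (fun v => - a v) Set.univ ∅ j

theorem mem_KP {j : ℕ} {m : Finset V → X → ℝ} : m ∈ KP G a j ↔
    (∀ T : Finset V, ¬ (G.IsClique (T : Set V) ∧ T.card = j) → m T = 0) ∧
      ∀ (T : Finset V) (t : V), t ∈ T → a t (m T) = m T := by
  rw [mem_KK]
  constructor
  · rintro ⟨h1, h2⟩
    refine ⟨fun T hT => h1 T fun h => hT ⟨h.1, h.2.2⟩, fun T t ht => ?_⟩
    have h3 := h2 T t (Or.inl ht)
    rw [LinearMap.neg_apply] at h3
    exact neg_injective h3
  · rintro ⟨h1, h2⟩
    refine ⟨fun T hT => h1 T fun h => hT ⟨h.1, Set.subset_univ _, h.2⟩, fun T t ht => ?_⟩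
    rcases ht with ht | ht
    · rw [LinearMap.neg_apply, h2 T t ht]
    · exact absurd ht (Set.notMem_empty _)

theorem wm_lay {n : ℕ} {o : Finset V → ℝ} (ho : o ∈ ZZ G (triv V) (lk G ∅) ∅ n) {i j : ℕ} (hij : i + j = n)
    {m : Finset V → X → ℝ} (hm : m ∈ KP G a j) : Lay G a j i (wm o m) := by
  rw [mem_KP] at hm
  refine ⟨fun S R hn => ?_, fun S R s hs => ?_⟩
  · unfold wm
    by_cases h1 : oS o S R = 0
    · rw [h1, zero_smul]
    · obtain ⟨h2, h3, h4⟩ := oS_supp ho h1
      by_cases h5 : S.card = j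
      · exact absurd ⟨h2, h3, h5, by omega⟩ hn
      · rw [hm.1 S fun h => h5 h.2, smul_zero]
  · unfold wm
    rw [map_smul, hm.2 S s hs]

theorem wm_D1 {n : ℕ} (hS : Sph n G) {o : Finset V → ℝ} (ho : o ∈ ZZ G (triv V) (lk G ∅) ∅ n) (ho0 : o ≠ 0)
    {i j : ℕ} (hij : i + j = n) {m : Finset V → X → ℝ} (hm : m ∈ KP G a j) : D1 (wm o m) = 0 := by
  rw [mem_KP] at hm
  funext S R
  rw [D1_apply]
  by_cases h1 : G.IsClique (S : Set V) ∧ S.card = j
  · have h2 := (oS_spec hS ho ho0 S h1.1 i (by omega)).1.2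
    have h3 := congrFun (show bd ℝ (oS o S) = 0 from h2) R
    rw [bd_apply, Pi.zero_apply] at h3
    have h4 : ∀ v ∈ Rᶜ, sg v R • wm o m S (insert v R) = (sg v R • oS o S (insert v R)) • m S := by
      intro v _
      unfold wm
      rw [smul_assoc]
    rw [Finset.sum_congr rfl h4, ← Finset.sum_smul, h3, zero_smul]
    rfl
  · refine Finset.sum_eq_zero fun v _ => ?_
    unfold wm
    rw [hm.1 S h1, smul_zero, smul_zero]

theorem wm_D2 {n : ℕ} {o : Finset V → ℝ} (ho : o ∈ ZZ G (triv V) (lk G ∅) ∅ n) {j : ℕ}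
    {m : Finset V → X → ℝ} (hm : m ∈ KP G a j) : D2 a (wm o m) = ((-1 : ℤ) ^ j) • wm o (dd G a m) := by
  rw [mem_KP] at hm
  funext S R
  rw [D2_apply]
  have h1 : ∀ s ∈ S \ R, sg s R • pp a s (wm o m (S.erase s) (insert s R)) =
      oS o S R • ep s S • pp a s (m (S.erase s)) := by
    intro s hs
    rw [Finset.mem_sdiff] at hs
    unfold wm
    have h2 := oS_step o hs.1 hs.2
    rw [map_smul, ← Int.cast_smul_eq_zsmul ℝ (sg s R), smul_smul, h2, mul_comm, ← smul_smul,
      Int.cast_smul_eq_zsmul]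
  rw [Finset.sum_congr rfl h1]
  show _ = ((-1 : ℤ) ^ j) • (oS o S R • dd G a m S)
  by_cases h3 : oS o S R = 0
  · rw [h3, zero_smul, smul_zero]
    exact Finset.sum_eq_zero fun s _ => zero_smul _ _
  · obtain ⟨h4, h5, h6⟩ := oS_supp ho h3
    have h7 : S \ R = S := Finset.sdiff_eq_self_of_disjoint h4
    rw [h7, dd_pos (h5.subset (by simp)), smul_comm, Finset.smul_sum, Finset.smul_sum]
    refine Finset.sum_congr rfl fun s hs => ?_
    congr 1
    by_cases h8 : S.card = j + 1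
    · unfold ep
      rw [h8, smul_smul, Nat.add_sub_cancel]
    · rw [hm.1 (S.erase s), map_zero, smul_zero, smul_zero, smul_zero]
      rintro ⟨_, h9⟩
      rw [Finset.card_erase_of_mem hs] at h9
      have := Finset.card_pos.2 ⟨s, hs⟩
      omega

theorem dd_KP (hi : ∀ v x, a v (a v x) = x) (hc : ∀ u v, G.Adj u v → ∀ x, a u (a v x) = a v (a u x)) {j : ℕ}
    {m : Finset V → X → ℝ} (hm : m ∈ KP G a j) : dd G a m ∈ KP G a (j + 1) := by
  rw [mem_KP] at hm ⊢
  refine ⟨fun S hS => ?_, fun S t ht => ?_⟩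
  · by_cases h : G.IsClique (S : Set V)
    · rw [dd_pos h]
      refine Finset.sum_eq_zero fun s hs => ?_
      rw [hm.1 (S.erase s), map_zero, smul_zero]
      rintro ⟨_, h9⟩
      rw [Finset.card_erase_of_mem hs] at h9
      have := Finset.card_pos.2 ⟨s, hs⟩
      exact hS ⟨h, by omega⟩
    · exact dd_neg h
  · by_cases h : G.IsClique (S : Set V)
    · rw [dd_pos h, map_sum]
      refine Finset.sum_congr rfl fun s hs => ?_
      rw [map_zsmul]
      by_cases e : t = s
      · rw [e, pp_inv hi]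
      · rw [pull_pp hc (h hs ht fun h => e h.symm), hm.2 _ t (Finset.mem_erase.2 ⟨e, ht⟩)]
    · rw [dd_neg h, map_zero]

theorem dd_of_D2 {n : ℕ} (hS : Sph n G) {o : Finset V → ℝ} (ho : o ∈ ZZ G (triv V) (lk G ∅) ∅ n) (ho0 : o ≠ 0)
    {j : ℕ} {m : Finset V → X → ℝ} (hm : m ∈ KP G a j) (h : D2 a (wm o m) = 0) : dd G a m = 0 := by
  rw [wm_D2 ho hm] at h
  funext S
  by_cases hcl : G.IsClique (S : Set V)
  · obtain ⟨d, hd⟩ := Nat.exists_eq_add_of_le (no_big hS hcl)
    have h1 := (oS_spec hS ho ho0 S hcl d (by omega)).2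
    obtain ⟨R, hR⟩ : ∃ R, oS o S R ≠ 0 := by
      by_contra hn
      push Not at hn
      exact h1 (funext hn)
    have h2 := congrFun (congrFun h S) R
    have h3 : ((-1 : ℤ) ^ j) • (oS o S R • dd G a m S) = 0 := h2
    have h4 : oS o S R • dd G a m S = 0 := by
      rcases neg_one_pow_eq_or ℤ j with h5 | h5
      · rwa [h5, one_smul] at h3
      · rw [h5, neg_smul, one_smul, neg_eq_zero] at h3
        exact h3
    rcases smul_eq_zero.1 h4 with h5 | h5
    · exact absurd h5 hR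
    · rw [h5]; rfl
  · rw [dd_neg hcl]; rfl

theorem dd_dd {n : ℕ} (hi : ∀ v x, a v (a v x) = x) (hc : ∀ u v, G.Adj u v → ∀ x, a u (a v x) = a v (a u x))
    (hS : Sph n G) {o : Finset V → ℝ} (ho : o ∈ ZZ G (triv V) (lk G ∅) ∅ n) (ho0 : o ≠ 0) {i j : ℕ}
    (hij : i + j = n) {m : Finset V → X → ℝ} (hm : m ∈ KP G a j) : dd G a (dd G a m) = 0 := by
  refine dd_of_D2 hS ho ho0 (dd_KP hi hc hm) ?_
  have h1 : D2 a (D2 a (wm o m)) = 0 := D2_D2 hc (wm_lay ho hij hm).good
  rw [wm_D2 ho hm] at h1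
  have h2 : D2 a (((-1 : ℤ) ^ j) • wm o (dd G a m)) = ((-1 : ℤ) ^ j) • D2 a (wm o (dd G a m)) := by
    funext S R
    rw [D2_apply]
    show _ = ((-1 : ℤ) ^ j) • D2 a (wm o (dd G a m)) S R
    rw [D2_apply, Finset.smul_sum]
    refine Finset.sum_congr rfl fun s _ => ?_
    show sg s R • pp a s (((-1 : ℤ) ^ j) • wm o (dd G a m) (S.erase s) (insert s R)) = _
    rw [map_zsmul, smul_comm]
  rw [h2] at h1
  rcases neg_one_pow_eq_or ℤ j with h5 | h5
  · rwa [h5, one_smul] at h1
  · rw [h5, neg_smul, one_smul, neg_eq_zero] at h1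
    exact h1

/-- the last step of the zigzag: a family of top cycles is of the form `wm o m` -/
theorem exists_m {n : ℕ} (hS : Sph n G) {o : Finset V → ℝ} (ho : o ∈ ZZ G (triv V) (lk G ∅) ∅ n) (ho0 : o ≠ 0)
    {i j : ℕ} (hij : i + j = n) {w : Finset V → Finset V → X → ℝ} (hw : Lay G a j i w) (h1 : D1 w = 0) :
    ∃ m ∈ KP G a j, w = wm o m := by
  classical
  have hR : ∀ S : Finset V, G.IsClique (S : Set V) → S.card = j → ∃ R, oS o S R ≠ 0 := by
    intro S hcl hcard
    have h2 := (oS_spec hS ho ho0 S hcl i (by omega)).2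
    by_contra hn
    push Not at hn
    exact h2 (funext hn)
  choose! R hR using hR
  refine ⟨fun S => if G.IsClique (S : Set V) ∧ S.card = j then (oS o S (R S))⁻¹ • w S (R S) else 0, ?_, ?_⟩
  · rw [mem_KP]
    refine ⟨fun S hn => if_neg hn, fun S t ht => ?_⟩
    split_ifs with h
    · rw [map_smul, hw.2 _ _ t ht]
    · rw [map_zero]
  · funext S T
    show w S T = oS o S T •
      (if G.IsClique (S : Set V) ∧ S.card = j then (oS o S (R S))⁻¹ • w S (R S) else 0)
    split_ifs with h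
    · funext x
      rw [Pi.smul_apply, Pi.smul_apply, smul_eq_mul, smul_eq_mul]
      have h2 : (fun R => w S R x) ∈ ZZ G (triv V) (lk G S) ∅ i := by
        refine ⟨?_, ?_⟩
        · rw [SetLike.mem_coe, mem_KK_triv]
          intro T hT
          rw [hw.1 S T, Pi.zero_apply]
          rintro ⟨h3, h4, _, h5⟩
          have h6 := (lk_iff h.1 T).2 ⟨h3, h4⟩
          exact hT ⟨h6.1, h6.2, h5⟩
        · show bd ℝ (fun R => w S R x) = 0
          funext R
          have h3 := congrFun (congrFun (congrFun h1 S) R) x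
          rw [D1_apply] at h3
          rw [bd_apply, Pi.zero_apply]
          rw [Pi.zero_apply, Pi.zero_apply, Pi.zero_apply, Finset.sum_apply] at h3
          exact h3
      have h3 := oS_spec hS ho ho0 S h.1 i (by omega)
      obtain ⟨r, hr⟩ := top_span hS h.1 (by omega) h3.1 h3.2 h2
      have h4 : ∀ T, w S T x = r * oS o S T := fun T => congrFun hr T
      rw [h4 T, h4 (R S)]
      have h5 := hR S h.1 h.2
      field_simp
    · rw [hw.1 S T, smul_zero]
      rintro ⟨_, h2, h3, _⟩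
      exact h ⟨h2.subset (by simp), h3⟩



/-- the pairing of chains -/
def prc (m c : Finset V → X → ℝ) : ℝ := ∑ S : Finset V, ∑ x : X, m S x * c S x

theorem prc_self {m : Finset V → X → ℝ} (h : prc m m = 0) : m = 0 := by
  unfold prc at h
  have h1 : ∀ S ∈ (Finset.univ : Finset (Finset V)), 0 ≤ ∑ x : X, m S x * m S x := fun S _ =>
    Finset.sum_nonneg fun x _ => mul_self_nonneg _
  rw [Finset.sum_eq_zero_iff_of_nonneg h1] at h
  funext S x
  have h2 := h S (Finset.mem_univ _)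
  rw [Finset.sum_eq_zero_iff_of_nonneg fun x _ => mul_self_nonneg _] at h2
  exact mul_self_eq_zero.1 (h2 x (Finset.mem_univ _))

theorem pp_adj (hsy : Symm a) (s : V) (f g : X → ℝ) (hg : a s g = g) :
    ∑ x : X, pp a s f x * g x = ∑ x : X, f x * g x := by
  have h1 : ∑ x : X, a s f x * g x = ∑ x : X, f x * g x := by
    rw [hsy s f g, hg]
  have h2 : ∀ x : X, pp a s f x * g x = 1 / 2 * (f x * g x) + 1 / 2 * (a s f x * g x) := by
    intro x
    rw [pp_apply, Pi.smul_apply, Pi.add_apply, smul_eq_mul]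
    ring
  rw [Finset.sum_congr rfl fun x _ => h2 x, Finset.sum_add_distrib, ← Finset.mul_sum, ← Finset.mul_sum, h1]
  ring

theorem dd_adj (hsy : Symm a) {j : ℕ} (m : Finset V → X → ℝ) {c : Finset V → X → ℝ}
    (hc : c ∈ KP G a (j + 1)) : prc (dd G a m) c = prc m (bd ℝ c) := by
  rw [mem_KP] at hc
  unfold prc
  have h1 : ∀ S : Finset V, ∑ x : X, dd G a m S x * c S x =
      ∑ s : V, (if s ∈ S then (sg s (S.erase s) : ℝ) * ∑ x : X, m (S.erase s) x * c (insert s (S.erase s)) x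
        else 0) := by
    intro S
    by_cases hS : G.IsClique (S : Set V)
    · rw [dd_pos hS, ← Finset.sum_filter]
      have h2 : Finset.univ.filter (fun s => s ∈ S) = S := by ext; simp
      rw [h2]
      have h3 : ∀ x : X, (∑ s ∈ S, sg s (S.erase s) • pp a s (m (S.erase s))) x * c S x =
          ∑ s ∈ S, (sg s (S.erase s) : ℝ) * (pp a s (m (S.erase s)) x * c S x) := by
        intro x
        rw [Finset.sum_apply, Finset.sum_mul]
        refine Finset.sum_congr rfl fun s _ => ?_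
        rw [Pi.smul_apply, zsmul_eq_mul, mul_assoc]
      rw [Finset.sum_congr rfl fun x _ => h3 x, Finset.sum_comm]
      refine Finset.sum_congr rfl fun s hs => ?_
      rw [← Finset.mul_sum, pp_adj hsy s _ _ (hc.2 S s hs), Finset.insert_erase hs]
    · rw [dd_neg hS]
      have h3 : c S = 0 := hc.1 S fun h => hS h.1
      rw [Finset.sum_eq_zero fun x _ => by rw [h3, Pi.zero_apply, mul_zero]]
      symm
      refine Finset.sum_eq_zero fun s _ => ?_
      split_ifs with hs
      · rw [Finset.insert_erase hs, h3]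
        simp
      · rfl
  have h2 : ∀ S : Finset V, ∑ x : X, m S x * bd ℝ c S x =
      ∑ s : V, (if s ∈ S then 0 else (sg s S : ℝ) * ∑ x : X, m S x * c (insert s S) x) := by
    intro S
    have h3 : ∀ x : X, m S x * bd ℝ c S x = ∑ s ∈ Sᶜ, (sg s S : ℝ) * (m S x * c (insert s S) x) := by
      intro x
      rw [bd_apply, Finset.sum_apply, Finset.mul_sum]
      refine Finset.sum_congr rfl fun s _ => ?_
      rw [Pi.smul_apply, zsmul_eq_mul]
      ring
    rw [Finset.sum_congr rfl fun x _ => h3 x, Finset.sum_comm, ← Finset.sum_subset (Finset.subset_univ Sᶜ)]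
    · refine Finset.sum_congr rfl fun s hs => ?_
      rw [if_neg (by simpa using hs), ← Finset.mul_sum]
    · intro s _ hs
      exact if_pos (by simpa using hs)
  rw [Finset.sum_congr rfl fun S _ => h1 S, Finset.sum_congr rfl fun S _ => h2 S, Finset.sum_comm]
  conv_rhs => rw [Finset.sum_comm]
  refine Finset.sum_congr rfl fun s _ => ?_
  exact sum_mem s fun S => (sg s S : ℝ) * ∑ x : X, m S x * c (insert s S) x

/-- if `dd (bd c) = 0` then `bd c = 0` -/
theorem dd_bd (hsy : Symm a) {j : ℕ} {c : Finset V → X → ℝ} (hc : c ∈ KP G a (j + 1))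
    (h : dd G a (bd ℝ c) = 0) : bd ℝ c = 0 := by
  refine prc_self ?_
  rw [← dd_adj hsy (bd ℝ c) hc, h]
  unfold prc
  simp

theorem bd_KP_zero {c : Finset V → X → ℝ} (hc : c ∈ KP G a 0) : bd ℝ c = 0 := by
  rw [mem_KP] at hc
  funext T
  rw [bd_apply, Pi.zero_apply]
  refine Finset.sum_eq_zero fun v _ => ?_
  rw [hc.1, smul_zero]
  rintro ⟨_, h⟩
  rw [Finset.card_eq_zero] at h
  exact Finset.insert_ne_empty v T h

/-- the cocycles -/
noncomputable def AA (G : SimpleGraph V) (a : V → (X → ℝ) →ₗ[ℝ] (X → ℝ)) (j : ℕ) : Submodule ℝ (Finset V → X → ℝ) :=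
  KP G a j ⊓ LinearMap.ker (dd G a)

/-- the coboundaries -/
noncomputable def DD (G : SimpleGraph V) (a : V → (X → ℝ) →ₗ[ℝ] (X → ℝ)) (j : ℕ) : Submodule ℝ (Finset V → X → ℝ) :=
  ((KP G a j).map (bd ℝ)).map (dd G a)

theorem rank_AA (hsy : Symm a) (j : ℕ) :
    finrank ℝ (AA G a j) + finrank ℝ (BB G (fun v => - a v) Set.univ ∅ j) ≤ finrank ℝ (KP G a j) := by
  have h1 : AA G a j ⊓ BB G (fun v => - a v) Set.univ ∅ j = ⊥ := by
    rw [eq_bot_iff]
    rintro x ⟨⟨_, hx2⟩, ⟨c, hc, rfl⟩⟩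
    rw [Submodule.mem_bot]
    exact dd_bd hsy hc hx2
  have h2 := Submodule.finrank_sup_add_finrank_inf_eq (AA G a j) (BB G (fun v => - a v) Set.univ ∅ j)
  rw [h1, finrank_bot, add_zero] at h2
  rw [← h2]
  refine Submodule.finrank_mono (sup_le inf_le_left ?_)
  exact (BB_le_ZZ _ _ _ _ _).trans inf_le_left

theorem rank_DD (hsy : Symm a) (j : ℕ) :
    finrank ℝ (KP G a j) ≤ finrank ℝ (DD G a j) + finrank ℝ (ZZ G (fun v => - a v) Set.univ ∅ j) := by
  have h1 := rank_null (bd ℝ : (Finset V → X → ℝ) →ₗ[ℝ] _) (KP G a j)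
  have h2 := rank_null (dd G a) ((KP G a j).map (bd ℝ))
  have h3 : ((KP G a j).map (bd ℝ) ⊓ LinearMap.ker (dd G a) : Submodule ℝ (Finset V → X → ℝ)) = ⊥ := by
    rw [eq_bot_iff]
    rintro _ ⟨⟨c, hc, rfl⟩, hx⟩
    rw [Submodule.mem_bot]
    rcases Nat.eq_zero_or_pos j with h0 | h0
    · subst h0
      exact bd_KP_zero hc
    · obtain ⟨k, rfl⟩ := Nat.exists_eq_succ_of_ne_zero h0.ne'
      exact dd_bd hsy hc hx
  rw [h3, finrank_bot, zero_add] at h2
  show finrank ℝ (KP G a j) ≤ finrank ℝ (((KP G a j).map (bd ℝ)).map (dd G a)) + finrank ℝ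
    (KP G a j ⊓ LinearMap.ker (bd ℝ) : Submodule ℝ (Finset V → X → ℝ))
  omega

/-- the duality map -/
noncomputable def Psi {G : SimpleGraph V} {a : V → (X → ℝ) →ₗ[ℝ] (X → ℝ)}
    (hc : ∀ u v, G.Adj u v → ∀ x, a u (a v x) = a v (a u x)) (o : Finset V → ℝ) :
    (Finset V → X → ℝ) →ₗ[ℝ] (Finset V → X → ℝ) where
  toFun m := rr hc (wm o m)
  map_add' m m' := by
    rw [← rr_add]
    congr 1
    funext S R
    exact smul_add _ _ _
  map_smul' r m := by
    funext R
    rw [Pi.smul_apply, RingHom.id_apply, rr_apply, rr_apply, ← map_smul, Finset.smul_sum]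
    congr 1
    refine Finset.sum_congr rfl fun S _ => ?_
    rw [smul_comm]
    congr 1
    show oS o S R • (r • m S) = r • (oS o S R • m S)
    rw [smul_comm]

theorem duality {n : ℕ} (hsy : Symm a) (hi : ∀ v x, a v (a v x) = x) (hc : ∀ u v, G.Adj u v → ∀ x, a u (a v x) = a v (a u x))
    (hS : Sph n G) {i j : ℕ} (hij : i + j = n) :
    beta G a Set.univ ∅ i ≤ beta G (fun v => - a v) Set.univ ∅ j := by
  obtain ⟨o, ho, ho0⟩ := exists_o hS
  set B := BB G a Set.univ ∅ i with hB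
  set f : (Finset V → X → ℝ) →ₗ[ℝ] ((Finset V → X → ℝ) ⧸ B) := B.mkQ ∘ₗ Psi hc o with hf
  -- the image
  have h1 : (ZZ G a Set.univ ∅ i).map B.mkQ ≤ (AA G a j).map f := by
    rintro _ ⟨z, hz, rfl⟩
    have hz1 := hz.1
    have hz2 : bd ℝ z = 0 := hz.2
    obtain ⟨w', hw1, hw2, hw3, hw4⟩ := zigzag hi hc hS i j 0 (fam0 z) (by omega) (fam0_lay hz1)
      (fam0_D1 hz2) (fam0_D2 hz1)
    rw [zero_add] at hw1
    obtain ⟨m, hm, rfl⟩ := exists_m hS ho ho0 hij hw1 hw2
    refine ⟨m, ⟨hm, dd_of_D2 hS ho ho0 hm hw3⟩, ?_⟩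
    rw [fam0_rr hc hz1] at hw4
    show B.mkQ (rr hc (wm o m)) = B.mkQ z
    rw [eq_comm, ← sub_eq_zero, ← map_sub, Submodule.mkQ_apply, Submodule.Quotient.mk_eq_zero]
    exact hw4
  -- the kernel
  have h2 : DD G a j ≤ AA G a j ⊓ LinearMap.ker f := by
    rintro _ ⟨_, ⟨c, hcc, rfl⟩, rfl⟩
    rcases Nat.eq_zero_or_pos j with h0 | h0
    · subst h0
      rw [bd_KP_zero hcc, map_zero]
      exact Submodule.zero_mem _
    · obtain ⟨k, rfl⟩ := Nat.exists_eq_succ_of_ne_zero h0.ne'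
      have hm : bd ℝ c ∈ KP G a k := bd_mem_KK hcc
      have hik : (i + 1) + k = n := by omega
      refine ⟨⟨dd_KP hi hc hm, dd_dd hi hc hS ho ho0 hik hm⟩, ?_⟩
      show B.mkQ (rr hc (wm o (dd G a (bd ℝ c)))) = 0
      rw [Submodule.mkQ_apply, Submodule.Quotient.mk_eq_zero]
      have h3 := rr_chain hc (wm_lay ho hik hm).good
      rw [wm_D1 hS ho ho0 hik hm, zero_add, wm_D2 ho hm] at h3
      have h4 : rr hc (((-1 : ℤ) ^ k) • wm o (dd G a (bd ℝ c))) =
          ((-1 : ℤ) ^ k) • rr hc (wm o (dd G a (bd ℝ c))) := by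
        funext R
        rw [rr_apply, Pi.smul_apply, rr_apply, ← map_zsmul, Finset.smul_sum]
        congr 1
        refine Finset.sum_congr rfl fun S _ => ?_
        rw [smul_comm]
        rfl
      rw [h4] at h3
      have h5 : bd ℝ (rr hc (wm o (bd ℝ c))) ∈ B := ⟨_, rr_mem hi hc (wm_lay ho hik hm), rfl⟩
      rw [← h3] at h5
      rcases neg_one_pow_eq_or ℤ k with h6 | h6
      · rwa [h6, one_smul] at h5
      · rw [h6, neg_smul, one_smul] at h5
        exact (Submodule.neg_mem_iff _).1 h5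
  have r1 := rank_null B.mkQ (ZZ G a Set.univ ∅ i)
  have r2 := rank_null f (AA G a j)
  have r3 : finrank ℝ (ZZ G a Set.univ ∅ i ⊓ LinearMap.ker B.mkQ : Submodule ℝ (Finset V → X → ℝ)) ≤
      finrank ℝ B := by
    rw [Submodule.ker_mkQ]
    exact Submodule.finrank_mono inf_le_right
  have r4 := Submodule.finrank_mono h1
  have r5 := Submodule.finrank_mono h2
  have r6 := rank_AA (G := G) hsy j
  have r7 := rank_DD (G := G) hsy j
  unfold beta
  rw [← hB]
  omega

end Abs

end Pool.Agent.Run7.h714.DU
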