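import Pool.Agent.Run7.h714.DU.Six
import Pool.Agent.R782.Bal.Tay

set_option autoImplicit false
set_option linter.unusedSectionVars false

/-!
# The `γ`-vector
-/

namespace Pool.Agent.Run7.h714.DU

open Pool.Agent.W907.SG Pool.Agent.W907.SM Module
open Pool.Agent.TH652.Above (HSph)
open Pool.Agent.N13.EU (chiL chiL_filter t_BR)
open Pool.Agent.R703.CW (hsph_link card_le_of_hsph)
open Pool.Agent.W497.FS (IsGamma cl mem_cl)
open Pool.Agent.R781.CubeAQ (fam mem_fam)

section

variable {V : Type} [Fintype V] [LinearOrder V] {G : SimpleGraph V}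

theorem lk_disj {T : Finset V} (R : Finset ↥(lk G T)) : Disjoint (R.map (Function.Embedding.subtype _)) T := by
  rw [Finset.disjoint_left]
  intro x hx hxT
  obtain ⟨b, hb, rfl⟩ := Finset.mem_map.1 hx
  exact G.loopless.irrefl _ (b.2 _ hxT)

theorem clique_iff {T : Finset V} (hT : G.IsClique (T : Set V)) (R : Finset ↥(lk G T)) :
    (G.induce (lk G T)).IsClique (R : Set ↥(lk G T)) ↔
      G.IsClique ((R.map (Function.Embedding.subtype _) ∪ T : Finset V) : Set V) := by
  constructor
  · intro h x hx y hy hxy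
    rw [Finset.mem_coe, Finset.mem_union] at hx hy
    rcases hx with hx | hx <;> rcases hy with hy | hy
    · obtain ⟨b, hb, rfl⟩ := Finset.mem_map.1 hx
      obtain ⟨c, hc, rfl⟩ := Finset.mem_map.1 hy
      exact h hb hc fun e => hxy (congrArg Subtype.val e)
    · obtain ⟨b, hb, rfl⟩ := Finset.mem_map.1 hx
      exact b.2 _ hy
    · obtain ⟨c, hc, rfl⟩ := Finset.mem_map.1 hy
      exact (c.2 _ hx).symm
    · exact hT hx hy hxy
  · intro h x hx y hy hxy
    refine h ?_ ?_ fun e => hxy (Subtype.ext e)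
    · rw [Finset.mem_coe, Finset.mem_union]
      exact Or.inl (Finset.mem_map.2 ⟨x, hx, rfl⟩)
    · rw [Finset.mem_coe, Finset.mem_union]
      exact Or.inl (Finset.mem_map.2 ⟨y, hy, rfl⟩)

theorem mem_lk_of {T S : Finset V} (hS : G.IsClique (S : Set V)) (hTS : T ⊆ S) {x : V} (hx : x ∈ S \ T) :
    x ∈ lk G T := by
  rw [Finset.mem_sdiff] at hx
  intro u hu
  refine hS hx.1 (hTS hu) ?_
  rintro rfl
  exact hx.2 hu

theorem map_sub {D : Set V} {S : Finset V} (h : ∀ x ∈ S, x ∈ D) [DecidablePred fun x => x ∈ D] :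
    (S.subtype (fun x => x ∈ D)).map (Function.Embedding.subtype _) = S := by
  rw [Finset.subtype_map]
  exact Finset.filter_true_of_mem h

open Classical in
/-- the faces of the link -/
theorem sum_up {T : Finset V} (hT : G.IsClique (T : Set V)) (k : ℕ) (F : Finset V → ℚ) :
    ∑ R ∈ (Finset.univ : Finset ↥(lk G T)).powersetCard k,
      (if (G.induce (lk G T)).IsClique (R : Set ↥(lk G T)) then
        F (R.map (Function.Embedding.subtype _) ∪ T) else 0) =
    ∑ S : Finset V, if T ⊆ S ∧ G.IsClique (S : Set V) ∧ S.card = T.card + k then F S else 0 := by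
  rw [← Finset.sum_filter, ← Finset.sum_filter]
  refine Finset.sum_bij (fun R _ => R.map (Function.Embedding.subtype _) ∪ T) ?_ ?_ ?_ ?_
  · intro R hR
    obtain ⟨hR1, hR2⟩ := Finset.mem_filter.1 hR
    rw [Finset.mem_powersetCard] at hR1
    refine Finset.mem_filter.2 ⟨Finset.mem_univ _, Finset.subset_union_right, (clique_iff hT R).1 hR2, ?_⟩
    rw [Finset.card_union_of_disjoint (lk_disj R), Finset.card_map, hR1.2, add_comm]
  · intro R hR R' hR' h
    have h1 := congrArg (fun Q => Q \ T) h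
    have h2 : ∀ Q : Finset ↥(lk G T), (Q.map (Function.Embedding.subtype _) ∪ T) \ T =
        Q.map (Function.Embedding.subtype _) := fun Q => by
      rw [Finset.union_sdiff_right]
      exact Finset.sdiff_eq_self_of_disjoint (lk_disj Q)
    rw [h2, h2] at h1
    exact Finset.map_injective _ h1
  · intro S hS
    obtain ⟨-, hS1, hS2, hS3⟩ := Finset.mem_filter.1 hS
    have h1 : (((S \ T).subtype (fun x => x ∈ lk G T)).map (Function.Embedding.subtype _)) ∪ T = S := by
      rw [map_sub fun x hx => mem_lk_of hS2 hS1 hx]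
      exact Finset.sdiff_union_of_subset hS1
    refine ⟨(S \ T).subtype (fun x => x ∈ lk G T), Finset.mem_filter.2 ⟨?_, ?_⟩, h1⟩
    · rw [Finset.mem_powersetCard]
      refine ⟨Finset.subset_univ _, ?_⟩
      rw [← Finset.card_map (Function.Embedding.subtype _), map_sub fun x hx => mem_lk_of hS2 hS1 hx,
        Finset.card_sdiff_of_subset hS1]
      omega
    · rw [clique_iff hT, h1]
      exact hS2
  · intro R _
    rfl

/-- the Euler characteristic of a link in a link -/
theorem chiL_up {T : Finset V} (hT : G.IsClique (T : Set V)) [Fintype ↥(lk G T)] (R : Finset ↥(lk G T)) :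
    chiL (G.induce (lk G T)) R = chiL G (R.map (Function.Embedding.subtype _) ∪ T) := by
  classical
  rw [chiL_filter, chiL_filter]
  refine Finset.sum_bij (fun S _ => S.map (Function.Embedding.subtype _)) ?_ ?_ ?_ ?_
  · intro S hS
    obtain ⟨-, hS1, hS2⟩ := Finset.mem_filter.1 hS
    refine Finset.mem_filter.2 ⟨Finset.mem_univ _, ?_, ?_⟩
    · rw [Finset.disjoint_union_right]
      exact ⟨(Finset.disjoint_map _).2 hS1, lk_disj S⟩
    · rw [← Finset.union_assoc, ← Finset.map_union, ← clique_iff hT]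
      exact hS2
  · intro S _ S' _ h
    exact Finset.map_injective _ h
  · intro S hS
    obtain ⟨-, hS1, hS2⟩ := Finset.mem_filter.1 hS
    rw [Finset.disjoint_union_right] at hS1
    have h3 : ∀ x ∈ S, x ∈ lk G T := fun x hx => mem_lk_of hS2
      (Finset.subset_union_right.trans Finset.subset_union_right) (Finset.mem_sdiff.2
        ⟨Finset.mem_union_left _ hx, Finset.disjoint_left.1 hS1.2 hx⟩)
    refine ⟨S.subtype (fun x => x ∈ lk G T), Finset.mem_filter.2 ⟨Finset.mem_univ _, ?_, ?_⟩, map_sub h3⟩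
    · rw [← Finset.disjoint_map (Function.Embedding.subtype _), map_sub h3]
      exact hS1.1
    · rw [clique_iff hT, Finset.map_union, map_sub h3, Finset.union_assoc]
      exact hS2
  · intro S _
    rw [Finset.card_map]

open Classical in
/-- the sum of the Euler characteristics of the links of the faces with `j` vertices -/
noncomputable def sumL (G : SimpleGraph V) (j : ℕ) : ℚ :=
  ∑ T : Finset V, if G.IsClique (T : Set V) ∧ T.card = j then chiL G T else 0

/-- the inequality for the sums over the faces -/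
theorem sumL_le {n : ℕ} (hn : 6 ≤ n) (hS : HSph n G) :
    4 * sumL G (n - 6) ≤ (n - 4).choose 2 * sumL G (n - 4) := by
  classical
  have h1 : ∀ T : Finset V, 4 * (if G.IsClique (T : Set V) ∧ T.card = n - 6 then chiL G T else 0) ≤
      ∑ S : Finset V, (if G.IsClique (S : Set V) ∧ S.card = n - 4 then
        (if T ∈ S.powersetCard (n - 6) then chiL G S else 0) else 0) := by
    intro T
    by_cases hT : G.IsClique (T : Set V) ∧ T.card = n - 6
    · rw [if_pos hT]
      have h2 : HSph 6 (G.induce (lk G T)) := by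
        have := hsph_link hS T hT.1
        rwa [show n - T.card = 6 by omega] at this
      have h3 := chi_six h2
      have h4 : cE (G.induce (lk G T)) Finset.univ =
          ∑ S : Finset V, if T ⊆ S ∧ G.IsClique (S : Set V) ∧ S.card = T.card + 2 then chiL G S else 0 := by
        rw [← sum_up hT.1 2 (chiL G)]
        unfold cE
        refine Finset.sum_congr rfl fun R _ => ?_
        rw [chiL_up hT.1]
        split_ifs <;> rfl
      rw [← t_BR V G T hT.1, h4] at h3
      refine h3.trans (le_of_eq ?_)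
      refine Finset.sum_congr rfl fun S _ => ?_
      have e : S.card = T.card + 2 ↔ S.card = n - 4 := by omega
      by_cases h5 : G.IsClique (S : Set V) ∧ S.card = n - 4
      · by_cases h6 : T ⊆ S
        · rw [if_pos ⟨h6, h5.1, e.2 h5.2⟩, if_pos h5, if_pos (Finset.mem_powersetCard.2 ⟨h6, hT.2⟩)]
        · rw [if_neg (fun h => h6 h.1), if_pos h5, if_neg (fun h => h6 (Finset.mem_powersetCard.1 h).1)]
      · rw [if_neg (fun h => h5 ⟨h.2.1, e.1 h.2.2⟩), if_neg h5]
    · rw [if_neg hT, mul_zero]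
      refine le_of_eq (Finset.sum_eq_zero fun S _ => ?_).symm
      split_ifs with h5 h6
      · exfalso
        rw [Finset.mem_powersetCard] at h6
        exact hT ⟨h5.1.subset (by exact_mod_cast h6.1), h6.2⟩
      · rfl
      · rfl
  have h2 := Finset.sum_le_sum fun T (_ : T ∈ (Finset.univ : Finset (Finset V))) => h1 T
  rw [← Finset.mul_sum, Finset.sum_comm] at h2
  refine h2.trans (le_of_eq ?_)
  unfold sumL
  rw [Finset.mul_sum]
  refine Finset.sum_congr rfl fun S _ => ?_
  by_cases h5 : G.IsClique (S : Set V) ∧ S.card = n - 4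
  · simp only [if_pos h5]
    rw [Finset.sum_ite_mem, Finset.univ_inter, Finset.sum_const, Finset.card_powersetCard, nsmul_eq_mul, h5.2,
      ← Nat.choose_symm (by omega : n - 6 ≤ n - 4), show n - 4 - (n - 6) = 2 by omega]
  · simp only [if_neg h5]
    rw [Finset.sum_const_zero, mul_zero]

/-- the sums over the faces in terms of the `γ`-vector -/
theorem sumL_gamma {n : ℕ} (hS : HSph n G) {N : ℕ} (φ : V ≃ Fin N) {γ : ℕ → ℤ} (hγ : IsGamma n (fam φ G) γ)
    {l : ℕ} (hl : 2 * l ≤ n) :
    sumL G (n - 2 * l) = (-1) ^ l * (2 ^ n / 4 ^ l) *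
      ∑ i ∈ Finset.range (n / 2 + 1), (i.choose l : ℚ) * γ i / 4 ^ i := by
  classical
  have h1 := Pool.Agent.R782.Bal.taylor_eq (l := l) (fun σ hσ => by
    have h2 := Pool.Agent.R782.Bal.HSph_card hS ((mem_fam φ G σ).1 hσ)
    rwa [Finset.card_map] at h2) hγ hl
  rw [Pool.Agent.R782.Bal.fam_sum φ G (fun c => (-1 / 2 : ℚ) ^ (c - (n - 2 * l)) * (c.choose (n - 2 * l) : ℚ))] at h1
  rw [← h1]
  have h2 := Pool.Agent.N13.EU.Tay.sum_eq G (n - 2 * l)
  have h3 : sumL G (n - 2 * l) = ∑ T : Finset V, (if G.IsClique (T : Set V) ∧ T.card = n - 2 * l then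
      chiL G T else 0) := by
    unfold sumL
    rfl
  rw [h3]
  refine Eq.trans (Finset.sum_congr rfl fun T _ => ?_) (h2.trans ?_)
  · split_ifs <;> rfl
  refine Eq.trans (Finset.sum_congr rfl fun S _ => (?_ : _ = if S ∈ cl G Finset.univ then
    (-1 / 2 : ℚ) ^ (S.card - (n - 2 * l)) * (S.card.choose (n - 2 * l) : ℚ) else 0)) ?_
  · by_cases h : G.IsClique (S : Set V)
    · rw [if_pos h, if_pos ((Pool.Agent.R703.CW.mem_cl_univ S).2 h), mul_comm]
    · rw [if_neg h, if_neg fun h' => h ((Pool.Agent.R703.CW.mem_cl_univ S).1 h')]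
  · rw [Finset.sum_ite_mem, Finset.univ_inter]

/-- **the inequality for the `γ`-vector** -/
theorem gamma_ge {n : ℕ} (hn : 6 ≤ n) (hS : HSph n G) {N : ℕ} (φ : V ≃ Fin N) {γ : ℕ → ℤ}
    (hγ : IsGamma n (fam φ G) γ) :
    0 ≤ ∑ i ∈ Finset.range (n / 2 + 1), (i.choose 3 : ℚ) * γ i / 4 ^ i +
      (n - 4).choose 2 * ∑ i ∈ Finset.range (n / 2 + 1), (i.choose 2 : ℚ) * γ i / 4 ^ i := by
  have h1 := sumL_le hn hS
  have h2 := sumL_gamma hS φ hγ (l := 3) (by omega)
  have h3 := sumL_gamma hS φ hγ (l := 2) (by omega)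
  rw [show n - 6 = n - 2 * 3 by omega, h2, show n - 4 = n - 2 * 2 by omega, h3] at h1
  rw [show n - 4 = n - 2 * 2 by omega]
  have h4 : (0 : ℚ) < 2 ^ n := by positivity
  set x := ∑ i ∈ Finset.range (n / 2 + 1), (i.choose 3 : ℚ) * γ i / 4 ^ i
  set y := ∑ i ∈ Finset.range (n / 2 + 1), (i.choose 2 : ℚ) * γ i / 4 ^ i
  set b : ℚ := (((n - 2 * 2).choose 2 : ℕ) : ℚ)
  have h5 : 0 ≤ 2 ^ n * (x + b * y) := by
    have h6 : (4 : ℚ) * ((-1) ^ 3 * (2 ^ n / 4 ^ 3) * x) = - (2 ^ n * x / 16) := by ring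
    have h7 : b * ((-1) ^ 2 * (2 ^ n / 4 ^ 2) * y) = 2 ^ n * (b * y) / 16 := by ring
    rw [h6, h7] at h1
    have h8 : 2 ^ n * (x + b * y) = 2 ^ n * x + 2 ^ n * (b * y) := by ring
    rw [h8]
    linarith
  exact nonneg_of_mul_nonneg_right h5 h4

end

end Pool.Agent.Run7.h714.DU
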