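import Pool.Agent.Run7.h714.DU.Avg
import Pool.Agent.Run7.h714.DU.Cox

set_option autoImplicit false
set_option linter.unusedSectionVars false

/-!
# The `γ`-vectors of the links of the faces in a set of vertices
-/

namespace Pool.Agent.Run7.h714.DU

open Pool.Agent.W907.SG Pool.Agent.W907.SM Module
open Pool.Agent.TH652.Above (HSph lv_sub lv_set)
open Pool.Agent.N13.EU (chiL t_BR)
open Pool.Agent.R580.CD (Sph fp Phi IsGam lnk gam gam_spec)
open Pool.Agent.R703.CW (hsph_link card_le_of_hsph)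
open Pool.Agent.N613.RP (gv)

section

variable {V : Type} [Fintype V] [LinearOrder V] {G : SimpleGraph V}

/-- the links of the edges of flag homology 5-spheres -/
theorem edge_gamma (hG : Sph ℝ 6 G) {e : Finset V} (he : G.IsClique (e : Set V)) (h2 : e.card = 2) :
    chiL G e = (gv (6 - e.card) (fp G (lnk G e)) 2 : ℚ) / 16 := by
  classical
  have hS := hsph_iff.1 hG
  have h6 := Pool.Agent.N613.RP.link_gam hG he
  rw [h2, show 6 - 2 = 4 from rfl] at h6
  have h7 : fp (G.induce (lk G e)) Set.univ = fp G (lnk G e) :=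
    Pool.Agent.R580.CD.fp_univ_induce G (lk G e)
  have h8 : sumL (G.induce (lk G e)) (4 - 2 * 2) = _ := sumL_phi (h7.trans h6.1) (l := 2) (by norm_num)
  rw [t_BR V G e he, chiW_sumL, h2, show 6 - 2 = 4 from rfl]
  refine h8.trans ?_
  have e : 4 / 2 + 1 = 3 := rfl
  rw [e, Finset.sum_range_succ, Finset.sum_range_succ, Finset.sum_range_one]
  norm_num [Nat.choose]

/-- the edges at a vertex of a flag homology 5-sphere -/
theorem vertex_gamma (hG : Sph ℝ 6 G) (u : V) :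
    ∑ e ∈ (cls G Finset.univ 2).filter (fun e => u ∈ e), chiL G e =
      (gv (6 - ({u} : Finset V).card) (fp G (lnk G {u})) 2 : ℚ) / 8 := by
  classical
  have hS := hsph_iff.1 hG
  have hu : G.IsClique ((({u} : Finset V)) : Set V) := by simp
  have h5 : HSph 5 (G.induce (lk G {u})) := by
    have := hsph_link hS {u} hu
    rwa [Finset.card_singleton] at this
  have h6 := Pool.Agent.N613.RP.link_gam hG hu
  rw [Finset.card_singleton, show 6 - 1 = 5 from rfl] at h6
  have h7 : fp (G.induce (lk G {u})) Set.univ = fp G (lnk G {u}) :=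
    Pool.Agent.R580.CD.fp_univ_induce G (lk G {u})
  have h8 : sumL (G.induce (lk G {u})) (5 - 2 * 2) = _ := sumL_phi (h7.trans h6.1) (l := 2) (by norm_num)
  have h9 := sum_at (G := G) u
  rw [Finset.card_singleton, show 6 - 1 = 5 from rfl]
  refine Eq.trans ?_ (h9.trans (h8.trans ?_))
  · rfl
  · have e : 5 / 2 + 1 = 3 := rfl
    rw [e, Finset.sum_range_succ, Finset.sum_range_succ, Finset.sum_range_one]
    norm_num [Nat.choose]
    ring

/-- inclusion and exclusion for the edges -/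
theorem cT_compl (I B : Finset V) (hB : ∀ v, v ∈ B ↔ v ∉ I) (f : Finset V → ℚ) :
    ∑ e ∈ cls G B 2, f e = ∑ e ∈ cls G Finset.univ 2, f e -
      ∑ v ∈ I, ∑ e ∈ (cls G Finset.univ 2).filter (fun e => v ∈ e), f e + ∑ e ∈ cls G I 2, f e := by
  have h1 : ∑ e ∈ cls G B 2, f e = ∑ e ∈ cls G Finset.univ 2, if (e ∩ I).card = 0 then f e else 0 := by
    rw [← Finset.sum_filter]
    refine Finset.sum_congr ?_ fun _ _ => rfl
    ext e
    rw [mem_cls, Finset.mem_filter, mem_cls, Finset.card_eq_zero]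
    constructor
    · rintro ⟨⟨h1, h2⟩, h3⟩
      refine ⟨⟨⟨Finset.subset_univ _, h2⟩, h3⟩, ?_⟩
      rw [Finset.eq_empty_iff_forall_notMem]
      intro v hv
      rw [Finset.mem_inter] at hv
      exact (hB v).1 (h1 hv.1) hv.2
    · rintro ⟨⟨⟨_, h2⟩, h3⟩, h4⟩
      refine ⟨⟨fun v hv => (hB v).2 fun hI => ?_, h2⟩, h3⟩
      have : v ∈ e ∩ I := Finset.mem_inter.2 ⟨hv, hI⟩
      rw [h4] at this
      exact Finset.notMem_empty _ this
  have h2 : ∑ e ∈ cls G I 2, f e = ∑ e ∈ cls G Finset.univ 2, if (e ∩ I).card = 2 then f e else 0 := by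
    rw [← Finset.sum_filter]
    refine Finset.sum_congr ?_ fun _ _ => rfl
    ext e
    rw [mem_cls, Finset.mem_filter, mem_cls]
    constructor
    · rintro ⟨⟨h1, h2⟩, h3⟩
      refine ⟨⟨⟨Finset.subset_univ _, h2⟩, h3⟩, ?_⟩
      rw [Finset.inter_eq_left.2 h1, h2]
    · rintro ⟨⟨⟨_, h2⟩, h3⟩, h4⟩
      refine ⟨⟨?_, h2⟩, h3⟩
      have h5 : e ∩ I = e := Finset.eq_of_subset_of_card_le Finset.inter_subset_left (by rw [h4, h2])
      exact Finset.inter_eq_left.1 h5
  have h3 : ∑ v ∈ I, ∑ e ∈ (cls G Finset.univ 2).filter (fun e => v ∈ e), f e =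
      ∑ e ∈ cls G Finset.univ 2, ((e ∩ I).card : ℚ) * f e := by
    simp only [Finset.sum_filter]
    rw [Finset.sum_comm]
    refine Finset.sum_congr rfl fun e _ => ?_
    rw [← Finset.sum_filter, Finset.sum_const, nsmul_eq_mul, Finset.inter_comm, ← Finset.filter_mem_eq_inter]
  rw [h1, h2, h3, ← Finset.sum_sub_distrib, ← Finset.sum_add_distrib]
  refine Finset.sum_congr rfl fun e he => ?_
  rw [mem_cls] at he
  have h4 := Finset.card_le_card (Finset.inter_subset_left : e ∩ I ⊆ e)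
  rw [he.1.2] at h4
  have h5 : (e ∩ I).card = 0 ∨ (e ∩ I).card = 1 ∨ (e ∩ I).card = 2 := by omega
  rcases h5 with h | h | h <;> rw [h] <;> norm_num
  ring

/-- **the corrections for a set of vertices** -/
theorem gam_set (hG : Sph ℝ 6 G) (I B : Finset V) (hB : ∀ v, v ∈ B ↔ v ∉ I) (h : 4 * chiW G ≤ cT G B 2) :
    1 / 2 * ∑ v ∈ I, (gv (6 - ({v} : Finset V).card) (fp G (lnk G {v})) 2 : ℚ) ≤
      (gam 6 G 2 + gam 6 G 3 : ℚ) + 1 / 4 * ∑ e ∈ cls G I 2, (gv (6 - e.card) (fp G (lnk G e)) 2 : ℚ) := by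
  classical
  have h1 : cT G B 2 = _ := cT_compl (G := G) I B hB (chiL G)
  have h2 : sumL G (6 - 2 * 3) = _ := sumL_phi (gam_spec hG).1 (l := 3) (by norm_num)
  have h3 : sumL G (6 - 2 * 2) = _ := sumL_phi (gam_spec hG).1 (l := 2) (by norm_num)
  have e : 6 / 2 + 1 = 4 := rfl
  rw [e, Finset.sum_range_succ, Finset.sum_range_succ, Finset.sum_range_succ, Finset.sum_range_one] at h2 h3
  norm_num [Nat.choose] at h2 h3
  have h4 : ∑ e ∈ cls G Finset.univ 2, chiL G e = sumL G 2 := cT_univ 2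
  have h5 : ∑ v ∈ I, ∑ e ∈ (cls G Finset.univ 2).filter (fun e => v ∈ e), chiL G e =
      1 / 8 * ∑ v ∈ I, (gv (6 - ({v} : Finset V).card) (fp G (lnk G {v})) 2 : ℚ) := by
    rw [Finset.mul_sum]
    refine Finset.sum_congr rfl fun v _ => ?_
    rw [vertex_gamma hG v]
    ring
  have h6 : ∑ e ∈ cls G I 2, chiL G e =
      1 / 16 * ∑ e ∈ cls G I 2, (gv (6 - e.card) (fp G (lnk G e)) 2 : ℚ) := by
    rw [Finset.mul_sum]
    refine Finset.sum_congr rfl fun e he => ?_
    rw [mem_cls] at he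
    rw [edge_gamma hG he.2 he.1.2]
    ring
  rw [h1, h4, h5, h6, h3, chiW_sumL, h2] at h
  linarith

/-- **Coxeter weights** -/
theorem omega_set (hG : HSph 6 G) {w : Finset V → ℕ} {M : Finset V → ℚ} (hM : Pool.Agent.R703.CW.Orders G w M)
    (B : Finset V) (h : 4 * chiW G ≤ cT G B 2) :
    Pool.Agent.R703.CW.omegaN G M ≤ ∑ e ∈ cls G B 2, chiL G e / M e -
      ∑ e ∈ (cls G Finset.univ 2).filter (fun e => ¬ e ⊆ B), (1 / 4 - 1 / M e) * chiL G e := by
  classical
  have h1 := omega_le hG hM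
  have h2 : cls G B 2 = (cls G Finset.univ 2).filter (fun e => e ⊆ B) := by
    ext e
    rw [mem_cls, Finset.mem_filter, mem_cls]
    constructor
    · rintro ⟨⟨h1, h2⟩, h3⟩
      exact ⟨⟨⟨Finset.subset_univ _, h2⟩, h3⟩, h1⟩
    · rintro ⟨⟨⟨_, h2⟩, h3⟩, h4⟩
      exact ⟨⟨h4, h2⟩, h3⟩
  have h3 := Finset.sum_filter_add_sum_filter_not (cls G Finset.univ 2) (fun e => e ⊆ B)
    (fun e => (1 / M e - 1 / 4) * chiL G e)
  rw [← h3] at h1
  have h4 : ∑ e ∈ (cls G Finset.univ 2).filter (fun e => ¬ e ⊆ B), (1 / M e - 1 / 4) * chiL G e =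
      - ∑ e ∈ (cls G Finset.univ 2).filter (fun e => ¬ e ⊆ B), (1 / 4 - 1 / M e) * chiL G e := by
    rw [← Finset.sum_neg_distrib]
    exact Finset.sum_congr rfl fun e _ => by ring
  have h5 : ∑ e ∈ (cls G Finset.univ 2).filter (fun e => e ⊆ B), (1 / M e - 1 / 4) * chiL G e =
      ∑ e ∈ cls G B 2, chiL G e / M e - 1 / 4 * cT G B 2 := by
    unfold cT
    rw [← h2, Finset.mul_sum, ← Finset.sum_sub_distrib]
    exact Finset.sum_congr rfl fun e _ => by ring
  rw [h4, h5] at h1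
  linarith

end

end Pool.Agent.Run7.h714.DU
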