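import Pool.Agent.Run7.h714.DU.Lin

set_option autoImplicit false
set_option linter.unusedSectionVars false

/-!
# The two eigenspaces of a generator
-/

namespace Pool.Agent.Run7.h714.DU

open Pool.Agent.W907.SG Module
open Pool.Agent.W397.SG (EE EE_apply EE_bd KK_iff)

section

variable {V F M : Type} [Fintype V] [LinearOrder V] [Field F] [AddCommGroup M] [Module F M]
  [FiniteDimensional F M] {G : SimpleGraph V} {ρ : V → M →ₗ[F] M}

/-- a sign for the generator `w`: an involution of the module which commutes with the other generators and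
anticommutes with `w` -/
structure Sgn (ρ : V → M →ₗ[F] M) (w : V) (e : M ≃ₗ[F] M) : Prop where
  inv : ∀ m, e (e m) = m
  self : ∀ m, e (ρ w m) = - ρ w (e m)
  other : ∀ v, v ≠ w → ∀ m, e (ρ v m) = ρ v (e m)

theorem ee_mem {w : V} {e : M ≃ₗ[F] M} (he : Sgn ρ w e) {A S : Set V} (hA : w ∉ A) (hS : w ∉ S) {i : ℕ}
    {c : Finset V → M} (hc : c ∈ KK G ρ A S i) : EE V e c ∈ KK G ρ A S i := by
  rw [mem_KK] at hc ⊢
  refine ⟨fun T hT => by rw [EE_apply, hc.1 T hT, map_zero], fun T t ht => ?_⟩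
  by_cases h0 : c T = 0
  · rw [EE_apply, h0, map_zero, map_zero, neg_zero]
  · have hT : G.IsClique (T : Set V) ∧ (T : Set V) ⊆ A ∧ T.card = i := by
      by_contra hn
      exact h0 (hc.1 T hn)
    have htw : t ≠ w := by
      rintro rfl
      rcases ht with ht | ht
      · exact hA (hT.2.1 ht)
      · exact hS ht
    rw [EE_apply, ← he.other t htw, hc.2 T t ht, map_neg]

theorem ee_ZZ {w : V} {e : M ≃ₗ[F] M} (he : Sgn ρ w e) {A S : Set V} (hA : w ∉ A) (hS : w ∉ S) {i : ℕ}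
    {c : Finset V → M} (hc : c ∈ ZZ G ρ A S i) : EE V e c ∈ ZZ G ρ A S i := by
  refine ⟨ee_mem he hA hS hc.1, ?_⟩
  have h : bd F c = 0 := hc.2
  show bd F (EE V e c) = 0
  rw [EE_bd, h, map_zero]

theorem ee_BB {w : V} {e : M ≃ₗ[F] M} (he : Sgn ρ w e) {A S : Set V} (hA : w ∉ A) (hS : w ∉ S) {i : ℕ}
    {c : Finset V → M} (hc : c ∈ BB G ρ A S i) : EE V e c ∈ BB G ρ A S i := by
  obtain ⟨d, hd, rfl⟩ := hc
  exact ⟨EE V e d, ee_mem he hA hS hd, EE_bd e d⟩

/-- a subspace of the `-1` eigenspace and its image under the sign are independent -/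
theorem two_le (h2 : (2 : F) ≠ 0) {w : V} {e : M ≃ₗ[F] M} (he : Sgn ρ w e)
    {P R : Submodule F (Finset V → M)} (h1 : ∀ c ∈ P, ∀ T, ρ w (c T) = - c T) (hP : P ≤ R)
    (hR : ∀ c ∈ R, EE V e c ∈ R) : 2 * finrank F P ≤ finrank F R := by
  have h3 : P ⊓ P.map (EE V e : (Finset V → M) →ₗ[F] (Finset V → M)) = ⊥ := by
    rw [eq_bot_iff]
    rintro _ ⟨hc, ⟨d, hd, rfl⟩⟩
    rw [Submodule.mem_bot]
    have hc : EE V e d ∈ P := hc
    show EE V e d = 0
    funext T
    have h4 := h1 _ hc T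
    have h5 := he.self (d T)
    rw [h1 d hd T, map_neg, neg_inj] at h5
    rw [EE_apply] at h4 ⊢
    rw [← h5] at h4
    have h6 : (2 : F) • e (d T) = 0 := by
      rw [two_smul]
      nth_rewrite 1 [h4]
      rw [neg_add_cancel]
    exact (smul_eq_zero.1 h6).resolve_left h2
  have h4 := Submodule.finrank_sup_add_finrank_inf_eq P (P.map (EE V e : (Finset V → M) →ₗ[F] (Finset V → M)))
  rw [h3, finrank_bot, add_zero, LinearEquiv.finrank_map_eq] at h4
  have h5 : P ⊔ P.map (EE V e : (Finset V → M) →ₗ[F] (Finset V → M)) ≤ R := by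
    refine sup_le hP ?_
    rintro _ ⟨d, hd, rfl⟩
    exact hR d (hP hd)
  have h6 := Submodule.finrank_mono h5
  omega

/-- the boundaries split -/
theorem BB_le_two (h2 : (2 : F) ≠ 0) {w : V} {e : M ≃ₗ[F] M} (he : Sgn ρ w e) (hw : ∀ m, ρ w (ρ w m) = m)
    {B : Set V} (hB : w ∉ B) (hc : ∀ u ∈ B, ∀ m, ρ u (ρ w m) = ρ w (ρ u m)) (i : ℕ) :
    finrank F (BB G ρ B ∅ i) ≤ 2 * finrank F (BB G ρ B (insert w ∅) i) := by
  have h3 : BB G ρ B ∅ i ≤ BB G ρ B (insert w ∅) i ⊔
      (BB G ρ B (insert w ∅) i).map (EE V e : (Finset V → M) →ₗ[F] (Finset V → M)) := by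
    rintro _ ⟨c, hc', rfl⟩
    have hc' : c ∈ KK G ρ B ∅ (i + 1) := hc'
    have hm := hc'
    rw [mem_KK] at hc'
    have h4 : ∀ (s : F) (c' : Finset V → M), (∀ T, c' T = c T + s • ρ w (c T)) →
        c' ∈ KK G ρ B ∅ (i + 1) := by
      intro s c' hs
      rw [mem_KK]
      refine ⟨fun T hT => by rw [hs, hc'.1 T hT, map_zero, smul_zero, add_zero], fun T t ht => ?_⟩
      by_cases h0 : c T = 0
      · rw [hs, h0, map_zero, smul_zero, add_zero, map_zero, neg_zero]
      · have hT : G.IsClique (T : Set V) ∧ (T : Set V) ⊆ B ∧ T.card = i + 1 := by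
          by_contra hn
          exact h0 (hc'.1 T hn)
        rcases ht with ht | ht
        · rw [hs, map_add, map_smul, hc t (hT.2.1 ht), hc'.2 T t (Or.inl ht), map_neg, smul_neg, neg_add]
        · exact absurd ht (Set.notMem_empty _)
    obtain ⟨cm, hcm⟩ : ∃ cm : Finset V → M, ∀ T, cm T = c T + (-1 : F) • ρ w (c T) := ⟨_, fun _ => rfl⟩
    obtain ⟨cp, hcp⟩ : ∃ cp : Finset V → M, ∀ T, cp T = c T + (1 : F) • ρ w (c T) := ⟨_, fun _ => rfl⟩
    have h5 : cm ∈ KK G ρ B (insert w ∅) (i + 1) := by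
      have h6 := h4 _ cm hcm
      rw [mem_KK] at h6 ⊢
      refine ⟨h6.1, fun T t ht => ?_⟩
      rcases ht with ht | ht
      · exact h6.2 T t (Or.inl ht)
      · rcases ht with ht | ht
        · rw [ht, hcm, map_add, map_smul, hw]
          module
        · exact absurd ht (Set.notMem_empty _)
    have h6 : EE V e cp ∈ KK G ρ B (insert w ∅) (i + 1) := by
      have h7 := ee_mem he hB (Set.notMem_empty w) (h4 _ cp hcp)
      rw [mem_KK] at h7 ⊢
      refine ⟨h7.1, fun T t ht => ?_⟩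
      rcases ht with ht | ht
      · exact h7.2 T t (Or.inl ht)
      · rcases ht with ht | ht
        · rw [ht, EE_apply]
          have h8 := he.self (cp T)
          have h9 : ρ w (cp T) = cp T := by
            rw [hcp, map_add, map_smul, hw]
            module
          rw [h9] at h8
          rw [eq_comm, neg_eq_iff_eq_neg, ← h8]
        · exact absurd ht (Set.notMem_empty _)
    have h7 : c = (2 : F)⁻¹ • (cm + EE V e (EE V e cp)) := by
      funext T
      rw [Pi.smul_apply, Pi.add_apply, EE_apply, EE_apply, he.inv, hcm, hcp, eq_inv_smul_iff₀ h2]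
      module
    rw [h7, map_smul, map_add, EE_bd]
    refine Submodule.smul_mem _ _ (Submodule.add_mem _ (Submodule.mem_sup_left ⟨_, h5, rfl⟩)
      (Submodule.mem_sup_right ⟨_, ⟨_, h6, rfl⟩, rfl⟩))
  refine (Submodule.finrank_mono h3).trans ((Submodule.finrank_add_le_finrank_add_finrank _ _).trans ?_)
  rw [LinearEquiv.finrank_map_eq, two_mul]

/-- the Betti numbers of the `-1` eigenspace are at most one half -/
theorem two_beta (h2 : (2 : F) ≠ 0) {w : V} {e : M ≃ₗ[F] M} (he : Sgn ρ w e) (hw : ∀ m, ρ w (ρ w m) = m)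
    {B : Set V} (hB : w ∉ B) (hc : ∀ u ∈ B, ∀ m, ρ u (ρ w m) = ρ w (ρ u m)) (i : ℕ) :
    2 * beta G ρ B (insert w ∅) i ≤ beta G ρ B ∅ i := by
  have h3 := two_le (P := ZZ G ρ B (insert w ∅) i) (R := ZZ G ρ B ∅ i) h2 he
    (fun c hc T => hc.1.2 T w (Or.inr (Set.mem_insert _ _))) (ZZ_anti (Set.empty_subset _))
    (fun c hc => ee_ZZ he hB (Set.notMem_empty w) hc)
  have h4 := BB_le_two (G := G) h2 he hw hB hc i
  unfold beta
  omega

/-- the kernels on the `-1` eigenspace are at most one half -/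
theorem two_kap (h2 : (2 : F) ≠ 0) {w : V} {e : M ≃ₗ[F] M} (he : Sgn ρ w e) (hw : ∀ m, ρ w (ρ w m) = m)
    {B A : Set V} (hB : w ∉ B) (hA : w ∉ A) (hc : ∀ u ∈ B, ∀ m, ρ u (ρ w m) = ρ w (ρ u m)) (i : ℕ) :
    2 * (finrank F (ZZ G ρ B (insert w ∅) i ⊓ BB G ρ A ∅ i : Submodule F (Finset V → M)) -
      finrank F (BB G ρ B (insert w ∅) i)) ≤ kap G ρ B A ∅ i := by
  have h3 := two_le (P := ZZ G ρ B (insert w ∅) i ⊓ BB G ρ A ∅ i) (R := ZZ G ρ B ∅ i ⊓ BB G ρ A ∅ i) h2 he
    (fun c hc T => hc.1.1.2 T w (Or.inr (Set.mem_insert _ _))) (inf_le_inf_right _ (ZZ_anti (Set.empty_subset _)))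
    (fun c hc => ⟨ee_ZZ he hB (Set.notMem_empty w) hc.1, ee_BB he hA (Set.notMem_empty w) hc.2⟩)
  have h4 := BB_le_two (G := G) h2 he hw hB hc i
  unfold kap
  omega

/-- adding a vertex -/
theorem beta_add (h2 : (2 : F) ≠ 0) {w : V} {e : M ≃ₗ[F] M} (he : Sgn ρ w e) (hw : ∀ m, ρ w (ρ w m) = m)
    {A : Set V} (hA : w ∉ A) (hc : ∀ u, G.Adj u w → ∀ m, ρ u (ρ w m) = ρ w (ρ u m)) (i : ℕ) :
    2 * beta G ρ (insert w A) ∅ (i + 1) ≤ 2 * beta G ρ A ∅ (i + 1) + kap G ρ (A ∩ G.neighborSet w) A ∅ i := by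
  have h3 := vertK (G := G) (ρ := ρ) (S := ∅) hA i
  have h4 := two_kap (G := G) h2 he hw (B := A ∩ G.neighborSet w) (A := A) (fun h => hA h.1) hA
    (fun u hu => hc u ((G.mem_neighborSet w u).1 hu.2).symm) i
  omega

end

/-! ### functions on finite sets with signs -/

section

variable {V X : Type} [Fintype V] [LinearOrder V] [Fintype X]

/-- multiplication by the sign of `w` -/
noncomputable def sw (sgn : V → X → Bool) (w : V) : (X → ℝ) ≃ₗ[ℝ] (X → ℝ) where
  toFun f x := (if sgn w x then (-1 : ℝ) else 1) * f x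
  invFun f x := (if sgn w x then (-1 : ℝ) else 1) * f x
  map_add' f g := by
    funext x
    rw [Pi.add_apply, Pi.add_apply, mul_add]
  map_smul' r f := by
    funext x
    simp only [Pi.smul_apply, smul_eq_mul, RingHom.id_apply]
    ring
  left_inv f := by
    funext x
    dsimp only
    split_ifs <;> ring
  right_inv f := by
    funext x
    dsimp only
    split_ifs <;> ring

theorem sw_apply (sgn : V → X → Bool) (w : V) (f : X → ℝ) (x : X) :
    sw sgn w f x = (if sgn w x then (-1 : ℝ) else 1) * f x := rfl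

theorem sgn_sw {a : V → X → X} {sgn : V → X → Bool} (h1 : ∀ v x, sgn v (a v x) = !(sgn v x))
    (h2 : ∀ u v, u ≠ v → ∀ x, sgn u (a v x) = sgn u x) (w : V) : Sgn (pull ℝ a) w (sw sgn w) where
  inv m := by
    funext x
    rw [sw_apply, sw_apply]
    split_ifs <;> ring
  self m := by
    funext x
    rw [sw_apply, Pi.neg_apply, pull_apply, pull_apply, sw_apply, h1]
    cases sgn w x <;> simp
  other v hv m := by
    funext x
    rw [sw_apply, pull_apply, pull_apply, sw_apply, h2 w v hv.symm]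

end

end Pool.Agent.Run7.h714.DU
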