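import Pool.Agent.Run7.h714.DU.Col
import Pool.Agent.Y132.SI.Up

set_option autoImplicit false
set_option linter.unusedSectionVars false

/-!
# Betti numbers of the quotients of the subcomplexes of the Davis complex
-/

namespace Pool.Agent.Run7.h714.DU

open Module Pool.Agent.W907.SG Pool.Agent.W907.SM Pool.Agent.Y132.SI
open Pool.Agent.TH652.Above (HSph)
open Pool.Agent.N13.EU (chiL)

/-- The space of the real harmonic `i`-chains, invariant under the subgroup `H` of `W G`, of the subcomplex of the
Davis complex of `W G` which consists of all the cubes `w W_T` with `T ⊆ A` (it is the disjoint union of copies of the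
Davis complex of the special subgroup `W_A`, one for each coset of `W_A`). `c w T` is the coefficient of the cube
`w W_T` with the orientation given by the corner `w` and the order of `T`. -/
def HInvA {V : Type} [Fintype V] [LinearOrder V] (G : SimpleGraph V) (H : Subgroup (W G)) (A : Finset V) (i : ℕ) :
    Submodule ℝ (W G → Finset ↥(A : Set V) → ℝ) where
  carrier := {c | (∀ h ∈ H, ∀ w T, c (h * w) T = c w T) ∧
    (∀ w (T : Finset ↥(A : Set V)), ¬ ((G.induce (A : Set V)).IsClique (T : Set ↥(A : Set V)) ∧ T.card = i) →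
      c w T = 0) ∧
    (∀ w (T : Finset ↥(A : Set V)) t, t ∈ T → c (w * (cox G).simple t.1) T = - c w T) ∧
    (∀ w (T : Finset ↥(A : Set V)), ∑ v ∈ Tᶜ, (sg v T : ℝ) * c w (insert v T) = 0) ∧
    (∀ w (T : Finset ↥(A : Set V)), (G.induce (A : Set V)).IsClique (T : Set ↥(A : Set V)) →
      ∑ t ∈ T, (sg t (T.erase t) : ℝ) * (c w (T.erase t) - c (w * (cox G).simple t.1) (T.erase t)) = 0)}
  add_mem' := by
    rintro c d ⟨h1, h2, h3, h4, h5⟩ ⟨g1, g2, g3, g4, g5⟩
    refine ⟨fun h hh w T => ?_, fun w T hT => ?_, fun w T t ht => ?_, fun w T => ?_, fun w T hT => ?_⟩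
    · simp only [Pi.add_apply, h1 h hh, g1 h hh]
    · simp only [Pi.add_apply, h2 w T hT, g2 w T hT, add_zero]
    · simp only [Pi.add_apply, h3 w T t ht, g3 w T t ht]; ring
    · have := congrArg₂ (· + ·) (h4 w T) (g4 w T)
      simp only [add_zero] at this
      rw [← Finset.sum_add_distrib] at this
      rw [← this]
      exact Finset.sum_congr rfl fun v _ => by simp only [Pi.add_apply]; ring
    · have := congrArg₂ (· + ·) (h5 w T hT) (g5 w T hT)
      simp only [add_zero] at this
      rw [← Finset.sum_add_distrib] at this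
      rw [← this]
      exact Finset.sum_congr rfl fun v _ => by simp only [Pi.add_apply]; ring
  zero_mem' := by
    refine ⟨fun h hh w T => rfl, fun w T hT => rfl, fun w T t ht => ?_, fun w T => ?_, fun w T hT => ?_⟩
    · simp
    · simp
    · simp
  smul_mem' := by
    rintro r c ⟨h1, h2, h3, h4, h5⟩
    refine ⟨fun h hh w T => ?_, fun w T hT => ?_, fun w T t ht => ?_, fun w T => ?_, fun w T hT => ?_⟩
    · simp only [Pi.smul_apply, h1 h hh]
    · simp only [Pi.smul_apply, h2 w T hT, smul_zero]
    · simp only [Pi.smul_apply, h3 w T t ht, smul_neg]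
    · have := congrArg (fun x => r * x) (h4 w T)
      simp only [mul_zero, Finset.mul_sum] at this
      rw [← this]
      exact Finset.sum_congr rfl fun v _ => by simp only [Pi.smul_apply, smul_eq_mul]; ring
    · have := congrArg (fun x => r * x) (h5 w T hT)
      simp only [mul_zero, Finset.mul_sum] at this
      rw [← this]
      exact Finset.sum_congr rfl fun v _ => by simp only [Pi.smul_apply, smul_eq_mul]; ring

/-- the pull-back of functions -/
noncomputable def PBA {V : Type} (G : SimpleGraph V) (H : Subgroup (W G)) (A : Finset V) :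
    (Quotient (QuotientGroup.rightRel H) → Finset ↥(A : Set V) → ℝ) →ₗ[ℝ] (W G → Finset ↥(A : Set V) → ℝ) where
  toFun c w T := c (Quotient.mk'' w) T
  map_add' _ _ := rfl
  map_smul' _ _ := rfl

/-- the Hodge theorem -/
theorem finrank_HInvA {V : Type} [Fintype V] [LinearOrder V] (G : SimpleGraph V) (H : Subgroup (W G))
    [Fintype (Quotient (QuotientGroup.rightRel H))] (A : Finset V) (i : ℕ) :
    finrank ℝ (HInvA G H A i) = beta G (pull ℝ (aa G H)) (A : Set V) ∅ i := by
  have e0 : beta G (pull ℝ (aa G H)) (A : Set V) ∅ i =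
      beta (G.induce (A : Set V)) (pull ℝ (fun u : ↥(A : Set V) => aa G H u.1)) Set.univ ∅ i := by
    rw [beta_sub, Set.image_univ, Subtype.range_coe]
  rw [e0, ← hodr ↥(A : Set V) _ (G.induce (A : Set V)) (fun u : ↥(A : Set V) => aa G H u.1)
    (fun v x => aa_inv G H v.1 x) (fun u v h x => aa_comm G H u.1 v.1 h x) i
    ((HInvA G H A i).comap (PBA G H A)) ?_]
  · have hinj : Function.Injective (PBA G H A) := by
      intro c d h
      funext x T
      induction x using Quotient.inductionOn' with
      | h w => exact congrFun (congrFun h w) T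
    have hmap : ((HInvA G H A i).comap (PBA G H A)).map (PBA G H A) = HInvA G H A i := by
      rw [Submodule.map_comap_eq]
      refine inf_eq_right.2 ?_
      intro c hc
      refine ⟨fun x T => Quotient.liftOn' x (fun w => c w T) (fun a b hab => ?_), rfl⟩
      rw [QuotientGroup.rightRel_apply] at hab
      have h1 := hc.1 _ hab a T
      rw [inv_mul_cancel_right] at h1
      exact h1.symm
    have e := (Submodule.equivMapOfInjective (PBA G H A) hinj ((HInvA G H A i).comap (PBA G H A))).finrank_eq
    rw [hmap] at e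
    exact e.symm
  · intro c
    rw [Submodule.mem_comap]
    constructor
    · rintro ⟨_, h2, h3, h4, h5⟩
      refine ⟨fun x T hT => ?_, fun x T t ht => ?_, fun x T => ?_, fun x T hT => ?_⟩
      · induction x using Quotient.inductionOn' with
        | h w => exact h2 w T hT
      · induction x using Quotient.inductionOn' with
        | h w => exact h3 w T t ht
      · induction x using Quotient.inductionOn' with
        | h w => exact h4 w T
      · induction x using Quotient.inductionOn' with
        | h w => exact h5 w T hT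
    · rintro ⟨h2, h3, h4, h5⟩
      refine ⟨fun h hh w T => ?_, fun w T hT => h2 _ T hT, fun w T t ht => h3 (Quotient.mk'' w) T t ht,
        fun w T => h4 (Quotient.mk'' w) T, fun w T hT => h5 (Quotient.mk'' w) T hT⟩
      show c (Quotient.mk'' (h * w)) T = c (Quotient.mk'' w) T
      have : (Quotient.mk'' (h * w) : Quotient (QuotientGroup.rightRel H)) = Quotient.mk'' w := by
        refine Quotient.sound' ?_
        rw [QuotientGroup.rightRel_apply, mul_inv_rev, mul_inv_cancel_left]
        exact H.inv_mem hh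
      rw [this]

/-- **growth of the Betti numbers of the full subcomplexes** -/
theorem growth_sub (k : ℕ) {V : Type} [Fintype V] [LinearOrder V] {G : SimpleGraph V} (hS : HSph (k + 5) G)
    (ε : ℝ) (hε : 0 < ε) :
    ∃ E : Finset (W G), (1 : W G) ∉ E ∧ ∀ H : Subgroup (W G), H ≤ commutator (W G) → H.FiniteIndex →
      (∀ g ∈ E, ∀ x : W G, x * g * x⁻¹ ∉ H) →
      (∀ (A : Finset V) (i : ℕ), k + 4 ≤ i → (finrank ℝ (HInvA G H A i) : ℝ) ≤ ε * H.index) ∧
      (∀ A₀ B : Finset V, (∀ v ∈ B, v ∉ A₀) → (∀ R : Finset V, G.IsClique (R : Set V) → R ⊆ B → R.card ≤ k →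
          LV (G.induce ((A₀ : Set V) ∩ lk G R)) (k + 3 - R.card)) →
        (finrank ℝ (HInvA G H (A₀ ∪ B) (k + 3)) : ℝ) ≤ (((cT G B (k + 1) / 2 ^ (k + 2) : ℚ) : ℝ) + ε) * H.index) := by
  classical
  set c := Fintype.card V with hc
  set C : ℝ := (c + 1) * (2 * (c + 2) ^ (k + 2)) + 1 with hC
  have hC0 : 0 < C := by positivity
  obtain ⟨N, hN⟩ := exists_nat_gt (C / ε)
  have hNC : C < N * ε := (div_lt_iff₀ hε).1 hN
  have hN0 : (0 : ℝ) < N := lt_of_le_of_lt (by positivity) hN
  have hNpos : 0 < N := by exact_mod_cast hN0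
  obtain ⟨E, hE, hsm⟩ := big_small G N
  refine ⟨E, hE, fun H hH hfin hEH => ?_⟩
  haveI : Finite (Quotient (QuotientGroup.rightRel H)) :=
    Finite.of_equiv _ (QuotientGroup.quotientRightRelEquivQuotientLeftRel H).symm
  letI : Fintype (Quotient (QuotientGroup.rightRel H)) := Fintype.ofFinite _
  have hcard : Fintype.card (Quotient (QuotientGroup.rightRel H)) = H.index := by
    rw [← Nat.card_eq_fintype_card, Nat.card_congr (QuotientGroup.quotientRightRelEquivQuotientLeftRel H)]
    rfl
  have hact : Act G (aa G H) (sn G H hH) := ⟨aa_inv G H, fun u v h x => aa_comm G H u v h x, sn_self G H hH,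
    fun u v huv x => sn_other G H hH u v huv x⟩
  have key := hsm _ (aa G H) (ev G H) (aa_inv G H) (fun u v h x => aa_comm G H u v h x)
    (ev_one G H) (ev_mul G H) (fun _ _ => rfl) (fun g hg x => ev_free G H (fun y => hEH g hg y) x)
  rw [hcard] at key
  set η := H.index / N with hη
  have hdiv : ∀ j : ℕ, N * j ≤ H.index → j ≤ η := by
    intro j hj
    rw [hη, Nat.le_div_iff_mul_le hNpos, mul_comm]
    exact hj
  have hηN : (N : ℝ) * η ≤ H.index := by
    have := Nat.mul_div_le H.index N
    exact_mod_cast this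
  have hη0 : (0 : ℝ) ≤ η := Nat.cast_nonneg _
  have hidx : (0 : ℝ) ≤ H.index := Nat.cast_nonneg _
  have hCη : C * η ≤ ε * H.index := by
    have h1 : C * η ≤ N * ε * η := mul_le_mul_of_nonneg_right hNC.le hη0
    have h2 : N * ε * η = ε * (N * η) := by ring
    rw [h2] at h1
    exact h1.trans (mul_le_mul_of_nonneg_left hηN hε.le)
  refine ⟨?_, ?_⟩
  · intro A i hi
    rw [finrank_HInvA]
    have h1 : LV (G.induce (A : Set V)) i := by
      have hS' : HSph ((k + 1) + 4) G := hS
      exact lv_top hS' ∅ (by simp) (A : Set V) (by rw [lk_empty']; exact Set.subset_univ _) i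
        (by rw [Finset.card_empty]; omega) (by omega)
    have h2 := hdiv _ (key (A : Set V) i h1)
    have h3 : (beta G (pull ℝ (aa G H)) (A : Set V) ∅ i : ℝ) ≤ η := by exact_mod_cast h2
    have h4 : (1 : ℝ) ≤ C := by
      rw [hC]
      have : (0 : ℝ) ≤ (c + 1) * (2 * (c + 2) ^ (k + 2)) := by positivity
      linarith
    nlinarith
  · intro A₀ B hd h0
    rw [finrank_HInvA]
    have hSm : Sm G (aa G H) (k + 5) η := by
      intro T hT B hB i hi
      refine hdiv _ (key B i ?_)
      exact link_abv hS T hT (by omega) B hB i (by omega)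
    have hR := top_rel k V G (aa G H) (sn G H hH) η hS hact hSm (A₀ : Set V) B
      (fun v hv h => hd v hv (Finset.mem_coe.1 h)) (fun R hR hRB hRk => hdiv _ (key _ _ (h0 R hR hRB hRk)))
    rw [hcard, ← Finset.coe_union] at hR
    have h1 := (Rat.cast_le (K := ℝ)).2 hR
    push_cast at h1
    push_cast
    have h2 : ((B.card : ℝ) + 1) * (2 * ((Fintype.card V : ℝ) + 2) ^ (k + 2) * η) ≤ C * η := by
      have h3 : (B.card : ℝ) ≤ c := by exact_mod_cast Finset.card_le_univ _
      have h4 : ((B.card : ℝ) + 1) * (2 * ((Fintype.card V : ℝ) + 2) ^ (k + 2)) ≤ C := by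
        rw [hC, ← hc]
        have h5 : (0 : ℝ) ≤ 2 * ((c : ℝ) + 2) ^ (k + 2) := by positivity
        have h6 := mul_le_mul_of_nonneg_right (add_le_add_left h3 1) h5
        linarith
      calc ((B.card : ℝ) + 1) * (2 * ((Fintype.card V : ℝ) + 2) ^ (k + 2) * η) =
          ((B.card : ℝ) + 1) * (2 * ((Fintype.card V : ℝ) + 2) ^ (k + 2)) * η := by ring
        _ ≤ _ := mul_le_mul_of_nonneg_right h4 hη0
    have h3 : (0 : ℝ) < 2 ^ (k + 2) := by positivity
    have h4 : (1 : ℝ) ≤ 2 ^ (k + 2) := one_le_pow₀ (by norm_num)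
    have h5 : 2 ^ (k + 2) * (beta G (pull ℝ (aa G H)) ((A₀ : Set V) ∪ (B : Set V)) ∅ (k + 3) : ℝ) ≤
        (cT G B (k + 1) : ℝ) * H.index + ε * H.index := by
      linarith
    have h6 : (((cT G B (k + 1) : ℝ) / 2 ^ (k + 2)) + ε) * H.index =
        ((cT G B (k + 1) : ℝ) * H.index + 2 ^ (k + 2) * (ε * H.index)) / 2 ^ (k + 2) := by
      field_simp
    rw [h6, le_div_iff₀ h3]
    have h7 : ε * H.index ≤ 2 ^ (k + 2) * (ε * H.index) := by
      have h8 : 0 ≤ ε * H.index := by positivity
      nlinarith
    linarith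

end Pool.Agent.Run7.h714.DU
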