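import Pool.Agent.W907.SG.All

set_option autoImplicit false
set_option linter.unusedSectionVars false

/-!
# The kernel of the restriction to a full subcomplex

`kap G ρ B A S i` is the dimension of the kernel of the map from the homology of `B` to the homology of `A`.
-/

namespace Pool.Agent.Run7.h714.DU

open Pool.Agent.W907.SG Module
open Pool.Agent.W347.SGV (qq qq_apply qq_of_mem qq_of_not qq_bd qq_mem lift lift_mem qq_lift KK_mono mem_of_qq)
open Pool.Agent.W397.SG (rank_null EE EE_apply EE_bd KK_iff)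

section

variable {V F M : Type} [Fintype V] [LinearOrder V] [Field F] [AddCommGroup M] [Module F M]
  {G : SimpleGraph V} {ρ : V → M →ₗ[F] M}

theorem BB_mono' {A B S : Set V} {i : ℕ} (h : A ⊆ B) : BB G ρ A S i ≤ BB G ρ B S i :=
  Submodule.map_mono (KK_mono h)

theorem ZZ_mono' {A B S : Set V} {i : ℕ} (h : A ⊆ B) : ZZ G ρ A S i ≤ ZZ G ρ B S i :=
  inf_le_inf_right _ (KK_mono h)

theorem KK_anti {A S S' : Set V} {i : ℕ} (h : S ⊆ S') : KK G ρ A S' i ≤ KK G ρ A S i := by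
  intro c hc
  rw [mem_KK] at hc ⊢
  exact ⟨hc.1, fun T t ht => hc.2 T t (ht.imp id fun h' => h h')⟩

theorem BB_anti {A S S' : Set V} {i : ℕ} (h : S ⊆ S') : BB G ρ A S' i ≤ BB G ρ A S i :=
  Submodule.map_mono (KK_anti h)

theorem ZZ_anti {A S S' : Set V} {i : ℕ} (h : S ⊆ S') : ZZ G ρ A S' i ≤ ZZ G ρ A S i :=
  inf_le_inf_right _ (KK_anti h)

/-- chains off `v` -/
theorem qq_zero {A S : Set V} {v : V} {i : ℕ} (hv : v ∉ A) {c : Finset V → M} (h : c ∈ KK G ρ A S i) :
    qq F v c = 0 := by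
  rw [mem_KK] at h
  funext T
  by_cases hT : v ∈ T
  · rw [qq_of_mem _ hT, Pi.zero_apply]
  · rw [qq_of_not _ hT, h.1 (insert v T), smul_zero, Pi.zero_apply]
    rintro ⟨_, h2, _⟩
    exact hv (h2 (by simp))

theorem zero_of_qq {v : V} {c : Finset V → M} (h : qq F v c = 0) {T : Finset V} (hT : v ∈ T) : c T = 0 := by
  have h1 := congrFun h (T.erase v)
  rw [qq_of_not _ (Finset.notMem_erase _ _), Finset.insert_erase hT, Pi.zero_apply] at h1
  have h2 : sg v (T.erase v) • sg v (T.erase v) • c T = 0 := by rw [h1, smul_zero]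
  rwa [smul_smul, sg_mul_self, one_smul] at h2

theorem qq_lift' {v : V} {d : Finset V → M} (hd : ∀ T : Finset V, v ∈ T → d T = 0) : qq F v (lift v d) = d := by
  funext T
  by_cases hv : v ∈ T
  · rw [qq_of_mem _ hv, hd T hv]
  · rw [qq_of_not _ hv]
    unfold lift
    rw [if_pos (Finset.mem_insert_self _ _), Finset.erase_insert hv, smul_smul, sg_mul_self, one_smul]

theorem bd_lift {v : V} {d : Finset V → M} (hd : ∀ T : Finset V, v ∈ T → d T = 0) (hb : bd F d = 0) :
    bd F (lift v d) = d := by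
  have h1 : qq F v (bd F (lift v d)) = 0 := by
    have h2 := qq_bd (F := F) v (lift v d)
    rw [qq_lift' hd, hb] at h2
    exact neg_eq_zero.1 h2.symm
  funext T
  by_cases hv : v ∈ T
  · rw [zero_of_qq h1 hv, hd T hv]
  · rw [bd_apply, Finset.sum_eq_single v]
    · unfold lift
      rw [if_pos (Finset.mem_insert_self _ _), Finset.erase_insert hv, smul_smul, sg_mul_self, one_smul]
    · intro u _ hu
      unfold lift
      rw [if_neg, smul_zero]
      rw [Finset.mem_insert, not_or]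
      exact ⟨hu.symm, hv⟩
    · intro h
      exact absurd (by simpa using hv) h

theorem lift_neg (v : V) (d : Finset V → M) : lift v (-d) = - lift v d := by
  funext T
  rw [Pi.neg_apply]
  unfold lift
  split_ifs with h
  · rw [Pi.neg_apply, smul_neg]
  · rw [neg_zero]

theorem off_of_KK {A S : Set V} {v : V} {i : ℕ} (hv : v ∉ A) {c : Finset V → M} (h : c ∈ KK G ρ A S i)
    (T : Finset V) (hT : v ∈ T) : c T = 0 := by
  rw [mem_KK] at h
  refine h.1 T ?_
  rintro ⟨_, h2, _⟩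
  exact hv (h2 (by simpa using hT))

variable [FiniteDimensional F M]

/-- the dimension of the kernel of the map from the homology of `B` to the homology of `A` -/
noncomputable def kap (G : SimpleGraph V) (ρ : V → M →ₗ[F] M) (B A S : Set V) (i : ℕ) : ℕ :=
  finrank F (ZZ G ρ B S i ⊓ BB G ρ A S i : Submodule F (Finset V → M)) - finrank F (BB G ρ B S i)

theorem BB_le_inf {A B S : Set V} (h : B ⊆ A) (i : ℕ) : BB G ρ B S i ≤ ZZ G ρ B S i ⊓ BB G ρ A S i :=
  le_inf (BB_le_ZZ _ _ _ _ _) (BB_mono' h)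

theorem kap_self (A S : Set V) (i : ℕ) : kap G ρ A A S i = 0 := by
  unfold kap
  rw [inf_eq_right.2 (BB_le_ZZ _ _ _ _ _), Nat.sub_self]

theorem kap_mono {B A D S : Set V} (h : A ⊆ D) (i : ℕ) : kap G ρ B A S i ≤ kap G ρ B D S i := by
  unfold kap
  exact Nat.sub_le_sub_right (Submodule.finrank_mono (inf_le_inf_left _ (BB_mono' h))) _

theorem kap_trans {B C D S : Set V} (h1 : B ⊆ C) (h2 : C ⊆ D) (i : ℕ) :
    kap G ρ B D S i ≤ kap G ρ B C S i + kap G ρ C D S i := by
  have h3 := Submodule.finrank_sup_add_finrank_inf_eq (ZZ G ρ B S i ⊓ BB G ρ D S i) (BB G ρ C S i)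
  have h4 : finrank F ((ZZ G ρ B S i ⊓ BB G ρ D S i) ⊔ BB G ρ C S i : Submodule F (Finset V → M)) ≤
      finrank F (ZZ G ρ C S i ⊓ BB G ρ D S i : Submodule F (Finset V → M)) :=
    Submodule.finrank_mono (sup_le (inf_le_inf_right _ (ZZ_mono' h1)) (BB_le_inf h2 i))
  have h5 : finrank F ((ZZ G ρ B S i ⊓ BB G ρ D S i) ⊓ BB G ρ C S i : Submodule F (Finset V → M)) ≤
      finrank F (ZZ G ρ B S i ⊓ BB G ρ C S i : Submodule F (Finset V → M)) :=
    Submodule.finrank_mono (inf_le_inf_right _ inf_le_left)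
  have h6 := Submodule.finrank_mono (BB_le_inf (G := G) (ρ := ρ) (S := S) h1 i)
  have h7 := Submodule.finrank_mono (BB_le_inf (G := G) (ρ := ρ) (S := S) h2 i)
  unfold kap
  omega

/-- removing a vertex, refined -/
theorem vertK {A S : Set V} {v : V} (hvA : v ∉ A) (i : ℕ) :
    beta G ρ (insert v A) S (i + 1) ≤ beta G ρ A S (i + 1) +
      (finrank F (ZZ G ρ (A ∩ G.neighborSet v) (insert v S) i ⊓ BB G ρ A S i : Submodule F (Finset V → M)) -
        finrank F (BB G ρ (A ∩ G.neighborSet v) (insert v S) i)) := by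
  have hz : ∀ z ∈ ZZ G ρ (insert v A) S (i + 1), qq F v z ∈ BB G ρ A S i ∧
      qq F v z ∈ ZZ G ρ (A ∩ G.neighborSet v) (insert v S) i := by
    rintro z ⟨hz1, hz2⟩
    have hz2 : bd F z = 0 := hz2
    have h1 : qq F v z ∈ KK G ρ (A ∩ G.neighborSet v) (insert v S) i := qq_mem hz1
    have h2 : bd F (qq F v z) = 0 := by rw [qq_bd, hz2, map_zero, neg_zero]
    have hoff := off_of_KK (v := v) (fun h => hvA h.1) h1
    refine ⟨⟨lift v (qq F v z) - z, ?_, ?_⟩, h1, h2⟩
    · refine mem_of_qq (v := v) (F := F) (Submodule.sub_mem _ (lift_mem h1) hz1) ?_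
      rw [map_sub, qq_lift' hoff, sub_self]
    · rw [map_sub, hz2, sub_zero, bd_lift hoff h2]
  have key := mid F (Finset V → M) (Finset V → M) (Finset V → M) LinearMap.id (qq F v)
      (BB G ρ A S (i + 1)) (ZZ G ρ A S (i + 1)) (BB G ρ (insert v A) S (i + 1))
      (ZZ G ρ (insert v A) S (i + 1)) (BB G ρ (A ∩ G.neighborSet v) (insert v S) i)
      (ZZ G ρ (A ∩ G.neighborSet v) (insert v S) i ⊓ BB G ρ A S i) (BB_le_ZZ _ _ _ _ _) (BB_le_ZZ _ _ _ _ _)
      (le_inf (BB_le_ZZ _ _ _ _ _) ((BB_anti (Set.subset_insert _ _)).trans (BB_mono' Set.inter_subset_left)))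
      ?_ ?_ ?_
  · exact key
  · rw [Submodule.map_id]
    exact Submodule.map_mono (KK_mono (Set.subset_insert _ _))
  · rintro _ ⟨z, hz', rfl⟩
    exact ⟨(hz z hz').2, (hz z hz').1⟩
  · intro z hz hb
    obtain ⟨hz1, hz2⟩ := hz
    have hz2 : bd F z = 0 := hz2
    obtain ⟨d, hd, hdz⟩ := hb
    have hd : d ∈ KK G ρ (A ∩ G.neighborSet v) (insert v S) (i + 1) := hd
    have he := lift_mem (A := A) hd
    have hqe := qq_lift hvA hd
    have hbe : bd F (lift v d) ∈ KK G ρ (insert v A) S (i + 1) := bd_mem_KK he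
    refine ⟨z + bd F (lift v d), ⟨mem_of_qq (v := v) ((KK G ρ (insert v A) S (i + 1)).add_mem
        hz1 hbe) ?_, ?_⟩, - bd F (lift v d), ?_, ?_⟩
    · have h1 := qq_bd (F := F) v (lift v d)
      rw [hqe] at h1
      rw [map_add, ← hdz, h1, neg_add_cancel]
    · show bd F (z + bd F (lift v d)) = 0
      rw [map_add, hz2, bd_bd, add_zero]
    · exact Submodule.neg_mem _ ⟨_, he, rfl⟩
    · simp

/-- removing a vertex, the kernel -/
theorem kap_del {B S : Set V} {u : V} (hu : u ∉ B) (i : ℕ) :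
    kap G ρ B (insert u B) S i ≤ beta G ρ (B ∩ G.neighborSet u) (insert u S) i := by
  have key := con F (Finset V → M) (Finset V → M) (Finset V → M) (bd F) (qq F u)
    (BB G ρ B S i) (ZZ G ρ B S i ⊓ BB G ρ (insert u B) S i) (BB G ρ (insert u B) S i)
    (BB G ρ (insert u B) S i) (BB G ρ (B ∩ G.neighborSet u) (insert u S) i)
    (ZZ G ρ (B ∩ G.neighborSet u) (insert u S) i)
    (KK G ρ (insert u B) S (i + 1) ⊓ (ZZ G ρ B S i).comap (bd F))
    (BB_le_inf (Set.subset_insert _ _) i) le_rfl (BB_le_ZZ _ _ _ _ _) inf_le_right ?_ ?_ ?_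
  · rw [Nat.sub_self, zero_add] at key
    exact key
  · rintro z ⟨hz1, hz2⟩ _
    obtain ⟨x, hx, rfl⟩ := hz2
    exact ⟨x, ⟨hx, hz1⟩, rfl⟩
  · rintro x ⟨hx1, hx2⟩
    refine ⟨qq_mem hx1, ?_⟩
    show bd F (qq F u x) = 0
    have hx2 : bd F x ∈ ZZ G ρ B S i := hx2
    rw [qq_bd, qq_zero hu hx2.1, neg_zero]
  · rintro x ⟨hx1, hx2⟩ ⟨e, he, hex⟩
    have he : e ∈ KK G ρ (B ∩ G.neighborSet u) (insert u S) (i + 1) := he
    have hl := lift_mem (A := B) he
    have hqe := qq_lift hu he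
    have hbe : bd F (lift u e) ∈ KK G ρ (insert u B) S (i + 1) := bd_mem_KK hl
    refine ⟨x + bd F (lift u e), mem_of_qq (v := u) (F := F) (Submodule.add_mem _ hx1 hbe) ?_, ?_⟩
    · have h1 := qq_bd (F := F) u (lift u e)
      rw [hqe] at h1
      rw [map_add, ← hex, h1, neg_add_cancel]
    · rw [map_add, bd_bd, add_zero]

/-- removing several vertices -/
theorem kap_fin {B S : Set V} {i : ℕ} {η : ℕ} (U : Finset V)
    (h : ∀ (B' : Set V) (u : V), B ⊆ B' → B' ⊆ B ∪ U → u ∈ U → u ∉ B' → kap G ρ B' (insert u B') S i ≤ η) :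
    kap G ρ B (B ∪ U) S i ≤ U.card * η := by
  classical
  induction U using Finset.induction_on with
  | empty =>
    rw [Finset.coe_empty, Set.union_empty, kap_self, Finset.card_empty, Nat.zero_mul]
  | insert u U hu ih =>
    have h1 := ih fun B' u' hB hB' hu' hn => h B' u' hB (hB'.trans (by
      rw [Finset.coe_insert]
      exact Set.union_subset_union_right _ (Set.subset_insert _ _))) (Finset.mem_insert_of_mem hu') hn
    have e : B ∪ ((insert u U : Finset V) : Set V) = insert u (B ∪ U) := by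
      rw [Finset.coe_insert, Set.union_insert]
    rw [e, Finset.card_insert_of_notMem hu, Nat.add_mul, Nat.one_mul]
    by_cases hub : u ∈ B ∪ (U : Set V)
    · rw [Set.insert_eq_of_mem hub]
      omega
    · have h2 := kap_trans (G := G) (ρ := ρ) (S := S) (B := B) (C := B ∪ U) (D := insert u (B ∪ U))
        Set.subset_union_left (Set.subset_insert _ _) i
      have h3 := h (B ∪ U) u Set.subset_union_left (by rw [e]; exact Set.subset_insert _ _)
        (Finset.mem_insert_self _ _) hub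
      omega

/-- the cone: `ρ w = - 1` -/
theorem kap_cone {D : Set V} {w : V} (hw : w ∉ D) (hρ : ∀ m, ρ w m = - m) (i : ℕ) :
    kap G ρ (D ∩ G.neighborSet w) D ∅ i + beta G ρ D ∅ (i + 1) ≤
      beta G ρ (insert w D) ∅ (i + 1) + beta G ρ (D ∩ G.neighborSet w) ∅ (i + 1) := by
  have hKS : ∀ (A : Set V) (j : ℕ), KK G ρ A (insert w ∅) j = KK G ρ A ∅ j := by
    intro A j
    refine le_antisymm (KK_anti (Set.empty_subset _)) ?_
    intro c hc
    rw [mem_KK] at hc ⊢
    refine ⟨hc.1, fun T t ht => ?_⟩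
    rcases ht with ht | ht
    · exact hc.2 T t (Or.inl ht)
    · rcases ht with ht | ht
      · rw [ht, hρ]
      · exact absurd ht (Set.notMem_empty _)
  have r1 := rank_null (qq F w) (ZZ G ρ (insert w D) ∅ (i + 1))
  have r2 := rank_null (qq F w) (BB G ρ (insert w D) ∅ (i + 1))
  have h1 : ZZ G ρ D ∅ (i + 1) ≤ ZZ G ρ (insert w D) ∅ (i + 1) ⊓ LinearMap.ker (qq F w) := by
    refine le_inf (ZZ_mono' (Set.subset_insert _ _)) ?_
    rintro c ⟨hc, _⟩
    exact qq_zero hw hc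
  have h2 : (ZZ G ρ (D ∩ G.neighborSet w) ∅ i ⊓ BB G ρ D ∅ i : Submodule F (Finset V → M)) ≤
      (ZZ G ρ (insert w D) ∅ (i + 1)).map (qq F w) := by
    rintro z ⟨⟨hz1, hz2⟩, ⟨y, hy, hyz⟩⟩
    have hz2 : bd F z = 0 := hz2
    have hy : y ∈ KK G ρ D ∅ (i + 1) := hy
    have hoff := off_of_KK (v := w) (fun h => hw h.1) hz1
    have hz1' : z ∈ KK G ρ (D ∩ G.neighborSet w) (insert w ∅) i := by
      rw [hKS]
      exact hz1
    refine ⟨lift w z - y, ⟨Submodule.sub_mem _ (lift_mem hz1') (KK_mono (Set.subset_insert _ _) hy), ?_⟩, ?_⟩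
    · show bd F (lift w z - y) = 0
      rw [map_sub, bd_lift hoff hz2, hyz, sub_self]
    · rw [map_sub, qq_lift' hoff, qq_zero hw hy, sub_zero]
  have h3 : (BB G ρ (insert w D) ∅ (i + 1)).map (qq F w) ≤ BB G ρ (D ∩ G.neighborSet w) ∅ i := by
    rintro _ ⟨_, ⟨c, hc, rfl⟩, rfl⟩
    have hc : c ∈ KK G ρ (insert w D) ∅ (i + 1 + 1) := hc
    have h4 : qq F w c ∈ KK G ρ (D ∩ G.neighborSet w) ∅ (i + 1) := by
      rw [← hKS]
      exact qq_mem hc
    refine ⟨- qq F w c, Submodule.neg_mem _ h4, ?_⟩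
    rw [map_neg, qq_bd, neg_neg]
  have key := con F (Finset V → M) (Finset V → M) (Finset V → M) (bd F) (qq F w)
    (BB G ρ D ∅ (i + 1)) (BB G ρ (insert w D) ∅ (i + 1) ⊓ LinearMap.ker (qq F w)) (BB G ρ (insert w D) ∅ (i + 1))
    (BB G ρ (insert w D) ∅ (i + 1)) (BB G ρ (D ∩ G.neighborSet w) ∅ (i + 1))
    (ZZ G ρ (D ∩ G.neighborSet w) ∅ (i + 1))
    (KK G ρ (insert w D) ∅ (i + 1 + 1) ⊓ (LinearMap.ker (qq F w)).comap (bd F))
    (le_inf (BB_mono' (Set.subset_insert _ _)) (by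
      rintro _ ⟨c, hc, rfl⟩
      exact qq_zero hw (bd_mem_KK hc))) le_rfl (BB_le_ZZ _ _ _ _ _) inf_le_left ?_ ?_ ?_
  · rw [Nat.sub_self, zero_add] at key
    have m1 := Submodule.finrank_mono h1
    have m2 := Submodule.finrank_mono h2
    have m3 := Submodule.finrank_mono h3
    have m4 := Submodule.finrank_mono (BB_le_ZZ G ρ D ∅ (i + 1))
    have m5 := Submodule.finrank_mono (BB_le_inf (G := G) (ρ := ρ) (S := ∅)
      (Set.inter_subset_left : D ∩ G.neighborSet w ⊆ D) i)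
    unfold kap
    unfold beta
    omega
  · rintro z ⟨_, hz1⟩ hz2
    obtain ⟨x, hx, rfl⟩ := hz2
    exact ⟨x, ⟨hx, hz1⟩, rfl⟩
  · rintro x ⟨hx1, hx2⟩
    refine ⟨by rw [SetLike.mem_coe, ← hKS]; exact qq_mem hx1, ?_⟩
    have hx2 : qq F w (bd F x) = 0 := hx2
    show bd F (qq F w x) = 0
    rw [qq_bd, hx2, neg_zero]
  · rintro x ⟨hx1, hx2⟩ ⟨e, he, hex⟩
    have he : e ∈ KK G ρ (D ∩ G.neighborSet w) (insert w ∅) (i + 1 + 1) := by
      rw [hKS]
      exact he
    have hl := lift_mem (A := D) he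
    have hqe := qq_lift hw he
    have hbe : bd F (lift w e) ∈ KK G ρ (insert w D) ∅ (i + 1 + 1) := bd_mem_KK hl
    refine ⟨x + bd F (lift w e), mem_of_qq (v := w) (F := F) (Submodule.add_mem _ hx1 hbe) ?_, ?_⟩
    · have h1 := qq_bd (F := F) w (lift w e)
      rw [hqe] at h1
      rw [map_add, ← hex, h1, neg_add_cancel]
    · rw [map_add, bd_bd, add_zero]

end

end Pool.Agent.Run7.h714.DU
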