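import Pool.Agent.Run7.h714.DU.G3
import Pool.Agent.Run7.h714.DU.Half

set_option autoImplicit false
set_option linter.unusedSectionVars false

/-!
# Poincaré–Lefschetz duality for the complement of a vertex of a flag homology sphere
-/

namespace Pool.Agent.Run7.h714.DU

open Pool.Agent.W907.SG Pool.Agent.W907.SM Module
open Pool.Agent.TH652.Dual (Sph tsg tsg_mul_self tw tw_apply)
open Pool.Agent.W397.SG (beta_iso)

section transfer

variable {V F M : Type} [Fintype V] [LinearOrder V] [Field F] [AddCommGroup M] [Module F M]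
  {G : SimpleGraph V} {ρ ρ' : V → M →ₗ[F] M}

theorem KK_congr {A S : Set V} (h : ∀ v, v ∈ A ∨ v ∈ S → ρ v = ρ' v) (i : ℕ) : KK G ρ A S i = KK G ρ' A S i := by
  have key : ∀ {σ σ' : V → M →ₗ[F] M}, (∀ v, v ∈ A ∨ v ∈ S → σ v = σ' v) → KK G σ A S i ≤ KK G σ' A S i := by
    intro σ σ' hσ c hc
    rw [mem_KK] at hc ⊢
    refine ⟨hc.1, fun T t ht => ?_⟩
    by_cases h0 : c T = 0
    · rw [h0, map_zero, neg_zero]
    · have hT : G.IsClique (T : Set V) ∧ (T : Set V) ⊆ A ∧ T.card = i := by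
        by_contra hn
        exact h0 (hc.1 T hn)
      rw [← hσ t (ht.imp (fun h' => hT.2.1 h') id)]
      exact hc.2 T t ht
  exact le_antisymm (key h) (key fun v hv => (h v hv).symm)

theorem ZZ_congr {A S : Set V} (h : ∀ v, v ∈ A ∨ v ∈ S → ρ v = ρ' v) (i : ℕ) : ZZ G ρ A S i = ZZ G ρ' A S i := by
  unfold ZZ
  rw [KK_congr h]

theorem BB_congr {A S : Set V} (h : ∀ v, v ∈ A ∨ v ∈ S → ρ v = ρ' v) (i : ℕ) : BB G ρ A S i = BB G ρ' A S i := by
  unfold BB
  rw [KK_congr h]

theorem beta_congr {A S : Set V} (h : ∀ v, v ∈ A ∨ v ∈ S → ρ v = ρ' v) (i : ℕ) :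
    beta G ρ A S i = beta G ρ' A S i := by
  unfold beta
  rw [ZZ_congr h, BB_congr h]

theorem kap_congr {A B : Set V} (hBA : B ⊆ A) (h : ∀ v ∈ A, ρ v = ρ' v) (i : ℕ) :
    kap G ρ B A ∅ i = kap G ρ' B A ∅ i := by
  have h1 : ∀ v, v ∈ A ∨ v ∈ (∅ : Set V) → ρ v = ρ' v := fun v hv => h v (hv.resolve_right (Set.notMem_empty v))
  have h2 : ∀ v, v ∈ B ∨ v ∈ (∅ : Set V) → ρ v = ρ' v := fun v hv =>
    h v (hBA (hv.resolve_right (Set.notMem_empty v)))
  unfold kap
  rw [ZZ_congr h2, BB_congr h1, BB_congr h2]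

/-- if `ρ w = 1` then the vertex `w` does not contribute -/
theorem beta_one (h2 : (2 : F) ≠ 0) {w : V} (hw : ∀ m, ρ w m = m) (i : ℕ) :
    beta G ρ Set.univ ∅ i = beta G ρ {w}ᶜ ∅ i := by
  have h1 : ∀ i, KK G ρ Set.univ ∅ i = KK G ρ {w}ᶜ ∅ i := by
    intro i
    refine le_antisymm ?_ (Pool.Agent.W347.SGV.KK_mono (Set.subset_univ _))
    intro c hc
    rw [mem_KK] at hc ⊢
    refine ⟨fun T hT => ?_, hc.2⟩
    by_cases hwT : w ∈ T
    · have h3 := hc.2 T w (Or.inl hwT)
      rw [hw] at h3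
      have h4 : (2 : F) • c T = 0 := by
        rw [two_smul]
        nth_rewrite 1 [h3]
        rw [neg_add_cancel]
      exact (smul_eq_zero.1 h4).resolve_left h2
    · refine hc.1 T ?_
      rintro ⟨h3, _, h4⟩
      refine hT ⟨h3, fun x hx => ?_, h4⟩
      rw [Set.mem_compl_iff, Set.mem_singleton_iff]
      rintro rfl
      exact hwT (by simpa using hx)
  unfold beta ZZ BB
  rw [h1, h1]

end transfer

section sets

variable {V X : Type} [Fintype V] [LinearOrder V] [Fintype X]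

/-- the action with `w` replaced by `s` -/
noncomputable def upd (a : V → X → X) (w : V) (s : ℝ) : V → (X → ℝ) →ₗ[ℝ] (X → ℝ) :=
  fun v => if v = w then s • LinearMap.id else pull ℝ a v

theorem upd_self (a : V → X → X) (w : V) (s : ℝ) (m : X → ℝ) : upd a w s w m = s • m := by
  unfold upd
  rw [if_pos rfl]
  rfl

theorem upd_other (a : V → X → X) {w v : V} (h : v ≠ w) (s : ℝ) : upd a w s v = pull ℝ a v := by
  unfold upd
  rw [if_neg h]

theorem upd_symm {a : V → X → X} (hi : ∀ v x, a v (a v x) = x) (w : V) (s : ℝ) : Symm (upd a w s) := by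
  intro v f g
  by_cases h : v = w
  · subst h
    rw [upd_self, upd_self]
    refine Finset.sum_congr rfl fun x _ => ?_
    rw [Pi.smul_apply, Pi.smul_apply, smul_eq_mul, smul_eq_mul]
    ring
  · rw [upd_other a h]
    refine Finset.sum_nbij' (a v) (a v) (fun _ _ => Finset.mem_univ _) (fun _ _ => Finset.mem_univ _)
      (fun x _ => hi v x) (fun x _ => hi v x) fun x _ => ?_
    rw [pull_apply, pull_apply, hi]

theorem upd_inv {a : V → X → X} (hi : ∀ v x, a v (a v x) = x) (w : V) {s : ℝ} (hs : s * s = 1) (v : V)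
    (m : X → ℝ) : upd a w s v (upd a w s v m) = m := by
  by_cases h : v = w
  · subst h
    rw [upd_self, upd_self, smul_smul, hs, one_smul]
  · rw [upd_other a h]
    funext x
    rw [pull_apply, pull_apply, hi]

theorem upd_comm {G : SimpleGraph V} {a : V → X → X} (hc : ∀ u v, G.Adj u v → ∀ x, a u (a v x) = a v (a u x))
    (w : V) (s : ℝ) (u v : V) (h : G.Adj u v) (m : X → ℝ) :
    upd a w s u (upd a w s v m) = upd a w s v (upd a w s u m) := by
  by_cases hu : u = w
  · subst hu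
    rw [upd_self, upd_self, map_smul]
  · by_cases hv : v = w
    · subst hv
      rw [upd_self, upd_self, map_smul]
    · rw [upd_other a hu, upd_other a hv]
      funext x
      rw [pull_apply, pull_apply, pull_apply, pull_apply, hc u v h]

/-- the sign of the other vertices -/
def sgo (sgn : V → X → Bool) (w v : V) (x : X) : Bool := if v = w then false else sgn v x

theorem tsg_other {a : V → X → X} {sgn : V → X → Bool} (h1 : ∀ v x, sgn v (a v x) = !(sgn v x))
    (h2 : ∀ u v, u ≠ v → ∀ x, sgn u (a v x) = sgn u x) {w v : V} (hv : v ≠ w) (x : X) :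
    tsg (sgo sgn w) (a v x) = - tsg (sgo sgn w) x := by
  unfold tsg
  rw [← Finset.mul_prod_erase Finset.univ _ (Finset.mem_univ v),
    ← Finset.mul_prod_erase Finset.univ (fun u => if sgo sgn w u x then (-1 : ℝ) else 1) (Finset.mem_univ v)]
  have h3 : ∏ u ∈ Finset.univ.erase v, (if sgo sgn w u (a v x) then (-1 : ℝ) else 1) =
      ∏ u ∈ Finset.univ.erase v, (if sgo sgn w u x then (-1 : ℝ) else 1) :=
    Finset.prod_congr rfl fun u hu => by
      unfold sgo
      rw [h2 u v (Finset.ne_of_mem_erase hu)]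
  have h4 : (if sgo sgn w v (a v x) then (-1 : ℝ) else 1) = - (if sgo sgn w v x then (-1 : ℝ) else 1) := by
    unfold sgo
    rw [if_neg hv, if_neg hv, h1]
    cases sgn v x <;> simp
  rw [h3, h4]
  ring

/-- the twist by the signs of the other vertices -/
theorem beta_upd_neg (G : SimpleGraph V) {a : V → X → X} {sgn : V → X → Bool}
    (h1 : ∀ v x, sgn v (a v x) = !(sgn v x)) (h2 : ∀ u v, u ≠ v → ∀ x, sgn u (a v x) = sgn u x) (w : V) (s : ℝ)
    (i : ℕ) : beta G (fun v => - upd a w s v) Set.univ ∅ i = beta G (upd a w (-s)) Set.univ ∅ i := by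
  refine beta_iso (e := tw (sgo sgn w)) ?_ G Set.univ ∅ i
  intro v m
  by_cases h : v = w
  · subst h
    rw [LinearMap.neg_apply, upd_self, upd_self, map_smul, neg_smul]
  · rw [LinearMap.neg_apply, upd_other a h, upd_other a h]
    funext x
    rw [tw_apply, pull_apply, Pi.neg_apply, pull_apply, tw_apply, tsg_other h1 h2 h]
    ring

/-- duality with `w` replaced by `± 1` -/
theorem dual_upd {G : SimpleGraph V} {n : ℕ} (hS : Sph n G) {a : V → X → X} {sgn : V → X → Bool}
    (hi : ∀ v x, a v (a v x) = x) (hc : ∀ u v, G.Adj u v → ∀ x, a u (a v x) = a v (a u x))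
    (h1 : ∀ v x, sgn v (a v x) = !(sgn v x)) (h2 : ∀ u v, u ≠ v → ∀ x, sgn u (a v x) = sgn u x) (w : V) {s : ℝ}
    (hs : s * s = 1) {i j : ℕ} (hij : i + j = n) :
    beta G (upd a w s) Set.univ ∅ i ≤ beta G (upd a w (-s)) Set.univ ∅ j := by
  rw [← beta_upd_neg G h1 h2 w s j]
  exact duality (upd_symm hi w s) (upd_inv hi w hs) (upd_comm hc w s) hS hij

variable {G : SimpleGraph V} {n : ℕ} {a : V → X → X} {sgn : V → X → Bool} {w : V}

theorem nb_inter (G : SimpleGraph V) (w : V) : ({w}ᶜ : Set V) ∩ G.neighborSet w = G.neighborSet w := by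
  ext u
  simp only [Set.mem_inter_iff, Set.mem_compl_iff, Set.mem_singleton_iff, SimpleGraph.mem_neighborSet,
    and_iff_right_iff_imp]
  intro h hu
  exact h.ne hu.symm

theorem ins_compl (w : V) : insert w ({w}ᶜ : Set V) = Set.univ := by
  ext u
  simp only [Set.mem_insert_iff, Set.mem_compl_iff, Set.mem_singleton_iff, Set.mem_univ, iff_true]
  exact em _

theorem upd_off (s : ℝ) {A : Set V} (hA : w ∉ A) (v : V) (hv : v ∈ A ∨ v ∈ (∅ : Set V)) :
    upd a w s v = pull ℝ a v := by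
  refine upd_other a ?_ s
  rintro rfl
  exact hA (hv.resolve_right (Set.notMem_empty _))

theorem w_not_nb (G : SimpleGraph V) (w : V) : w ∉ G.neighborSet w := fun h => G.loopless.irrefl w h

/-- half lives, half dies -/
theorem pl_kap (hS : Sph n G) (hi : ∀ v x, a v (a v x) = x)
    (hc : ∀ u v, G.Adj u v → ∀ x, a u (a v x) = a v (a u x))
    (h1 : ∀ v x, sgn v (a v x) = !(sgn v x)) (h2 : ∀ u v, u ≠ v → ∀ x, sgn u (a v x) = sgn u x) (w : V)
    {i j : ℕ} (hij : (i + 1) + j = n) :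
    kap G (pull ℝ a) (G.neighborSet w) {w}ᶜ ∅ i + beta G (pull ℝ a) {w}ᶜ ∅ (i + 1) ≤
      beta G (pull ℝ a) {w}ᶜ ∅ j + beta G (pull ℝ a) (G.neighborSet w) ∅ (i + 1) := by
  have hw : w ∉ ({w}ᶜ : Set V) := by simp
  have k1 := kap_cone (G := G) (ρ := upd a w (-1)) (D := {w}ᶜ) (w := w) hw (fun m => by
    rw [upd_self, neg_smul, one_smul]) i
  rw [nb_inter, ins_compl] at k1
  have k2 := dual_upd hS hi hc h1 h2 w (s := -1) (by norm_num) hij
  rw [neg_neg, beta_one (ρ := upd a w 1) (by norm_num) (w := w) (fun m => by rw [upd_self, one_smul])] at k2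
  rw [kap_congr (ρ' := pull ℝ a) (by rw [← nb_inter G w]; exact Set.inter_subset_left)
    (fun v hv => upd_off (-1) hw v (Or.inl hv)), beta_congr (upd_off (-1) hw),
    beta_congr (upd_off (-1) (w_not_nb G w))] at k1
  rw [beta_congr (upd_off 1 hw)] at k2
  omega

/-- the low degrees -/
theorem pl_low (hS : Sph n G) (hi : ∀ v x, a v (a v x) = x)
    (hc : ∀ u v, G.Adj u v → ∀ x, a u (a v x) = a v (a u x))
    (h1 : ∀ v x, sgn v (a v x) = !(sgn v x)) (h2 : ∀ u v, u ≠ v → ∀ x, sgn u (a v x) = sgn u x) (w : V)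
    {i j : ℕ} (hij : i + (j + 1) = n) :
    beta G (pull ℝ a) {w}ᶜ ∅ i ≤
      beta G (pull ℝ a) {w}ᶜ ∅ (j + 1) + beta G (pull ℝ a) (G.neighborSet w) ∅ j := by
  have hw : w ∉ ({w}ᶜ : Set V) := by simp
  have k2 := dual_upd hS hi hc h1 h2 w (s := 1) (by norm_num) hij
  rw [beta_one (ρ := upd a w 1) (by norm_num) (w := w) (fun m => by rw [upd_self, one_smul]),
    beta_congr (upd_off 1 hw)] at k2
  have k3 := (vert V ℝ (X → ℝ) G (upd a w (-1)) {w}ᶜ ∅ w hw (Set.notMem_empty _)).2 j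
  rw [nb_inter, ins_compl, beta_congr (upd_off (-1) hw)] at k3
  have k4 : beta G (upd a w (-1)) (G.neighborSet w) (insert w ∅) j = beta G (pull ℝ a) (G.neighborSet w) ∅ j := by
    rw [← beta_congr (upd_off (-1) (w_not_nb G w))]
    have k5 : ∀ l, KK G (upd a w (-1)) (G.neighborSet w) (insert w ∅) l =
        KK G (upd a w (-1)) (G.neighborSet w) ∅ l := by
      intro l
      refine le_antisymm (KK_anti (Set.empty_subset _)) ?_
      intro c hc
      rw [mem_KK] at hc ⊢
      refine ⟨hc.1, fun T t ht => ?_⟩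
      rcases ht with ht | ht
      · exact hc.2 T t (Or.inl ht)
      · rcases ht with ht | ht
        · rw [ht, upd_self, neg_smul, one_smul]
        · exact absurd ht (Set.notMem_empty _)
    unfold beta ZZ BB
    rw [k5, k5]
  rw [k4] at k3
  omega

end sets

end Pool.Agent.Run7.h714.DU
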