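import Pool.Agent.Run7.h714.DU.Top

set_option autoImplicit false
set_option linter.unusedSectionVars false

/-!
# The bound in the degree `n - 2`, relative to a subcomplex
-/

namespace Pool.Agent.Run7.h714.DU

open Pool.Agent.W907.SG Pool.Agent.W907.SM Module
open Pool.Agent.TH652.Above (HSph lv_sub lv_set)
open Pool.Agent.N13.EU (Abv chiL)
open Pool.Agent.N13.PL (nb_lk lk_em)
open Pool.Agent.R703.CW (hsph_link)

section

variable {V X : Type} [Fintype V] [LinearOrder V] [Fintype X]
variable {G : SimpleGraph V} {a : V → X → X} {sgn : V → X → Bool}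

/-- **Betti numbers of the full subcomplexes of flag homology 4-spheres.** -/
theorem five_step (hS : HSph 5 G) (h : Act G a sgn) {η : ℕ}
    (s1 : ∀ (w : V) (B : Set V), B ⊆ G.neighborSet w → ∀ i, 3 ≤ i → beta G (pull ℝ a) B ∅ i ≤ η)
    (s2 : ∀ w u, G.Adj w u → ∀ B : Set V, B ⊆ G.neighborSet w ∩ G.neighborSet u → ∀ i, 2 ≤ i →
      beta G (pull ℝ a) B ∅ i ≤ η) (A : Set V) (w : V) (hwA : w ∉ A) :
    4 * (beta G (pull ℝ a) (insert w A) ∅ 3 : ℚ) ≤ 4 * (beta G (pull ℝ a) A ∅ 3 : ℚ) +
      chiL G {w} * Fintype.card X + 2 * (Fintype.card V + 2) ^ 2 * η := by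
  classical
  set c := Fintype.card V with hc
  have hhigh : ∀ (A : Set V) (i : ℕ), 4 ≤ i → (beta G (pull ℝ a) A ∅ i : ℚ) ≤ c * η := by
    intro A i hi
    have h1 := high_small h s1 A.toFinset i hi
    rw [Set.coe_toFinset] at h1
    have h2 := h1.trans (Nat.mul_le_mul_right η (Finset.card_le_univ A.toFinset))
    exact_mod_cast h2
  -- the kernel for the link of a vertex
  have hker : ∀ w : V, (kap G (pull ℝ a) (G.neighborSet w) {w}ᶜ ∅ 2 : ℚ) ≤
      1 / 2 * chiL G {w} * Fintype.card X + ((c + 1) * (c + 1) + 1) * η := by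
    intro w
    have h1 := pl_kap hS h.inv h.comm h.self h.other w (i := 2) (j := 2) (by norm_num)
    have h2 := s1 w (G.neighborSet w) le_rfl 3 le_rfl
    have h3 := pl_low hS h.inv h.comm h.self h.other w (i := 1) (j := 3) (by norm_num)
    simp only [Nat.reduceAdd] at h1 h3
    have h4 := euler_set h ({w}ᶜ : Set V)
    rw [chi_compl, Pool.Agent.N13.EU.chi_odd hS (by norm_num), zero_add] at h4
    obtain ⟨b, hb⟩ : ∃ b : ℕ → ℚ, ∀ i, b i = (beta G (pull ℝ a) {w}ᶜ ∅ i : ℚ) := ⟨_, fun _ => rfl⟩
    have hb0 : ∀ i, 0 ≤ b i := fun i => by rw [hb]; exact Nat.cast_nonneg _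
    have h1' : (kap G (pull ℝ a) (G.neighborSet w) {w}ᶜ ∅ 2 : ℚ) + b 3 ≤ b 2 + η := by
      rw [hb, hb]
      have : kap G (pull ℝ a) (G.neighborSet w) {w}ᶜ ∅ 2 + beta G (pull ℝ a) {w}ᶜ ∅ 3 ≤
        beta G (pull ℝ a) {w}ᶜ ∅ 2 + η := by omega
      exact_mod_cast this
    have h3' : b 1 ≤ (c + 1) * η := by
      have h5 := hhigh {w}ᶜ 4 le_rfl
      have h6 : (beta G (pull ℝ a) {w}ᶜ ∅ 1 : ℚ) ≤ beta G (pull ℝ a) {w}ᶜ ∅ 4 + η := by
        have : beta G (pull ℝ a) {w}ᶜ ∅ 1 ≤ beta G (pull ℝ a) {w}ᶜ ∅ 4 + η := by omega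
        exact_mod_cast this
      rw [hb]
      linarith
    have hbig : ∀ i, 4 ≤ i → b i ≤ (c + 1) * η := by
      intro i hi
      have h5 := hhigh {w}ᶜ i hi
      rw [hb]
      have : (0 : ℚ) ≤ η := Nat.cast_nonneg _
      linarith
    have h5 : b 2 - b 3 ≤ Fintype.card X * (1 / 2 * chiL G {w}) + (c + 1) * ((c + 1) * η) := by
      rw [← h4]
      have h6 : ∑ i ∈ Finset.range (c + 1), (-1 : ℚ) ^ i * b i =
          ∑ i ∈ Finset.range (c + 1), (if i = 2 then b 2 else if i = 3 then - b 3 else (-1 : ℚ) ^ i * b i) := by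
        refine Finset.sum_congr rfl fun i _ => ?_
        split_ifs with h7 h8
        · rw [h7]; norm_num
        · rw [h8]; norm_num
        · rfl
      have h7 : ∀ i ∈ Finset.range (c + 1), (if i = 2 then b 2 else 0) + (if i = 3 then - b 3 else 0) -
          (c + 1) * η ≤ (if i = 2 then b 2 else if i = 3 then - b 3 else (-1 : ℚ) ^ i * b i) := by
        intro i _
        have hη : (0 : ℚ) ≤ (c + 1) * η := by positivity
        by_cases e2 : i = 2
        · subst e2
          norm_num
          linarith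
        · by_cases e3 : i = 3
          · subst e3
            norm_num
            linarith
          · rw [if_neg e2, if_neg e3, if_neg e2, if_neg e3]
            rcases Nat.even_or_odd i with he | ho
            · rw [he.neg_one_pow]
              have := hb0 i
              linarith
            · rw [ho.neg_one_pow]
              have : b i ≤ (c + 1) * η := by
                by_cases e1 : i = 1
                · rw [e1]; exact h3'
                · refine hbig i ?_
                  rcases ho with ⟨k, hk⟩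
                  omega
              linarith
      have h8 := Finset.sum_le_sum h7
      rw [Finset.sum_sub_distrib, Finset.sum_add_distrib, Finset.sum_ite_eq', Finset.sum_ite_eq',
        Finset.sum_const, Finset.card_range, nsmul_eq_mul] at h8
      have h9 : ∀ i, c < i → b i = 0 := fun i hi => by
        rw [hb, Pool.Agent.W397.SG.beta_big _ _ _ _ hi, Nat.cast_zero]
      have h10 : (if 2 ∈ Finset.range (c + 1) then b 2 else 0) = b 2 := by
        split_ifs with h11
        · rfl
        · rw [h9 2 (by rw [Finset.mem_range] at h11; omega)]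
      have h11 : (if 3 ∈ Finset.range (c + 1) then - b 3 else 0) = - b 3 := by
        split_ifs with h11
        · rfl
        · rw [h9 3 (by rw [Finset.mem_range] at h11; omega), neg_zero]
      rw [h10, h11] at h8
      simp only [← hb]
      rw [h6]
      push_cast at h8
      linarith
    linarith
  have h1 := beta_add (G := G) (by norm_num) (sgn_sw h.self h.other w) (h.pinv w) hwA
    (fun u huw m => h.pcomm huw m) 2
  have hAD : A ⊆ {w}ᶜ := by
    intro x hx
    rw [Set.mem_compl_iff, Set.mem_singleton_iff]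
    rintro rfl
    exact hwA hx
  have h2 := kap_mono (G := G) (ρ := pull ℝ a) (B := A ∩ G.neighborSet w) (S := ∅) hAD 2
  have h3 := kap_trans (G := G) (ρ := pull ℝ a) (S := ∅) (B := A ∩ G.neighborSet w)
    (C := G.neighborSet w) (D := {w}ᶜ) Set.inter_subset_right
    (by rw [← nb_inter G w]; exact Set.inter_subset_left) 2
  have h4 := kap_small h (η := η) w (i := 2) (fun u hu B hB => s2 w u hu B hB 2 le_rfl) A
  have h5 : 2 * (beta G (pull ℝ a) (insert w A) ∅ 3 : ℚ) ≤
      2 * (beta G (pull ℝ a) A ∅ 3 : ℚ) + (c * η + kap G (pull ℝ a) (G.neighborSet w) {w}ᶜ ∅ 2) := by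
    have : 2 * beta G (pull ℝ a) (insert w A) ∅ 3 ≤
      2 * beta G (pull ℝ a) A ∅ 3 + (c * η + kap G (pull ℝ a) (G.neighborSet w) {w}ᶜ ∅ 2) := by
      simp only [Nat.reduceAdd] at h1
      rw [← hc] at h4
      omega
    exact_mod_cast this
  have h6 := hker w
  have hη : (0 : ℚ) ≤ η := Nat.cast_nonneg _
  have hc0 : (0 : ℚ) ≤ c := Nat.cast_nonneg _
  nlinarith

theorem lk_empty' (G : SimpleGraph V) : lk G (∅ : Finset V) = Set.univ := by
  ext x
  simp [lk]

theorem base_bound (k : ℕ) {η : ℕ} {A₀ : Set V}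
    (h0 : beta G (pull ℝ a) (A₀ ∩ lk G (∅ : Finset V)) ∅ (k + 3) ≤ η) :
    2 ^ (k + 2) * (beta G (pull ℝ a) (A₀ ∪ ((∅ : Finset V) : Set V)) ∅ (k + 3) : ℚ) ≤
      cT G (∅ : Finset V) (k + 1) * Fintype.card X +
      (((∅ : Finset V).card : ℚ) + 1) * (2 * (Fintype.card V + 2) ^ (k + 2) * η) := by
  rw [lk_empty', Set.inter_univ] at h0
  rw [Finset.coe_empty, Set.union_empty, Finset.card_empty]
  have h1 : cls G ∅ (k + 1) = ∅ := by
    rw [Finset.eq_empty_iff_forall_notMem]
    intro T hT
    rw [mem_cls] at hT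
    have h3 := Finset.subset_empty.1 hT.1.1
    rw [h3, Finset.card_empty] at hT
    omega
  unfold cT
  rw [h1, Finset.sum_empty]
  have h2 : (beta G (pull ℝ a) A₀ ∅ (k + 3) : ℚ) ≤ η := by exact_mod_cast h0
  have h3 : (0 : ℚ) ≤ η := Nat.cast_nonneg _
  have h4 : (2 : ℚ) ^ (k + 2) ≤ ((Fintype.card V : ℚ) + 2) ^ (k + 2) := by
    gcongr
    have : (0 : ℚ) ≤ Fintype.card V := Nat.cast_nonneg _
    linarith
  have h5 : (0 : ℚ) ≤ 2 ^ (k + 2) := by positivity
  calc 2 ^ (k + 2) * (beta G (pull ℝ a) A₀ ∅ (k + 3) : ℚ) ≤ 2 ^ (k + 2) * η := mul_le_mul_of_nonneg_left h2 h5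
    _ ≤ ((Fintype.card V : ℚ) + 2) ^ (k + 2) * η := mul_le_mul_of_nonneg_right h4 h3
    _ ≤ _ := by
        have h6 : (0 : ℚ) ≤ ((Fintype.card V : ℚ) + 2) ^ (k + 2) * η := by positivity
        push_cast
        linarith

/-- **the bound in the degree `n - 2`, relative to a subcomplex** -/
theorem top_rel (k : ℕ) : ∀ (V : Type) [Fintype V] [LinearOrder V] (G : SimpleGraph V) (a : V → X → X)
    (sgn : V → X → Bool) (η : ℕ), HSph (k + 5) G → Act G a sgn → Sm G a (k + 5) η → ∀ (A₀ : Set V) (B : Finset V),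
    (∀ v ∈ B, v ∉ A₀) → (∀ R : Finset V, G.IsClique (R : Set V) → R ⊆ B → R.card ≤ k →
      beta G (pull ℝ a) (A₀ ∩ lk G R) ∅ (k + 3 - R.card) ≤ η) →
    2 ^ (k + 2) * (beta G (pull ℝ a) (A₀ ∪ B) ∅ (k + 3) : ℚ) ≤ cT G B (k + 1) * Fintype.card X +
      (B.card + 1) * (2 * (Fintype.card V + 2) ^ (k + 2) * η) := by
  classical
  induction k with
  | zero =>
    intro V _ _ G a sgn η hS h hη A₀ B hd h0
    induction B using Finset.induction_on with
    | empty => exact base_bound 0 (h0 ∅ (by simp) (Finset.empty_subset _) (by simp))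
    | insert v B hv ih =>
      have ih' := ih (fun u hu => hd u (Finset.mem_insert_of_mem hu))
        (fun R hR hRB hRk => h0 R hR (hRB.trans (Finset.subset_insert _ _)) hRk)
      have hvA : v ∉ A₀ ∪ (B : Set V) := by
        rintro (h1 | h1)
        · exact hd v (Finset.mem_insert_self _ _) h1
        · exact hv h1
      have h1 := five_step hS h (η := η) (fun w B hB i hi => by
          refine hη {w} (by simp) B ?_ i (Or.inl ⟨by simp, hi⟩)
          rwa [nb_lk]) (fun w u hwu B hB i hi => by
          have hT : G.IsClique ((({w, u} : Finset V)) : Set V) := by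
            rw [Finset.coe_insert, Finset.coe_singleton, SimpleGraph.isClique_pair]
            exact fun _ => hwu
          refine hη {w, u} hT B ?_ i (Or.inr ⟨by rw [Finset.card_pair hwu.ne], hi⟩)
          intro x hx y hy
          rw [Finset.mem_insert, Finset.mem_singleton] at hy
          rcases hy with rfl | rfl
          · exact SimpleGraph.Adj.symm (hB hx).1
          · exact SimpleGraph.Adj.symm (hB hx).2) (A₀ ∪ (B : Set V)) v hvA
      rw [Finset.coe_insert, Set.union_insert, Finset.card_insert_of_notMem hv]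
      rw [zero_add, zero_add, cT_one, Finset.sum_insert hv]
      rw [zero_add, zero_add, cT_one] at ih'
      push_cast
      rw [add_mul, add_mul, add_mul]
      norm_num at ih' ⊢
      linarith
  | succ k ih =>
    intro V _ _ G a sgn η hS h hη A₀ B hd h0
    induction B using Finset.induction_on with
    | empty => exact base_bound (k + 1) (h0 ∅ (by simp) (Finset.empty_subset _) (by simp))
    | insert v B hv ih2 =>
      have ih' := ih2 (fun u hu => hd u (Finset.mem_insert_of_mem hu))
        (fun R hR hRB hRk => h0 R hR (hRB.trans (Finset.subset_insert _ _)) hRk)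
      have hvA : v ∉ A₀ ∪ (B : Set V) := by
        rintro (h1 | h1)
        · exact hd v (Finset.mem_insert_self _ _) h1
        · exact hv h1
      rw [Finset.coe_insert, Set.union_insert, Finset.card_insert_of_notMem hv, cT_insert hv]
      have hT : G.IsClique ((({v} : Finset V)) : Set V) := by simp
      have h5 : HSph (k + 5) (G.induce (lk G {v})) := by
        have := hsph_link hS {v} hT
        rwa [Finset.card_singleton, show k + 1 + 5 - 1 = k + 5 by omega] at this
      have hBsub : ∀ b ∈ B.subtype (fun x => x ∈ lk G {v}), b.1 ∈ B := fun b hb => Finset.mem_subtype.1 hb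
      have h6 := ih ↥(lk G {v}) (G.induce (lk G {v})) (fun u => a u.1) (fun u => sgn u.1) η h5
        (h.restrict (lk G {v})) (Sm.link (n := k + 5) hη v) (Subtype.val ⁻¹' A₀) (B.subtype (fun x => x ∈ lk G {v}))
        (fun b hb => hd b.1 (Finset.mem_insert_of_mem (hBsub b hb))) (fun R hR hRB hRk => by
          rw [beta_sub]
          have h7 : Subtype.val '' (Subtype.val ⁻¹' A₀ ∩ lk (G.induce (lk G {v})) R) =
              A₀ ∩ lk G (R.map (Function.Embedding.subtype _) ∪ {v}) := by
            ext x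
            constructor
            · rintro ⟨b, ⟨hb1, hb2⟩, rfl⟩
              refine ⟨hb1, fun u hu => ?_⟩
              rw [Finset.mem_union] at hu
              rcases hu with hu | hu
              · obtain ⟨c, hc, rfl⟩ := Finset.mem_map.1 hu
                exact hb2 c hc
              · exact b.2 u hu
            · rintro ⟨hx1, hx2⟩
              have hxl : x ∈ lk G {v} := fun u hu => hx2 u (Finset.mem_union_right _ hu)
              refine ⟨⟨x, hxl⟩, ⟨hx1, fun c hc => ?_⟩, rfl⟩
              exact hx2 c.1 (Finset.mem_union_left _ (Finset.mem_map_of_mem _ hc))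
          rw [h7]
          have h8 : (R.map (Function.Embedding.subtype _) ∪ {v}).card = R.card + 1 := by
            rw [Finset.card_union_of_disjoint (lk_disj R), Finset.card_map, Finset.card_singleton]
          have h9 := h0 (R.map (Function.Embedding.subtype _) ∪ {v}) ((clique_iff hT R).1 hR) (by
            intro x hx
            rw [Finset.mem_union, Finset.mem_singleton] at hx
            rcases hx with hx | rfl
            · obtain ⟨c, hc, rfl⟩ := Finset.mem_map.1 hx
              exact Finset.mem_insert_of_mem (hBsub c (hRB hc))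
            · exact Finset.mem_insert_self _ _) (by rw [h8]; omega)
          rw [h8] at h9
          rwa [show k + 1 + 3 - (R.card + 1) = k + 3 - R.card by omega] at h9)
      rw [beta_sub] at h6
      have e0 : Subtype.val '' (Subtype.val ⁻¹' A₀ ∪ ((B.subtype (fun x => x ∈ lk G {v}) : Finset ↥(lk G {v})) :
          Set ↥(lk G {v}))) = (A₀ ∪ (B : Set V)) ∩ G.neighborSet v := by
        rw [Set.image_union, sub_image, nb_lk]
        ext x
        constructor
        · rintro (⟨b, hb, rfl⟩ | hx)
          · exact ⟨Or.inl hb, b.2⟩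
          · exact ⟨Or.inr hx.1, hx.2⟩
        · rintro ⟨hx1 | hx1, hx2⟩
          · exact Or.inl ⟨⟨x, hx2⟩, hx1, rfl⟩
          · exact Or.inr ⟨hx1, hx2⟩
      rw [e0] at h6
      have h1 := (vert V ℝ (X → ℝ) G (pull ℝ a) (A₀ ∪ (B : Set V)) ∅ v hvA (Set.notMem_empty _)).2 (k + 3)
      have h2 := two_beta (G := G) (by norm_num) (sgn_sw h.self h.other v) (h.pinv v)
        (B := (A₀ ∪ (B : Set V)) ∩ G.neighborSet v) (fun h' => w_not_nb G v h'.2)
        (fun u hu m => h.pcomm ((G.mem_neighborSet v u).1 hu.2).symm m) (k + 3)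
      have e1 : k + 1 + 3 = k + 3 + 1 := by omega
      have h4 : 2 ^ (k + 1 + 2) * (beta G (pull ℝ a) (insert v (A₀ ∪ (B : Set V))) ∅ (k + 1 + 3) : ℚ) ≤
          2 ^ (k + 1 + 2) * (beta G (pull ℝ a) (A₀ ∪ (B : Set V)) ∅ (k + 1 + 3) : ℚ) +
          2 ^ (k + 2) * (beta G (pull ℝ a) ((A₀ ∪ (B : Set V)) ∩ G.neighborSet v) ∅ (k + 3) : ℚ) := by
        have h7 : 2 * beta G (pull ℝ a) (insert v (A₀ ∪ (B : Set V))) ∅ (k + 1 + 3) ≤
            2 * beta G (pull ℝ a) (A₀ ∪ (B : Set V)) ∅ (k + 1 + 3) +
            beta G (pull ℝ a) ((A₀ ∪ (B : Set V)) ∩ G.neighborSet v) ∅ (k + 3) := by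
          rw [e1]
          omega
        have h8 : 2 * (beta G (pull ℝ a) (insert v (A₀ ∪ (B : Set V))) ∅ (k + 1 + 3) : ℚ) ≤
            2 * (beta G (pull ℝ a) (A₀ ∪ (B : Set V)) ∅ (k + 1 + 3) : ℚ) +
            (beta G (pull ℝ a) ((A₀ ∪ (B : Set V)) ∩ G.neighborSet v) ∅ (k + 3) : ℚ) := by exact_mod_cast h7
        have h9 : (0 : ℚ) ≤ 2 ^ (k + 2) := by positivity
        have h10 := mul_le_mul_of_nonneg_left h8 h9
        have e2 : (2 : ℚ) ^ (k + 1 + 2) = 2 ^ (k + 2) * 2 := by rw [← pow_succ]
        rw [e2]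
        linarith
      have c1 : ((B.subtype (fun x => x ∈ lk G {v})).card : ℚ) ≤ Fintype.card V := by
        have h7 : (B.subtype (fun x => x ∈ lk G {v})).card ≤ Fintype.card V := by
          rw [← Finset.card_map (Function.Embedding.subtype _)]
          exact Finset.card_le_univ _
        exact_mod_cast h7
      have c2 : (Fintype.card ↥(lk G {v}) : ℚ) ≤ Fintype.card V := by
        have h7 : Fintype.card ↥(lk G {v}) ≤ Fintype.card V :=
          Fintype.card_le_of_injective _ Subtype.val_injective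
        exact_mod_cast h7
      have c3 : (0 : ℚ) ≤ Fintype.card ↥(lk G {v}) := Nat.cast_nonneg _
      have c5 : (0 : ℚ) ≤ Fintype.card V := Nat.cast_nonneg _
      have c4 : (((B.subtype (fun x => x ∈ lk G {v})).card : ℚ) + 1) *
          (2 * ((Fintype.card ↥(lk G {v}) : ℚ) + 2) ^ (k + 2) * η) ≤
          2 * ((Fintype.card V : ℚ) + 2) ^ (k + 1 + 2) * η := by
        calc (((B.subtype (fun x => x ∈ lk G {v})).card : ℚ) + 1) *
            (2 * ((Fintype.card ↥(lk G {v}) : ℚ) + 2) ^ (k + 2) * η)
            ≤ ((Fintype.card V : ℚ) + 2) * (2 * ((Fintype.card V : ℚ) + 2) ^ (k + 2) * η) := by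
              gcongr
              linarith
          _ = _ := by
              rw [pow_succ ((Fintype.card V : ℚ) + 2) (k + 2)]
              ring
      push_cast
      rw [add_mul, add_mul, add_mul]
      rw [add_mul] at ih'
      linarith

end

end Pool.Agent.Run7.h714.DU
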