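import Pool.Agent.Run7.h714.DU.Rel

set_option autoImplicit false
set_option linter.unusedSectionVars false

/-!
# The Euler characteristic of flag homology 5-spheres, relative to a subcomplex
-/

namespace Pool.Agent.Run7.h714.DU

open Pool.Agent.W907.SG Pool.Agent.W907.SM Module
open Pool.Agent.TH652.Above (HSph lv_sub lv_set)
open Pool.Agent.N13.EU (Abv chiL)
open Pool.Agent.N13.PL (nb_lk)
open Pool.Agent.R703.CW (hsph_link)

section

variable {V X : Type} [Fintype V] [LinearOrder V] [Fintype X]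
variable {G : SimpleGraph V} {a : V → X → X} {sgn : V → X → Bool}

/-- the Euler characteristic, in a finite set -/
theorem six_chi (hS : HSph 6 G) (h : Act G a sgn) {η : ℕ}
    (t1 : ∀ v w, G.Adj v w → ∀ B : Set V, B ⊆ G.neighborSet v ∩ G.neighborSet w → ∀ i, 3 ≤ i →
      beta G (pull ℝ a) B ∅ i ≤ η)
    (t2 : ∀ v w u, G.Adj v w → G.Adj v u → G.Adj w u → ∀ B : Set V,
      B ⊆ G.neighborSet v ∩ G.neighborSet w ∩ G.neighborSet u → ∀ i, 2 ≤ i → beta G (pull ℝ a) B ∅ i ≤ η)
    (Q Z : ℚ) (h4 : 8 * (beta G (pull ℝ a) Set.univ ∅ 4 : ℚ) ≤ Q * Fintype.card X + Z) :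
    4 * chiW G * Fintype.card X ≤ Q * Fintype.card X + (Z + 4 * (Fintype.card V + 2) ^ 3 * η) := by
  classical
  set c := Fintype.card V with hc
  have s1 : ∀ (w : V) (B : Set V), B ⊆ G.neighborSet w → ∀ i, 4 ≤ i → beta G (pull ℝ a) B ∅ i ≤ c * η := by
    intro w B hB i hi
    have h1 := high_small (h.restrict (G.neighborSet w)) (η := η) (r := 3) (fun u B' hB' j hj => by
      rw [beta_sub]
      refine t1 w u.1 u.2 _ ?_ j hj
      rintro _ ⟨b, hb, rfl⟩
      exact ⟨b.2, hB' hb⟩) (B.toFinset.subtype (fun x => x ∈ G.neighborSet w)) i hi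
    rw [beta_sub] at h1
    have e1 : (Subtype.val '' ((B.toFinset.subtype (fun x => x ∈ G.neighborSet w) :
        Finset ↥(G.neighborSet w)) : Set ↥(G.neighborSet w)) : Set V) = B := by
      ext x
      simp only [Set.mem_image, Finset.mem_coe, Finset.mem_subtype, Subtype.exists, exists_and_left, exists_prop,
        exists_eq_right_right, Set.mem_toFinset]
      exact ⟨fun hx => hx.1, fun hx => ⟨hx, hB hx⟩⟩
    rw [e1] at h1
    refine h1.trans (Nat.mul_le_mul_right _ ?_)
    rw [← Finset.card_map (Function.Embedding.subtype _)]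
    exact Finset.card_le_univ _
  have hhigh : ∀ i, 5 ≤ i → beta G (pull ℝ a) Set.univ ∅ i ≤ c * (c * η) := by
    intro i hi
    have h1 := high_small h s1 Finset.univ i hi
    rwa [Finset.coe_univ, Finset.card_univ] at h1
  obtain ⟨b, hb⟩ : ∃ b : ℕ → ℚ, ∀ i, b i = (beta G (pull ℝ a) Set.univ ∅ i : ℚ) := ⟨_, fun _ => rfl⟩
  have hb0 : ∀ i, 0 ≤ b i := fun i => by rw [hb]; exact Nat.cast_nonneg _
  have hη : (0 : ℚ) ≤ c * (c * η) := by positivity
  have hsm : ∀ i, i ≠ 2 → i ≠ 3 → i ≠ 4 → b i ≤ c * (c * η) := by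
    intro i h2 h3 h4
    by_cases h5 : 5 ≤ i
    · rw [hb]
      exact_mod_cast hhigh i h5
    · have h6 : i = 0 ∨ i = 1 := by omega
      have hd : ∀ i j, i + j = 6 → beta G (pull ℝ a) Set.univ ∅ i = beta G (pull ℝ a) Set.univ ∅ j :=
        fun i j hij => Pool.Agent.TH652.Dual.duality_sgn hS h.inv h.comm h.self h.other hij
      rw [hb]
      rcases h6 with rfl | rfl
      · rw [hd 0 6 rfl]
        exact_mod_cast hhigh 6 (by norm_num)
      · rw [hd 1 5 rfl]
        exact_mod_cast hhigh 5 (by norm_num)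
  have h24 : b 2 = b 4 := by
    rw [hb, hb, Pool.Agent.TH652.Dual.duality_sgn hS h.inv h.comm h.self h.other (i := 2) (j := 4) rfl]
  have he := Pool.Agent.W723.SM.beta_sum (two_ne_zero : (2 : ℝ) ≠ 0) G a sgn h.inv h.comm h.self h.other
  push_cast at he
  rw [← hb] at h4
  have h7 : ∀ i ∈ Finset.range (c + 1), (-1 : ℚ) ^ i * (beta G (pull ℝ a) Set.univ ∅ i : ℚ) ≤
      (if i = 2 then b 2 else 0) + (if i = 4 then b 4 else 0) + c * (c * η) := by
    intro i _
    rw [← hb]
    by_cases e2 : i = 2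
    · subst e2
      norm_num
      exact mul_nonneg (Nat.cast_nonneg _) (mul_nonneg (Nat.cast_nonneg _) (Nat.cast_nonneg _))
    · by_cases e4 : i = 4
      · subst e4
        norm_num
        exact mul_nonneg (Nat.cast_nonneg _) (mul_nonneg (Nat.cast_nonneg _) (Nat.cast_nonneg _))
      · rw [if_neg e2, if_neg e4]
        rcases Nat.even_or_odd i with hev | ho
        · rw [hev.neg_one_pow]
          have : b i ≤ c * (c * η) := by
            refine hsm i e2 ?_ e4
            rintro rfl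
            exact absurd hev (by decide)
          linarith
        · rw [ho.neg_one_pow]
          have := hb0 i
          linarith
  have h8 := Finset.sum_le_sum h7
  rw [he, Finset.sum_add_distrib, Finset.sum_add_distrib, Finset.sum_ite_eq', Finset.sum_ite_eq',
    Finset.sum_const, Finset.card_range, nsmul_eq_mul] at h8
  have h9 : (if 2 ∈ Finset.range (c + 1) then b 2 else 0) ≤ b 2 := by
    split_ifs
    · exact le_rfl
    · exact hb0 2
  have h10 : (if 4 ∈ Finset.range (c + 1) then b 4 else 0) ≤ b 4 := by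
    split_ifs
    · exact le_rfl
    · exact hb0 4
  push_cast at h8
  have h11 : (0 : ℚ) ≤ η := Nat.cast_nonneg _
  have h12 : (0 : ℚ) ≤ c := Nat.cast_nonneg _
  have h13 : 4 * (((c : ℚ) + 1) * (c * (c * η))) ≤ 4 * ((c : ℚ) + 2) ^ 3 * η := by
    have h14 : 4 * (((c : ℚ) + 1) * (c * c)) ≤ 4 * ((c : ℚ) + 2) ^ 3 := by
      nlinarith [pow_nonneg h12 2, pow_nonneg h12 3]
    calc 4 * (((c : ℚ) + 1) * (c * (c * η))) = (4 * (((c : ℚ) + 1) * (c * c))) * η := by ring
      _ ≤ _ := mul_le_mul_of_nonneg_right h14 h11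
  linarith

open Classical in
/-- **The Euler characteristic of flag homology 5-spheres, without the edges which meet `A₀`.** -/
theorem chi_rel {G : SimpleGraph V} (hS : HSph 6 G) (A₀ : Set V) (h0 : LV (G.induce A₀) 4)
    (h1 : ∀ v, v ∉ A₀ → LV (G.induce (A₀ ∩ G.neighborSet v)) 3) :
    4 * chiW G ≤ cT G (Finset.univ.filter (fun v => v ∉ A₀)) 2 := by
  by_contra hneg
  push Not at hneg
  set Q := cT G (Finset.univ.filter (fun v => v ∉ A₀)) 2 with hQ
  set δ := 4 * chiW G - Q with hδ
  have hδ0 : 0 < δ := by rw [hδ]; linarith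
  set C : ℚ := 6 * ((Fintype.card V : ℚ) + 2) ^ 4 with hC
  have hC0 : 0 ≤ C := by positivity
  obtain ⟨N, hN⟩ := exists_nat_gt (C / δ)
  rw [div_lt_iff₀ hδ0] at hN
  have hNpos : 0 < N := by
    rcases Nat.eq_zero_or_pos N with h0 | h0
    · subst h0
      rw [Nat.cast_zero, zero_mul] at hN
      linarith
    · exact h0
  obtain ⟨E, hE, hsm⟩ := big_small G N
  have : Fact (Nat.Prime 3) := ⟨Nat.prime_three⟩
  obtain ⟨Y, fY, nY, P, ev, e1, e2, e3, e4⟩ := nilp 3 V G E (by norm_num) hE
  have hact : Act G P.a P.sgn := ⟨P.inv, P.comm, P.sgn_self, P.sgn_other⟩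
  have key := hsm Y P.a ev P.inv P.comm e1 e2 e3 e4
  have hdiv : ∀ k : ℕ, N * k ≤ Fintype.card Y → k ≤ Fintype.card Y / N := by
    intro k hk
    rw [Nat.le_div_iff_mul_le hNpos, mul_comm]
    exact hk
  have habv := fun (T : Finset V) (hT : G.IsClique (T : Set V)) (hn : 6 ≤ T.card + 4) => link_abv hS T hT hn
  have g1 : ∀ v w, G.Adj v w → ∀ B : Set V, B ⊆ G.neighborSet v ∩ G.neighborSet w → ∀ i, 3 ≤ i →
      beta G (pull ℝ P.a) B ∅ i ≤ Fintype.card Y / N := by
    intro v w hvw B hB i hi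
    refine hdiv _ (key B i ?_)
    have hT : G.IsClique ((({v, w} : Finset V)) : Set V) := by
      rw [Finset.coe_insert, Finset.coe_singleton, SimpleGraph.isClique_pair]
      exact fun _ => hvw
    have h7 := habv {v, w} hT (by rw [Finset.card_pair hvw.ne])
    refine h7 B (fun x hx u hu => ?_) i (by rw [Finset.card_pair hvw.ne]; omega)
    rw [Finset.mem_insert, Finset.mem_singleton] at hu
    rcases hu with rfl | rfl
    · exact SimpleGraph.Adj.symm (hB hx).1
    · exact SimpleGraph.Adj.symm (hB hx).2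
  have g2 : ∀ v w u, G.Adj v w → G.Adj v u → G.Adj w u → ∀ B : Set V,
      B ⊆ G.neighborSet v ∩ G.neighborSet w ∩ G.neighborSet u → ∀ i, 2 ≤ i →
      beta G (pull ℝ P.a) B ∅ i ≤ Fintype.card Y / N := by
    intro v w u hvw hvu hwu B hB i hi
    refine hdiv _ (key B i ?_)
    have hc3 : ({v, w, u} : Finset V).card = 3 := Finset.card_eq_three.2 ⟨v, w, u, hvw.ne, hvu.ne, hwu.ne, rfl⟩
    have hT : G.IsClique ((({v, w, u} : Finset V)) : Set V) := by
      rw [Finset.coe_insert, Finset.coe_insert, Finset.coe_singleton, SimpleGraph.isClique_insert,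
        SimpleGraph.isClique_pair]
      refine ⟨fun _ => hwu, ?_⟩
      intro b hb _
      rcases hb with rfl | hb
      · exact hvw
      · rw [Set.mem_singleton_iff] at hb
        rw [hb]
        exact hvu
    have h7 := habv {v, w, u} hT (by rw [hc3]; norm_num)
    refine h7 B (fun x hx y hy => ?_) i (by rw [hc3]; omega)
    rw [Finset.mem_insert, Finset.mem_insert, Finset.mem_singleton] at hy
    rcases hy with rfl | rfl | rfl
    · exact SimpleGraph.Adj.symm (hB hx).1.1
    · exact SimpleGraph.Adj.symm (hB hx).1.2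
    · exact SimpleGraph.Adj.symm (hB hx).2
  have hSm : Sm G P.a (1 + 5) (Fintype.card Y / N) := by
    intro T hT B hB i hi
    refine hdiv _ (key B i ?_)
    exact habv T hT (by omega) B hB i (by omega)
  have hR := top_rel 1 V G P.a P.sgn (Fintype.card Y / N) hS hact hSm A₀ (Finset.univ.filter (fun v => v ∉ A₀))
    (fun v hv => (Finset.mem_filter.1 hv).2) (fun R hR hRB hRk => by
      refine hdiv _ (key _ _ ?_)
      have hR' : R.card = 0 ∨ R.card = 1 := by omega
      rcases hR' with h3 | h3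
      · rw [Finset.card_eq_zero] at h3
        subst h3
        rw [lk_empty', Set.inter_univ]
        exact h0
      · obtain ⟨v, rfl⟩ := Finset.card_eq_one.1 h3
        have h5 := h1 v (Finset.mem_filter.1 (Finset.singleton_subset_iff.1 hRB)).2
        rw [nb_lk, Finset.card_singleton]
        exact h5)
  have hun : A₀ ∪ ((Finset.univ.filter (fun v => v ∉ A₀) : Finset V) : Set V) = Set.univ := by
    ext x
    by_cases hx : x ∈ A₀ <;> simp [hx]
  rw [hun] at hR
  have h6 := six_chi hS hact (η := Fintype.card Y / N) g1 g2 Q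
    (2 * ((Fintype.card V : ℚ) + 2) ^ 4 * ((Fintype.card Y / N : ℕ) : ℚ)) (by
      have h7 : (((Finset.univ.filter (fun v => v ∉ A₀)).card : ℚ) + 1) *
          (2 * ((Fintype.card V : ℚ) + 2) ^ (1 + 2) * ((Fintype.card Y / N : ℕ) : ℚ)) ≤
          2 * ((Fintype.card V : ℚ) + 2) ^ 4 * ((Fintype.card Y / N : ℕ) : ℚ) := by
        have h8 : ((Finset.univ.filter (fun v => v ∉ A₀)).card : ℚ) ≤ Fintype.card V := by
          exact_mod_cast Finset.card_le_univ _
        calc (((Finset.univ.filter (fun v => v ∉ A₀)).card : ℚ) + 1) *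
            (2 * ((Fintype.card V : ℚ) + 2) ^ (1 + 2) * ((Fintype.card Y / N : ℕ) : ℚ))
            ≤ ((Fintype.card V : ℚ) + 2) * (2 * ((Fintype.card V : ℚ) + 2) ^ (1 + 2) * ((Fintype.card Y / N : ℕ) : ℚ)) := by
              gcongr
              norm_num
          _ = _ := by ring
      have e1 : (2 : ℚ) ^ (1 + 2) = 8 := by norm_num
      rw [e1] at hR
      refine hR.trans ?_
      rw [← hQ]
      exact add_le_add_right h7 _)
  have h6' : 4 * chiW G * Fintype.card Y ≤ Q * Fintype.card Y + C * ((Fintype.card Y / N : ℕ) : ℚ) := by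
    refine h6.trans (add_le_add_right ?_ _)
    rw [hC, ← add_mul]
    refine mul_le_mul_of_nonneg_right ?_ (Nat.cast_nonneg _)
    have h12 : (0 : ℚ) ≤ Fintype.card V := Nat.cast_nonneg _
    have h13 : 4 * ((Fintype.card V : ℚ) + 2) ^ 3 ≤ 4 * ((Fintype.card V : ℚ) + 2) ^ 4 := by
      have h14 : ((Fintype.card V : ℚ) + 2) ^ 3 ≤ ((Fintype.card V : ℚ) + 2) ^ 4 :=
        pow_le_pow_right₀ (by linarith) (by norm_num)
      linarith
    linarith
  have hY : (0 : ℚ) < Fintype.card Y := by exact_mod_cast Fintype.card_pos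
  have h7 : (N : ℚ) * ((Fintype.card Y / N : ℕ) : ℚ) ≤ Fintype.card Y := by
    have := Nat.mul_div_le (Fintype.card Y) N
    exact_mod_cast this
  have h8 : δ * Fintype.card Y ≤ C * ((Fintype.card Y / N : ℕ) : ℚ) := by
    rw [hδ, sub_mul]
    linarith
  have h9 : N * (δ * Fintype.card Y) ≤ C * Fintype.card Y := by
    calc N * (δ * Fintype.card Y) ≤ N * (C * ((Fintype.card Y / N : ℕ) : ℚ)) :=
          mul_le_mul_of_nonneg_left h8 (Nat.cast_nonneg _)
      _ = C * (N * ((Fintype.card Y / N : ℕ) : ℚ)) := by ring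
      _ ≤ C * Fintype.card Y := mul_le_mul_of_nonneg_left h7 hC0
  have h10 : (N * δ) * Fintype.card Y ≤ C * Fintype.card Y := by
    rw [mul_assoc]
    exact h9
  have h11 := le_of_mul_le_mul_right h10 hY
  linarith

end

end Pool.Agent.Run7.h714.DU
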