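import Pool.Agent.Run7.h714.DU.Fam

set_option autoImplicit false
set_option linter.unusedSectionVars false

/-!
# Flag homology 5-spheres
-/

namespace Pool.Agent.Run7.h714.DU

open Pool.Agent.W907.SG Pool.Agent.W907.SM Module
open Pool.Agent.TH652.Above (HSph lv_sub lv_set)
open Pool.Agent.N13.EU (Abv chiL)
open Pool.Agent.N13.PL (nb_lk)
open Pool.Agent.R703.CW (hsph_link)

open Classical in
/-- the sum of the Euler characteristics of the links of the edges in `A` -/
noncomputable def cE {V : Type} [Fintype V] (G : SimpleGraph V) (A : Finset V) : ℚ :=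
  ∑ T ∈ A.powersetCard 2, if G.IsClique (T : Set V) then chiL G T else 0

section

variable {V X : Type} [Fintype V] [LinearOrder V] [Fintype X]
variable {G : SimpleGraph V} {a : V → X → X} {sgn : V → X → Bool}

theorem cE_insert [DecidableRel G.Adj] {A : Finset V} {v : V} (hv : v ∉ A) :
    cE G (insert v A) = cE G A + ∑ w ∈ A.filter (fun w => G.Adj v w), chiL G {w, v} := by
  classical
  unfold cE
  rw [Finset.powersetCard_succ_insert hv 1, Finset.sum_union, Finset.sum_image]
  · congr 1
    rw [Finset.powersetCard_one, Finset.sum_map, Finset.sum_filter]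
    refine Finset.sum_congr rfl fun w hw => ?_
    have hne : v ≠ w := by
      rintro rfl
      exact hv hw
    have e : insert v ({w} : Finset V) = {w, v} := Finset.pair_comm v w
    have hcl : G.IsClique ((({w, v} : Finset V)) : Set V) ↔ G.Adj v w := by
      rw [Finset.coe_insert, Finset.coe_singleton, SimpleGraph.isClique_pair]
      constructor
      · intro h
        exact (h hne.symm).symm
      · intro h _
        exact h.symm
    have e2 : (insert v ((⟨singleton, Finset.singleton_injective⟩ : V ↪ Finset V) w) : Finset V) = {w, v} := e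
    rw [e2]
    by_cases h : G.Adj v w
    · rw [if_pos (hcl.2 h), if_pos h]
    · rw [if_neg (fun h' => h (hcl.1 h')), if_neg h]
  · intro S hS S' hS' h
    rw [Finset.mem_coe, Finset.mem_powersetCard] at hS hS'
    have h1 : (insert v S).erase v = (insert v S').erase v := by rw [h]
    rwa [Finset.erase_insert (fun h' => hv (hS.1 h')), Finset.erase_insert (fun h' => hv (hS'.1 h'))] at h1
  · rw [Finset.disjoint_left]
    intro S hS hS'
    rw [Finset.mem_powersetCard] at hS
    obtain ⟨Q, _, rfl⟩ := Finset.mem_image.1 hS'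
    exact hv (hS.1 (Finset.mem_insert_self _ _))

/-- the links of the vertices of flag homology 5-spheres -/
theorem link_five [DecidableRel G.Adj] (hS : HSph 6 G) (h : Act G a sgn) {η : ℕ}
    (t1 : ∀ v w, G.Adj v w → ∀ B : Set V, B ⊆ G.neighborSet v ∩ G.neighborSet w → ∀ i, 3 ≤ i →
      beta G (pull ℝ a) B ∅ i ≤ η)
    (t2 : ∀ v w u, G.Adj v w → G.Adj v u → G.Adj w u → ∀ B : Set V,
      B ⊆ G.neighborSet v ∩ G.neighborSet w ∩ G.neighborSet u → ∀ i, 2 ≤ i → beta G (pull ℝ a) B ∅ i ≤ η)
    (v : V) (A : Finset V) :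
    4 * (beta G (pull ℝ a) ((A : Set V) ∩ G.neighborSet v) ∅ 3 : ℚ) ≤
      (∑ w ∈ A.filter (fun w => G.Adj v w), chiL G {w, v}) * Fintype.card X +
        Fintype.card V * (2 * (Fintype.card V + 2) ^ 2 * η) := by
  classical
  have hT : G.IsClique ((({v} : Finset V)) : Set V) := by simp
  have h5 : HSph 5 (G.induce (lk G {v})) := by
    have := hsph_link hS {v} hT
    rwa [Finset.card_singleton, show 6 - 1 = 5 by norm_num] at this
  have hD : ∀ x : V, x ∈ lk G {v} ↔ G.Adj v x := by
    intro x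
    rw [nb_lk, SimpleGraph.mem_neighborSet]
  have h6 := five h5 (h.restrict (lk G {v})) (η := η) (fun w B hB i hi => by
      rw [beta_sub]
      refine t1 v w.1 ((hD _).1 w.2) _ ?_ i hi
      rintro _ ⟨b, hb, rfl⟩
      exact ⟨(hD _).1 b.2, hB hb⟩) (fun w u hwu B hB i hi => by
      rw [beta_sub]
      refine t2 v w.1 u.1 ((hD _).1 w.2) ((hD _).1 u.2) hwu _ ?_ i hi
      rintro _ ⟨b, hb, rfl⟩
      exact ⟨⟨(hD _).1 b.2, (hB hb).1⟩, (hB hb).2⟩) (A.subtype (fun x => x ∈ lk G {v}))
  rw [beta_sub] at h6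
  have e1 : (Subtype.val '' ((A.subtype (fun x => x ∈ lk G {v}) : Finset ↥(lk G {v})) : Set ↥(lk G {v})) : Set V) =
      (A : Set V) ∩ G.neighborSet v := by
    ext x
    simp only [Set.mem_image, Finset.mem_coe, Finset.mem_subtype, Subtype.exists, exists_and_left, exists_prop,
      exists_eq_right_right, Set.mem_inter_iff, SimpleGraph.mem_neighborSet, hD]
  have e2 : ∑ w ∈ A.subtype (fun x => x ∈ lk G {v}), chiL (G.induce (lk G {v})) {w} =
      ∑ w ∈ A.filter (fun w => G.Adj v w), chiL G {w, v} := by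
    have e3 : ∀ w : ↥(lk G {v}), chiL (G.induce (lk G {v})) {w} = (fun x : V => chiL G {x, v}) w.1 :=
      fun w => Pool.Agent.N13.EU.chiL_ind {v} hT w
    rw [Finset.sum_congr rfl fun w _ => e3 w]
    refine (Finset.sum_subtype_eq_sum_filter (s := A) (p := fun x => x ∈ lk G {v})
      (fun x => chiL G {x, v})).trans ?_
    refine Finset.sum_congr ?_ fun _ _ => rfl
    ext x
    rw [Finset.mem_filter, Finset.mem_filter, hD]
  rw [e1, e2] at h6
  refine h6.trans (add_le_add_right ?_ _)
  have c1 : ((A.subtype (fun x => x ∈ lk G {v})).card : ℚ) ≤ Fintype.card V := by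
    have h7 : (A.subtype (fun x => x ∈ lk G {v})).card ≤ Fintype.card V := by
      rw [← Finset.card_map (Function.Embedding.subtype _)]
      exact Finset.card_le_univ _
    exact_mod_cast h7
  have c2 : (Fintype.card ↥(lk G {v}) : ℚ) ≤ Fintype.card V := by
    have h7 : Fintype.card ↥(lk G {v}) ≤ Fintype.card V :=
      Fintype.card_le_of_injective _ Subtype.val_injective
    exact_mod_cast h7
  have c3 : (0 : ℚ) ≤ Fintype.card ↥(lk G {v}) := Nat.cast_nonneg _
  have c4 : (2 * ((Fintype.card ↥(lk G {v}) : ℚ) + 2) ^ 2 * η) ≤ 2 * ((Fintype.card V : ℚ) + 2) ^ 2 * η := by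
    gcongr
  calc ((A.subtype (fun x => x ∈ lk G {v})).card : ℚ) * (2 * ((Fintype.card ↥(lk G {v}) : ℚ) + 2) ^ 2 * η)
      ≤ Fintype.card V * (2 * ((Fintype.card ↥(lk G {v}) : ℚ) + 2) ^ 2 * η) :=
        mul_le_mul_of_nonneg_right c1 (by positivity)
    _ ≤ _ := mul_le_mul_of_nonneg_left c4 (Nat.cast_nonneg _)

/-- the fourth Betti number -/
theorem six_four (hS : HSph 6 G) (h : Act G a sgn) {η : ℕ}
    (t1 : ∀ v w, G.Adj v w → ∀ B : Set V, B ⊆ G.neighborSet v ∩ G.neighborSet w → ∀ i, 3 ≤ i →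
      beta G (pull ℝ a) B ∅ i ≤ η)
    (t2 : ∀ v w u, G.Adj v w → G.Adj v u → G.Adj w u → ∀ B : Set V,
      B ⊆ G.neighborSet v ∩ G.neighborSet w ∩ G.neighborSet u → ∀ i, 2 ≤ i → beta G (pull ℝ a) B ∅ i ≤ η)
    (A : Finset V) :
    8 * (beta G (pull ℝ a) A ∅ 4 : ℚ) ≤ cE G A * Fintype.card X +
      A.card * (Fintype.card V * (2 * (Fintype.card V + 2) ^ 2 * η)) := by
  classical
  induction A using Finset.induction_on with
  | empty =>
    have h1 : KK G (pull ℝ a) ∅ ∅ 4 = ⊥ := by
      rw [eq_bot_iff]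
      intro c hc
      rw [Submodule.mem_bot]
      rw [mem_KK] at hc
      funext T
      refine hc.1 T ?_
      rintro ⟨_, h2, h3⟩
      have h4 : T = ∅ := by
        rw [← Finset.coe_eq_empty]
        exact Set.subset_empty_iff.1 h2
      rw [h4, Finset.card_empty] at h3
      omega
    rw [Finset.coe_empty, Finset.card_empty]
    unfold beta ZZ cE
    rw [h1, bot_inf_eq, finrank_bot, Finset.powersetCard_eq_empty.2 (by simp)]
    simp
  | insert v A hv ih =>
    rw [Finset.coe_insert, Finset.card_insert_of_notMem hv, cE_insert hv]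
    have h1 := (vert V ℝ (X → ℝ) G (pull ℝ a) (A : Set V) ∅ v (by simpa using hv) (Set.notMem_empty _)).2 3
    simp only [Nat.reduceAdd] at h1
    have h2 := two_beta (G := G) (by norm_num) (sgn_sw h.self h.other v) (h.pinv v)
      (B := (A : Set V) ∩ G.neighborSet v) (fun h' => w_not_nb G v h'.2)
      (fun u hu m => h.pcomm ((G.mem_neighborSet v u).1 hu.2).symm m) 3
    have h3 := link_five hS h t1 t2 v A
    have h4 : 8 * (beta G (pull ℝ a) (insert v (A : Set V)) ∅ 4 : ℚ) ≤ 8 * (beta G (pull ℝ a) (A : Set V) ∅ 4 : ℚ) +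
        4 * (beta G (pull ℝ a) ((A : Set V) ∩ G.neighborSet v) ∅ 3 : ℚ) := by
      have : 8 * beta G (pull ℝ a) (insert v (A : Set V)) ∅ 4 ≤ 8 * beta G (pull ℝ a) (A : Set V) ∅ 4 +
        4 * beta G (pull ℝ a) ((A : Set V) ∩ G.neighborSet v) ∅ 3 := by omega
      exact_mod_cast this
    push_cast
    rw [add_mul, add_mul, one_mul]
    linarith

/-- the Euler characteristic, in a finite set -/
theorem six_fin (hS : HSph 6 G) (h : Act G a sgn) {η : ℕ}
    (t1 : ∀ v w, G.Adj v w → ∀ B : Set V, B ⊆ G.neighborSet v ∩ G.neighborSet w → ∀ i, 3 ≤ i →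
      beta G (pull ℝ a) B ∅ i ≤ η)
    (t2 : ∀ v w u, G.Adj v w → G.Adj v u → G.Adj w u → ∀ B : Set V,
      B ⊆ G.neighborSet v ∩ G.neighborSet w ∩ G.neighborSet u → ∀ i, 2 ≤ i → beta G (pull ℝ a) B ∅ i ≤ η) :
    4 * chiW G * Fintype.card X ≤ cE G Finset.univ * Fintype.card X + 6 * (Fintype.card V + 2) ^ 4 * η := by
  classical
  set c := Fintype.card V with hc
  have s1 : ∀ (w : V) (B : Set V), B ⊆ G.neighborSet w → ∀ i, 4 ≤ i → beta G (pull ℝ a) B ∅ i ≤ c * η := by
    intro w B hB i hi
    have h1 := high_small (h.restrict (G.neighborSet w)) (η := η) (r := 3) (fun u B' hB' j hj => by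
      rw [beta_sub]
      refine t1 w u.1 u.2 _ ?_ j hj
      rintro _ ⟨b, hb, rfl⟩
      exact ⟨b.2, hB' hb⟩) (B.toFinset.subtype (fun x => x ∈ G.neighborSet w)) i hi
    rw [beta_sub] at h1
    have e1 : (Subtype.val '' ((B.toFinset.subtype (fun x => x ∈ G.neighborSet w) :
        Finset ↥(G.neighborSet w)) : Set ↥(G.neighborSet w)) : Set V) = B := by
      ext x
      simp only [Set.mem_image, Finset.mem_coe, Finset.mem_subtype, Subtype.exists, exists_and_left, exists_prop,
        exists_eq_right_right, Set.mem_toFinset]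
      exact ⟨fun hx => hx.1, fun hx => ⟨hx, hB hx⟩⟩
    rw [e1] at h1
    refine h1.trans (Nat.mul_le_mul_right _ ?_)
    rw [← Finset.card_map (Function.Embedding.subtype _)]
    exact Finset.card_le_univ _
  have hhigh : ∀ i, 5 ≤ i → beta G (pull ℝ a) Set.univ ∅ i ≤ c * (c * η) := by
    intro i hi
    have h1 := high_small h s1 Finset.univ i hi
    rwa [Finset.coe_univ, Finset.card_univ] at h1
  obtain ⟨b, hb⟩ : ∃ b : ℕ → ℚ, ∀ i, b i = (beta G (pull ℝ a) Set.univ ∅ i : ℚ) := ⟨_, fun _ => rfl⟩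
  have hb0 : ∀ i, 0 ≤ b i := fun i => by rw [hb]; exact Nat.cast_nonneg _
  have hη : (0 : ℚ) ≤ c * (c * η) := by positivity
  have hsm : ∀ i, i ≠ 2 → i ≠ 3 → i ≠ 4 → b i ≤ c * (c * η) := by
    intro i h2 h3 h4
    by_cases h5 : 5 ≤ i
    · rw [hb]
      exact_mod_cast hhigh i h5
    · have h6 : i = 0 ∨ i = 1 := by omega
      have hd : ∀ i j, i + j = 6 → beta G (pull ℝ a) Set.univ ∅ i = beta G (pull ℝ a) Set.univ ∅ j :=
        fun i j hij => Pool.Agent.TH652.Dual.duality_sgn hS h.inv h.comm h.self h.other hij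
      rw [hb]
      rcases h6 with rfl | rfl
      · rw [hd 0 6 rfl]
        exact_mod_cast hhigh 6 (by norm_num)
      · rw [hd 1 5 rfl]
        exact_mod_cast hhigh 5 (by norm_num)
  have h24 : b 2 = b 4 := by
    rw [hb, hb, Pool.Agent.TH652.Dual.duality_sgn hS h.inv h.comm h.self h.other (i := 2) (j := 4) rfl]
  have he := Pool.Agent.W723.SM.beta_sum (two_ne_zero : (2 : ℝ) ≠ 0) G a sgn h.inv h.comm h.self h.other
  push_cast at he
  have h4 := six_four hS h t1 t2 Finset.univ
  rw [Finset.coe_univ, ← hb, Finset.card_univ] at h4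
  have h7 : ∀ i ∈ Finset.range (c + 1), (-1 : ℚ) ^ i * (beta G (pull ℝ a) Set.univ ∅ i : ℚ) ≤
      (if i = 2 then b 2 else 0) + (if i = 4 then b 4 else 0) + c * (c * η) := by
    intro i _
    rw [← hb]
    by_cases e2 : i = 2
    · subst e2
      norm_num
      exact mul_nonneg (Nat.cast_nonneg _) (mul_nonneg (Nat.cast_nonneg _) (Nat.cast_nonneg _))
    · by_cases e4 : i = 4
      · subst e4
        norm_num
        exact mul_nonneg (Nat.cast_nonneg _) (mul_nonneg (Nat.cast_nonneg _) (Nat.cast_nonneg _))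
      · rw [if_neg e2, if_neg e4]
        rcases Nat.even_or_odd i with hev | ho
        · rw [hev.neg_one_pow]
          have : b i ≤ c * (c * η) := by
            refine hsm i e2 ?_ e4
            rintro rfl
            exact absurd hev (by decide)
          linarith
        · rw [ho.neg_one_pow]
          have := hb0 i
          linarith
  have h8 := Finset.sum_le_sum h7
  rw [he, Finset.sum_add_distrib, Finset.sum_add_distrib, Finset.sum_ite_eq', Finset.sum_ite_eq',
    Finset.sum_const, Finset.card_range, nsmul_eq_mul] at h8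
  have h9 : (if 2 ∈ Finset.range (c + 1) then b 2 else 0) ≤ b 2 := by
    split_ifs
    · exact le_rfl
    · exact hb0 2
  have h10 : (if 4 ∈ Finset.range (c + 1) then b 4 else 0) ≤ b 4 := by
    split_ifs
    · exact le_rfl
    · exact hb0 4
  push_cast at h8
  have h11 : (0 : ℚ) ≤ η := Nat.cast_nonneg _
  have h12 : (0 : ℚ) ≤ c := Nat.cast_nonneg _
  have h13 : 4 * (((c : ℚ) + 1) * (c * (c * η))) + c * (c * (2 * (c + 2) ^ 2 * η)) ≤ 6 * ((c : ℚ) + 2) ^ 4 * η := by
    have h14 : 4 * (((c : ℚ) + 1) * (c * c)) + c * (c * (2 * (c + 2) ^ 2)) ≤ 6 * ((c : ℚ) + 2) ^ 4 := by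
      nlinarith [pow_nonneg h12 2, pow_nonneg h12 3, pow_nonneg h12 4]
    calc 4 * (((c : ℚ) + 1) * (c * (c * η))) + c * (c * (2 * (c + 2) ^ 2 * η)) =
        (4 * (((c : ℚ) + 1) * (c * c)) + c * (c * (2 * (c + 2) ^ 2))) * η := by ring
      _ ≤ _ := mul_le_mul_of_nonneg_right h14 h11
  linarith

/-- **The Euler characteristic of flag homology 5-spheres.** -/
theorem chi_six {G : SimpleGraph V} (hS : HSph 6 G) : 4 * chiW G ≤ cE G Finset.univ := by
  classical
  by_contra hneg
  push Not at hneg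
  set δ := 4 * chiW G - cE G Finset.univ with hδ
  have hδ0 : 0 < δ := by rw [hδ]; linarith
  set C : ℚ := 6 * ((Fintype.card V : ℚ) + 2) ^ 4 with hC
  have hC0 : 0 ≤ C := by positivity
  obtain ⟨N, hN⟩ := exists_nat_gt (C / δ)
  rw [div_lt_iff₀ hδ0] at hN
  have hNpos : 0 < N := by
    rcases Nat.eq_zero_or_pos N with h0 | h0
    · subst h0
      rw [Nat.cast_zero, zero_mul] at hN
      linarith
    · exact h0
  obtain ⟨E, hE, hsm⟩ := big_small G N
  have : Fact (Nat.Prime 3) := ⟨Nat.prime_three⟩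
  obtain ⟨Y, fY, nY, P, ev, e1, e2, e3, e4⟩ := nilp 3 V G E (by norm_num) hE
  have hact : Act G P.a P.sgn := ⟨P.inv, P.comm, P.sgn_self, P.sgn_other⟩
  have key := hsm Y P.a ev P.inv P.comm e1 e2 e3 e4
  have hdiv : ∀ k : ℕ, N * k ≤ Fintype.card Y → k ≤ Fintype.card Y / N := by
    intro k hk
    rw [Nat.le_div_iff_mul_le hNpos, mul_comm]
    exact hk
  have habv := fun (T : Finset V) (hT : G.IsClique (T : Set V)) (hn : 6 ≤ T.card + 4) => link_abv hS T hT hn
  have h6 := six_fin hS hact (η := Fintype.card Y / N) (fun v w hvw B hB i hi => by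
      refine hdiv _ (key B i ?_)
      have hT : G.IsClique ((({v, w} : Finset V)) : Set V) := by
        rw [Finset.coe_insert, Finset.coe_singleton, SimpleGraph.isClique_pair]
        exact fun _ => hvw
      have h7 := habv {v, w} hT (by rw [Finset.card_pair hvw.ne])
      refine h7 B (fun x hx u hu => ?_) i (by rw [Finset.card_pair hvw.ne]; omega)
      rw [Finset.mem_insert, Finset.mem_singleton] at hu
      rcases hu with rfl | rfl
      · exact SimpleGraph.Adj.symm (hB hx).1
      · exact SimpleGraph.Adj.symm (hB hx).2) (fun v w u hvw hvu hwu B hB i hi => by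
      refine hdiv _ (key B i ?_)
      have hc3 : ({v, w, u} : Finset V).card = 3 := Finset.card_eq_three.2 ⟨v, w, u, hvw.ne, hvu.ne, hwu.ne, rfl⟩
      have hT : G.IsClique ((({v, w, u} : Finset V)) : Set V) := by
        rw [Finset.coe_insert, Finset.coe_insert, Finset.coe_singleton, SimpleGraph.isClique_insert,
          SimpleGraph.isClique_pair]
        refine ⟨fun _ => hwu, ?_⟩
        intro b hb _
        rcases hb with rfl | hb
        · exact hvw
        · rw [Set.mem_singleton_iff] at hb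
          rw [hb]
          exact hvu
      have h7 := habv {v, w, u} hT (by rw [hc3]; norm_num)
      refine h7 B (fun x hx y hy => ?_) i (by rw [hc3]; omega)
      rw [Finset.mem_insert, Finset.mem_insert, Finset.mem_singleton] at hy
      rcases hy with rfl | rfl | rfl
      · exact SimpleGraph.Adj.symm (hB hx).1.1
      · exact SimpleGraph.Adj.symm (hB hx).1.2
      · exact SimpleGraph.Adj.symm (hB hx).2)
  have hY : (0 : ℚ) < Fintype.card Y := by exact_mod_cast Fintype.card_pos
  have h7 : (N : ℚ) * ((Fintype.card Y / N : ℕ) : ℚ) ≤ Fintype.card Y := by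
    have := Nat.mul_div_le (Fintype.card Y) N
    exact_mod_cast this
  have h8 : δ * Fintype.card Y ≤ C * ((Fintype.card Y / N : ℕ) : ℚ) := by
    rw [hδ, sub_mul]
    linarith
  have h9 : N * (δ * Fintype.card Y) ≤ C * Fintype.card Y := by
    calc N * (δ * Fintype.card Y) ≤ N * (C * ((Fintype.card Y / N : ℕ) : ℚ)) :=
          mul_le_mul_of_nonneg_left h8 (Nat.cast_nonneg _)
      _ = C * (N * ((Fintype.card Y / N : ℕ) : ℚ)) := by ring
      _ ≤ C * Fintype.card Y := mul_le_mul_of_nonneg_left h7 hC0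
  have h10 : (N * δ) * Fintype.card Y ≤ C * Fintype.card Y := by
    rw [mul_assoc]
    exact h9
  have h11 := le_of_mul_le_mul_right h10 hY
  linarith

end

end Pool.Agent.Run7.h714.DU
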