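import Pool.Agent.Run7.h714.DU.Gam

set_option autoImplicit false
set_option linter.unusedSectionVars false

/-!
# The first degree below the top two, in all dimensions
-/

namespace Pool.Agent.Run7.h714.DU

open Pool.Agent.W907.SG Pool.Agent.W907.SM Module
open Pool.Agent.TH652.Above (HSph lv_sub lv_set)
open Pool.Agent.N13.EU (Abv chiL)
open Pool.Agent.N13.PL (nb_lk lk_em)
open Pool.Agent.R703.CW (hsph_link)

open Classical in
/-- the cliques with `k` vertices contained in `A` -/
noncomputable def cls {V : Type} (G : SimpleGraph V) (A : Finset V) (k : ℕ) : Finset (Finset V) :=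
  (A.powersetCard k).filter (fun T : Finset V => G.IsClique (T : Set V))

open Classical in
theorem mem_cls {V : Type} {G : SimpleGraph V} {A : Finset V} {k : ℕ} {T : Finset V} :
    T ∈ cls G A k ↔ (T ⊆ A ∧ T.card = k) ∧ G.IsClique (T : Set V) := by
  unfold cls
  rw [Finset.mem_filter, Finset.mem_powersetCard]

/-- the sum of the Euler characteristics of the links of the faces with `k` vertices in `A` -/
noncomputable def cT {V : Type} [Fintype V] (G : SimpleGraph V) (A : Finset V) (k : ℕ) : ℚ :=
  ∑ T ∈ cls G A k, chiL G T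

section

variable {V X : Type} [Fintype V] [LinearOrder V] [Fintype X]
variable {G : SimpleGraph V} {a : V → X → X} {sgn : V → X → Bool}

theorem cT_one (A : Finset V) : cT G A 1 = ∑ w ∈ A, chiL G {w} := by
  unfold cT
  symm
  refine Finset.sum_bij (fun w _ => {w}) ?_ ?_ ?_ fun _ _ => rfl
  · intro w hw
    rw [mem_cls]
    exact ⟨⟨Finset.singleton_subset_iff.2 hw, Finset.card_singleton w⟩, by simp⟩
  · intro w _ w' _ h
    exact Finset.singleton_injective h
  · intro T hT
    rw [mem_cls] at hT
    obtain ⟨w, rfl⟩ := Finset.card_eq_one.1 hT.1.2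
    exact ⟨w, Finset.singleton_subset_iff.1 hT.1.1, rfl⟩

theorem cT_univ (k : ℕ) : cT G Finset.univ k = sumL G k := by
  classical
  unfold cT sumL
  rw [← Finset.sum_filter]
  refine Finset.sum_congr ?_ fun _ _ => rfl
  ext T
  rw [mem_cls, Finset.mem_filter]
  simp only [Finset.subset_univ, true_and, Finset.mem_univ]
  exact and_comm

theorem cT_insert {A : Finset V} {v : V} (hv : v ∉ A) (k : ℕ) [DecidablePred fun x => x ∈ lk G {v}] :
    cT G (insert v A) (k + 1) = cT G A (k + 1) +
      cT (G.induce (lk G {v})) (A.subtype (fun x => x ∈ lk G {v})) k := by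
  have hT : G.IsClique ((({v} : Finset V)) : Set V) := by simp
  have hins : ∀ R : Finset ↥(lk G {v}), R.map (Function.Embedding.subtype _) ∪ {v} =
      insert v (R.map (Function.Embedding.subtype _)) := fun R => by
    rw [Finset.union_comm, ← Finset.insert_eq]
  have hn : ∀ Q : Finset ↥(lk G {v}), Q ⊆ A.subtype (fun x => x ∈ lk G {v}) →
      v ∉ Q.map (Function.Embedding.subtype _) := by
    intro Q hQ h'
    obtain ⟨b, hb, hb'⟩ := Finset.mem_map.1 h'
    have h1 : b.1 = v := hb'
    exact hv (h1 ▸ Finset.mem_subtype.1 (hQ hb))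
  have h1 : cls G (insert v A) (k + 1) = cls G A (k + 1) ∪
      (cls (G.induce (lk G {v})) (A.subtype (fun x => x ∈ lk G {v})) k).image
        (fun R => insert v (R.map (Function.Embedding.subtype _))) := by
    ext T
    rw [Finset.mem_union, mem_cls, mem_cls, Finset.mem_image]
    constructor
    · rintro ⟨⟨h1, h2⟩, h3⟩
      by_cases h4 : v ∈ T
      · right
        have h5 : ∀ x ∈ T.erase v, x ∈ lk G {v} := by
          intro x hx u hu
          rw [Finset.mem_singleton] at hu
          subst hu
          rw [Finset.mem_erase] at hx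
          exact h3 (by simpa using hx.2) (by simpa using h4) hx.1
        refine ⟨(T.erase v).subtype (fun x => x ∈ lk G {v}), ?_, ?_⟩
        · rw [mem_cls]
          refine ⟨⟨?_, ?_⟩, ?_⟩
          · intro b hb
            rw [Finset.mem_subtype, Finset.mem_erase] at hb
            rw [Finset.mem_subtype]
            exact Finset.mem_of_mem_insert_of_ne (h1 hb.2) hb.1
          · rw [← Finset.card_map (Function.Embedding.subtype _), map_sub h5, Finset.card_erase_of_mem h4, h2]
            rfl
          · rw [clique_iff hT, map_sub h5, Finset.union_comm, ← Finset.insert_eq, Finset.insert_erase h4]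
            exact h3
        · rw [map_sub h5, Finset.insert_erase h4]
      · left
        refine ⟨⟨?_, h2⟩, h3⟩
        intro x hx
        refine Finset.mem_of_mem_insert_of_ne (h1 hx) ?_
        rintro rfl
        exact h4 hx
    · rintro (⟨⟨h1, h2⟩, h3⟩ | ⟨R, hR, rfl⟩)
      · exact ⟨⟨h1.trans (Finset.subset_insert _ _), h2⟩, h3⟩
      · rw [mem_cls] at hR
        refine ⟨⟨?_, ?_⟩, ?_⟩
        · refine Finset.insert_subset_insert _ ?_
          intro x hx
          obtain ⟨b, hb, rfl⟩ := Finset.mem_map.1 hx
          exact Finset.mem_subtype.1 (hR.1.1 hb)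
        · rw [Finset.card_insert_of_notMem (hn R hR.1.1), Finset.card_map, hR.1.2]
        · rw [← hins, ← clique_iff hT]
          exact hR.2
  unfold cT
  rw [h1, Finset.sum_union]
  · congr 1
    rw [Finset.sum_image]
    · refine Finset.sum_congr rfl fun R _ => ?_
      rw [chiL_up hT, hins]
    · intro R hR R' hR' h
      rw [Finset.mem_coe, mem_cls] at hR hR'
      have h1 : (insert v (R.map (Function.Embedding.subtype _))).erase v =
          (insert v (R'.map (Function.Embedding.subtype _))).erase v := by
        have h2 : insert v (R.map (Function.Embedding.subtype _)) =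
          insert v (R'.map (Function.Embedding.subtype _)) := h
        rw [h2]
      rw [Finset.erase_insert (hn R hR.1.1), Finset.erase_insert (hn R' hR'.1.1)] at h1
      exact Finset.map_injective _ h1
  · rw [Finset.disjoint_left]
    intro S hS hS'
    rw [mem_cls] at hS
    obtain ⟨Q, _, rfl⟩ := Finset.mem_image.1 hS'
    exact hv (hS.1.1 (Finset.mem_insert_self _ _))

/-- the smallness hypothesis -/
def Sm (G : SimpleGraph V) (a : V → X → X) (n η : ℕ) : Prop :=
  ∀ T : Finset V, G.IsClique (T : Set V) → ∀ B : Set V, B ⊆ lk G T → ∀ i,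
    (T.card + 4 = n ∧ 3 ≤ i) ∨ (T.card + 3 = n ∧ 2 ≤ i) → beta G (pull ℝ a) B ∅ i ≤ η

theorem Sm.link {n η : ℕ} (h : Sm G a (n + 1) η) (v : V) [Fintype ↥(lk G {v})] :
    Sm (G.induce (lk G {v})) (fun u : ↥(lk G {v}) => a u.1) n η := by
  classical
  intro T hT B hB i hi
  have hv : G.IsClique ((({v} : Finset V)) : Set V) := by simp
  rw [beta_sub]
  refine h (T.map (Function.Embedding.subtype _) ∪ {v}) ((clique_iff hv T).1 hT) _ ?_ i ?_
  · rintro _ ⟨b, hb, rfl⟩ u hu
    rw [Finset.mem_union] at hu
    rcases hu with hu | hu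
    · obtain ⟨c, hc, rfl⟩ := Finset.mem_map.1 hu
      exact hB hb c hc
    · exact b.2 u hu
  · rw [Finset.card_union_of_disjoint (lk_disj T), Finset.card_map, Finset.card_singleton]
    omega

theorem beta_empty (G : SimpleGraph V) (a : V → X → X) (i : ℕ) (hi : 1 ≤ i) :
    beta G (pull ℝ a) (∅ : Set V) ∅ i = 0 := by
  have h1 : KK G (pull ℝ a) ∅ ∅ i = ⊥ := by
    rw [eq_bot_iff]
    intro c hc
    rw [Submodule.mem_bot]
    rw [mem_KK] at hc
    funext T
    refine hc.1 T ?_
    rintro ⟨_, h2, h3⟩
    have h4 : T = ∅ := by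
      rw [← Finset.coe_eq_empty]
      exact Set.subset_empty_iff.1 h2
    rw [h4, Finset.card_empty] at h3
    omega
  unfold beta ZZ
  rw [h1, bot_inf_eq, finrank_bot]
  omega

theorem sub_image (D : Set V) [DecidablePred fun x => x ∈ D] (A : Finset V) :
    (Subtype.val '' ((A.subtype (fun x => x ∈ D) : Finset ↥D) : Set ↥D) : Set V) = (A : Set V) ∩ D := by
  ext x
  simp only [Set.mem_image, Finset.mem_coe, Finset.mem_subtype, Subtype.exists, exists_and_left, exists_prop,
    exists_eq_right_right, Set.mem_inter_iff]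

/-- **the bound in the degree `n - 2`** -/
theorem top_bound (k : ℕ) : ∀ (V : Type) [Fintype V] [LinearOrder V] (G : SimpleGraph V) (a : V → X → X)
    (sgn : V → X → Bool) (η : ℕ), HSph (k + 5) G → Act G a sgn → Sm G a (k + 5) η → ∀ A : Finset V,
    2 ^ (k + 2) * (beta G (pull ℝ a) A ∅ (k + 3) : ℚ) ≤ cT G A (k + 1) * Fintype.card X +
      A.card * (2 * (Fintype.card V + 2) ^ (k + 2) * η) := by
  classical
  induction k with
  | zero =>
    intro V _ _ G a sgn η hS h hη A
    have h1 := five hS h (η := η) (fun w B hB i hi => by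
        refine hη {w} (by simp) B ?_ i (Or.inl ⟨by simp, hi⟩)
        rwa [nb_lk]) (fun w u hwu B hB i hi => by
        have hT : G.IsClique ((({w, u} : Finset V)) : Set V) := by
          rw [Finset.coe_insert, Finset.coe_singleton, SimpleGraph.isClique_pair]
          exact fun _ => hwu
        refine hη {w, u} hT B ?_ i (Or.inr ⟨by rw [Finset.card_pair hwu.ne], hi⟩)
        intro x hx y hy
        rw [Finset.mem_insert, Finset.mem_singleton] at hy
        rcases hy with rfl | rfl
        · exact SimpleGraph.Adj.symm (hB hx).1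
        · exact SimpleGraph.Adj.symm (hB hx).2) A
    rw [zero_add, zero_add, zero_add, cT_one]
    calc (2 : ℚ) ^ 2 * (beta G (pull ℝ a) A ∅ 3 : ℚ) = 4 * (beta G (pull ℝ a) A ∅ 3 : ℚ) := by norm_num
      _ ≤ _ := h1
  | succ k ih =>
    intro V _ _ G a sgn η hS h hη A
    induction A using Finset.induction_on with
    | empty =>
      rw [Finset.coe_empty, Finset.card_empty, beta_empty G a _ (by omega)]
      have h0 : cls G ∅ (k + 1 + 1) = ∅ := by
        rw [Finset.eq_empty_iff_forall_notMem]
        intro T hT
        rw [mem_cls] at hT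
        have h3 := Finset.subset_empty.1 hT.1.1
        rw [h3, Finset.card_empty] at hT
        omega
      unfold cT
      rw [h0]
      simp
    | insert v A hv ih2 =>
      rw [Finset.coe_insert, Finset.card_insert_of_notMem hv, cT_insert hv]
      have hT : G.IsClique ((({v} : Finset V)) : Set V) := by simp
      have h5 : HSph (k + 5) (G.induce (lk G {v})) := by
        have := hsph_link hS {v} hT
        rwa [Finset.card_singleton, show k + 1 + 5 - 1 = k + 5 by omega] at this
      have h6 := ih ↥(lk G {v}) (G.induce (lk G {v})) (fun u => a u.1) (fun u => sgn u.1) η h5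
        (h.restrict (lk G {v})) (Sm.link (n := k + 5) hη v) (A.subtype (fun x => x ∈ lk G {v}))
      rw [beta_sub, sub_image] at h6
      have h1 := (vert V ℝ (X → ℝ) G (pull ℝ a) (A : Set V) ∅ v (by simpa using hv) (Set.notMem_empty _)).2 (k + 3)
      have h2 := two_beta (G := G) (by norm_num) (sgn_sw h.self h.other v) (h.pinv v)
        (B := (A : Set V) ∩ G.neighborSet v) (fun h' => w_not_nb G v h'.2)
        (fun u hu m => h.pcomm ((G.mem_neighborSet v u).1 hu.2).symm m) (k + 3)
      have e0 : (A : Set V) ∩ lk G {v} = (A : Set V) ∩ G.neighborSet v := by rw [nb_lk]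
      rw [e0] at h6
      have e1 : k + 1 + 3 = k + 3 + 1 := by omega
      have h4 : 2 ^ (k + 1 + 2) * (beta G (pull ℝ a) (insert v (A : Set V)) ∅ (k + 1 + 3) : ℚ) ≤
          2 ^ (k + 1 + 2) * (beta G (pull ℝ a) (A : Set V) ∅ (k + 1 + 3) : ℚ) +
          2 ^ (k + 2) * (beta G (pull ℝ a) ((A : Set V) ∩ G.neighborSet v) ∅ (k + 3) : ℚ) := by
        have h7 : 2 * beta G (pull ℝ a) (insert v (A : Set V)) ∅ (k + 1 + 3) ≤
            2 * beta G (pull ℝ a) (A : Set V) ∅ (k + 1 + 3) +
            beta G (pull ℝ a) ((A : Set V) ∩ G.neighborSet v) ∅ (k + 3) := by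
          rw [e1]
          omega
        have h8 : 2 * (beta G (pull ℝ a) (insert v (A : Set V)) ∅ (k + 1 + 3) : ℚ) ≤
            2 * (beta G (pull ℝ a) (A : Set V) ∅ (k + 1 + 3) : ℚ) +
            (beta G (pull ℝ a) ((A : Set V) ∩ G.neighborSet v) ∅ (k + 3) : ℚ) := by exact_mod_cast h7
        have h9 : (0 : ℚ) ≤ 2 ^ (k + 2) := by positivity
        have h10 := mul_le_mul_of_nonneg_left h8 h9
        have e2 : (2 : ℚ) ^ (k + 1 + 2) = 2 ^ (k + 2) * 2 := by rw [← pow_succ]
        rw [e2]
        linarith
      have c1 : ((A.subtype (fun x => x ∈ lk G {v})).card : ℚ) ≤ Fintype.card V := by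
        have h7 : (A.subtype (fun x => x ∈ lk G {v})).card ≤ Fintype.card V := by
          rw [← Finset.card_map (Function.Embedding.subtype _)]
          exact Finset.card_le_univ _
        exact_mod_cast h7
      have c2 : (Fintype.card ↥(lk G {v}) : ℚ) ≤ Fintype.card V := by
        have h7 : Fintype.card ↥(lk G {v}) ≤ Fintype.card V :=
          Fintype.card_le_of_injective _ Subtype.val_injective
        exact_mod_cast h7
      have c3 : (0 : ℚ) ≤ Fintype.card ↥(lk G {v}) := Nat.cast_nonneg _
      have c5 : (0 : ℚ) ≤ Fintype.card V := Nat.cast_nonneg _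
      have c4 : ((A.subtype (fun x => x ∈ lk G {v})).card : ℚ) *
          (2 * ((Fintype.card ↥(lk G {v}) : ℚ) + 2) ^ (k + 2) * η) ≤
          2 * ((Fintype.card V : ℚ) + 2) ^ (k + 1 + 2) * η := by
        calc ((A.subtype (fun x => x ∈ lk G {v})).card : ℚ) *
            (2 * ((Fintype.card ↥(lk G {v}) : ℚ) + 2) ^ (k + 2) * η)
            ≤ ((Fintype.card V : ℚ) + 2) * (2 * ((Fintype.card V : ℚ) + 2) ^ (k + 2) * η) := by
              gcongr
              linarith
          _ = _ := by
              rw [pow_succ ((Fintype.card V : ℚ) + 2) (k + 2)]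
              ring
      push_cast
      rw [add_mul, add_mul, one_mul]
      linarith

/-- vanishing in the top two degrees -/
theorem lv_top {k : ℕ} {V : Type} [Fintype V] [LinearOrder V] {G : SimpleGraph V} (hS : HSph (k + 4) G)
    (T : Finset V) (hT : G.IsClique (T : Set V)) : ∀ (A : Set V), A ⊆ lk G T → ∀ i, k + 3 ≤ i + T.card →
    3 ≤ i → LV (G.induce A) i := by
  classical
  -- induction on the codimension of `T`, then on `A`
  have key : ∀ (r : ℕ) (T : Finset V), G.IsClique (T : Set V) → T.card + r = k → ∀ (m : ℕ) (A : Set V),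
      A.ncard = m → A ⊆ lk G T → ∀ i, r + 3 ≤ i → LV (G.induce A) i := by
    intro r
    induction r with
    | zero =>
      intro T hT hc m A _ hA i hi
      exact link_abv hS T hT (by omega) A hA i (by omega)
    | succ r ihr =>
      intro T hT hc m
      induction m with
      | zero =>
        intro A hm _ i hi
        rw [Set.ncard_eq_zero] at hm
        subst hm
        exact Pool.Agent.N13.EU.lv_empty G i (by omega)
      | succ m ihm =>
        intro A hm hA i hi
        obtain ⟨v, hv⟩ : A.Nonempty := by
          rw [← Set.ncard_pos]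
          omega
        refine Pool.Agent.TH652.Above.lv_add G A v hv i (ihm _ ?_ (Set.sdiff_subset.trans hA) i hi) fun j hj => ?_
        · have h2 := Set.ncard_sdiff_singleton_add_one hv (Set.toFinite _)
          omega
        · have hv' : v ∈ lk G T := hA hv
          refine ihr (insert v T) (Pool.Agent.N13.EU.clique_ins hT hv')
            (by rw [Pool.Agent.N13.EU.card_ins hv']; omega) _ _ rfl ?_ j (by omega)
          intro x hx u hu
          rw [Finset.mem_insert] at hu
          rcases hu with rfl | hu
          · exact SimpleGraph.Adj.symm hx.2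
          · exact hA hx.1 u hu
  intro A hA i hi h3
  have hcard := Pool.Agent.R703.CW.card_le_of_hsph hS T hT
  by_cases hTk : T.card ≤ k
  · exact key (k - T.card) T hT (by omega) _ A rfl hA i (by omega)
  · exact link_abv hS T hT (by omega) A hA i (by omega)

end

end Pool.Agent.Run7.h714.DU
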